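import Pool.Agent.Helper77.OC.St

set_option autoImplicit false

/-! MP_7a9ddc_co, project OC, module B: one saved colour. -/

namespace Pool.Agent.Helper15.OC.B

open Pool.Agent.Helper35.PM Pool.Agent.Helper77.HY Pool.Agent.Helper77.OC

theorem lost_le {V : Type} [Finite V] (G : SimpleGraph V) (U : Finset V) (L : V → Finset ℕ)
    (c : V → ℕ) (r : V) : lost G U L c r ≤ dg G r U := by
  unfold lost dg
  have hsub : {γ : ℕ | γ ∈ L r ∧ ∃ u ∈ U, G.Adj r u ∧ c u = γ} ⊆
      c '' {u : V | u ∈ U ∧ G.Adj r u} := by
    rintro γ ⟨-, u, hu, hadj, rfl⟩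
    exact ⟨u, ⟨hu, hadj⟩, rfl⟩
  exact (Set.ncard_le_ncard hsub (Set.toFinite _)).trans (Set.ncard_image_le (Set.toFinite _))

theorem lost_lt {V : Type} [Finite V] (G : SimpleGraph V) (U : Finset V) (L : V → Finset ℕ)
    (c : V → ℕ) (r s : V) (hs : s ∈ U) (hrs : G.Adj r s)
    (h : c s ∉ L r ∨ ∃ s' ∈ U, G.Adj r s' ∧ s' ≠ s ∧ c s' = c s) :
    lost G U L c r + 1 ≤ dg G r U := by
  unfold lost dg
  have hsub : {γ : ℕ | γ ∈ L r ∧ ∃ u ∈ U, G.Adj r u ∧ c u = γ} ⊆
      c '' ({u : V | u ∈ U ∧ G.Adj r u} \ {s}) := by
    rintro γ ⟨hγ, u, hu, hadj, rfl⟩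
    by_cases hus : u = s
    · subst hus
      rcases h with h | ⟨s', hs', hadj', hne, heq⟩
      · exact absurd hγ h
      · exact ⟨s', ⟨⟨hs', hadj'⟩, hne⟩, heq⟩
    · exact ⟨u, ⟨⟨hu, hadj⟩, hus⟩, rfl⟩
  have h1 := (Set.ncard_le_ncard hsub (Set.toFinite _)).trans (Set.ncard_image_le (Set.toFinite _))
  have h2 : ({u : V | u ∈ U ∧ G.Adj r u} \ {s}).ncard + 1 = {u : V | u ∈ U ∧ G.Adj r u}.ncard :=
    Set.ncard_diff_singleton_add_one ⟨hs, hrs⟩ (Set.toFinite _)
  omega

theorem main (hExt : StExt) (hFr : StFr) (_hCnt : StCnt) : StB := by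
  intro V _ _ G p S W hTF hSW hp hF hdf hdfW L A hLA
  have hL3 : ∀ v, (L v).card = 3 := by
    intro v
    have h1 := (hLA v).1
    have h2 := (hLA v).2
    have h3 : (L v \ A).card + (L v ∩ A).card = (L v).card := Finset.card_sdiff_add_card_inter _ _
    omega
  have ha : ∀ v, ∃ a, L v ∩ A = {a} := fun v => Finset.card_eq_one.1 (hLA v).1
  choose a ha using ha
  have haL : ∀ v, a v ∈ L v := by
    intro v
    have : a v ∈ L v ∩ A := by rw [ha v]; exact Finset.mem_singleton_self _
    exact (Finset.mem_inter.1 this).1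
  have haA : ∀ v, a v ∈ A := by
    intro v
    have : a v ∈ L v ∩ A := by rw [ha v]; exact Finset.mem_singleton_self _
    exact (Finset.mem_inter.1 this).2
  have hau : ∀ v γ, γ ∈ L v → γ ∈ A → γ = a v := by
    intro v γ h1 h2
    have : γ ∈ L v ∩ A := Finset.mem_inter.2 ⟨h1, h2⟩
    rw [ha v] at this
    exact Finset.mem_singleton.1 this
  -- extension with one saved colour
  have key : ∀ c : V → ℕ, ColOn G S L c → (∃ r ∈ W, r ∉ S ∧ lost G S L c r + 1 ≤ dg G r S) →
      ∃ c, ColOn G W L c := by
    rintro c hc ⟨r, hrW, hrS, hr⟩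
    obtain ⟨c', -, hc'⟩ := hExt V G p L S W c hSW hp hL3 hc (by
      intro U' h1 h2
      have h3 : ∀ r ∈ U' \ S, (lost G S L c r : ℤ) ≤ (dg G r S : ℤ) := by
        intro r _
        exact_mod_cast lost_le G S L c r
      by_cases h4 : U' = W
      · subst h4
        have h5 : r ∈ U' \ S := Finset.mem_sdiff.2 ⟨hrW, hrS⟩
        have h6 : ∑ r ∈ U' \ S, (lost G S L c r : ℤ) < ∑ r ∈ U' \ S, (dg G r S : ℤ) := by
          apply Finset.sum_lt_sum h3
          refine ⟨r, h5, ?_⟩
          have : lost G S L c r < dg G r S := by omega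
          exact_mod_cast this
        linarith
      · have h5 := hdf U' h1 (lt_of_le_of_ne h2 h4)
        have h6 := Finset.sum_le_sum h3
        linarith)
    exact ⟨c', hc'⟩
  by_cases hcase : ∃ r ∈ W, r ∉ S ∧ ∃ s ∈ S, ∃ s' ∈ S, s ≠ s' ∧ G.Adj r s ∧ G.Adj r s'
  · obtain ⟨r, hrW, hrS, s, hs, s', hs', hne, hrs, hrs'⟩ := hcase
    have hnadj : ¬ G.Adj s s' := fun h => hTF s r s' hrs.symm hrs' h
    -- colour the rest of the forest
    have hF' : Forest G ((S \ {s, s'} : Finset V) : Set V) := by
      intro T hT hTne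
      refine hF T (fun x hx => ?_) hTne
      have := hT hx
      rw [Finset.mem_coe, Finset.mem_sdiff] at this
      exact this.1
    obtain ⟨c0, hc0L, hc0⟩ := hFr.1 V G (S \ {s, s'}) (fun v => L v \ A) hF'
      (fun v _ => (hLA v).2.ge)
    set c : V → ℕ := fun v => if v = s ∨ v = s' then a v else c0 v with hcdef
    have hcs : ∀ v, (v = s ∨ v = s') → c v = a v := fun v hv => by rw [hcdef]; exact if_pos hv
    have hcn : ∀ v, ¬ (v = s ∨ v = s') → c v = c0 v := fun v hv => by rw [hcdef]; exact if_neg hv
    have hmem : ∀ v ∈ S, ¬ (v = s ∨ v = s') → v ∈ S \ {s, s'} := by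
      intro v hv h
      rw [Finset.mem_sdiff, Finset.mem_insert, Finset.mem_singleton]
      exact ⟨hv, h⟩
    have hcol : ColOn G S L c := by
      refine ⟨?_, ?_⟩
      · intro v hv
        by_cases h : v = s ∨ v = s'
        · rw [hcs v h]
          exact haL v
        · rw [hcn v h]
          exact (Finset.mem_sdiff.1 (hc0L v (hmem v hv h))).1
      · intro u hu v hv huv
        by_cases h1 : u = s ∨ u = s'
        · by_cases h2 : v = s ∨ v = s'
          · exfalso
            rcases h1 with rfl | rfl <;> rcases h2 with rfl | rfl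
            · exact G.loopless.irrefl _ huv
            · exact hnadj huv
            · exact hnadj huv.symm
            · exact G.loopless.irrefl _ huv
          · rw [hcs u h1, hcn v h2]
            intro heq
            have h3 := (Finset.mem_sdiff.1 (hc0L v (hmem v hv h2))).2
            rw [← heq] at h3
            exact h3 (haA u)
        · by_cases h2 : v = s ∨ v = s'
          · rw [hcn u h1, hcs v h2]
            intro heq
            have h3 := (Finset.mem_sdiff.1 (hc0L u (hmem u hu h1))).2
            rw [heq] at h3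
            exact h3 (haA v)
          · rw [hcn u h1, hcn v h2]
            exact hc0 u (hmem u hu h1) v (hmem v hv h2) huv
    refine key c hcol ⟨r, hrW, hrS, ?_⟩
    have e1 : c s = a s := hcs s (Or.inl rfl)
    have e2 : c s' = a s' := hcs s' (Or.inr rfl)
    by_cases h1 : a s = a r
    · by_cases h2 : a s' = a r
      · refine lost_lt G S L c r s hs hrs (Or.inr ⟨s', hs', hrs', hne.symm, ?_⟩)
        rw [e1, e2, h1, h2]
      · refine lost_lt G S L c r s' hs' hrs' (Or.inl ?_)
        rw [e2]
        intro h3
        exact h2 (hau r _ h3 (haA s'))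
    · refine lost_lt G S L c r s hs hrs (Or.inl ?_)
      rw [e1]
      intro h3
      exact h1 (hau r _ h3 (haA s))
  · push Not at hcase
    obtain ⟨c0, hc0L, hc0⟩ := hFr.1 V G S (fun v => L v \ A) hF (fun v _ => (hLA v).2.ge)
    have hb : ∀ v, ∃ β, v ∈ W → v ∉ S → β ∈ L v \ A ∧ ∀ s ∈ S, G.Adj v s → c0 s ≠ β := by
      intro v
      by_cases hv : v ∈ W ∧ v ∉ S
      · by_cases hs : ∃ s ∈ S, G.Adj v s
        · obtain ⟨s, hs, hvs⟩ := hs
          have h1 : 0 < ((L v \ A).erase (c0 s)).card := by
            have := Finset.pred_card_le_card_erase (s := L v \ A) (a := c0 s)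
            have h2 := (hLA v).2
            omega
          obtain ⟨β, hβ⟩ := Finset.card_pos.1 h1
          obtain ⟨h3, h4⟩ := Finset.mem_erase.1 hβ
          refine ⟨β, fun _ _ => ⟨h4, ?_⟩⟩
          intro s' hs' hvs'
          by_cases hss : s = s'
          · subst hss
            exact fun h => h3 h.symm
          · exact absurd hvs' (hcase v hv.1 hv.2 s hs s' hs' hss hvs)
        · push Not at hs
          have h1 : 0 < (L v \ A).card := by
            have h2 := (hLA v).2
            omega
          obtain ⟨β, hβ⟩ := Finset.card_pos.1 h1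
          exact ⟨β, fun _ _ => ⟨hβ, fun s hsS hvs => absurd hvs (hs s hsS)⟩⟩
      · exact ⟨0, fun h1 h2 => absurd ⟨h1, h2⟩ hv⟩
    choose b hb using hb
    set c : V → ℕ := fun v => if v ∈ S then c0 v else if p v = true then a v else b v with hcdef
    have cS : ∀ v ∈ S, c v = c0 v := fun v hv => by rw [hcdef]; exact if_pos hv
    have cT : ∀ v, v ∉ S → p v = true → c v = a v := fun v hv h => by
      rw [hcdef]
      show (if v ∈ S then c0 v else if p v = true then a v else b v) = a v
      rw [if_neg hv, if_pos h]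
    have cB : ∀ v, v ∉ S → ¬ p v = true → c v = b v := fun v hv h => by
      rw [hcdef]
      show (if v ∈ S then c0 v else if p v = true then a v else b v) = b v
      rw [if_neg hv, if_neg h]
    -- the colours outside A
    have cout : ∀ v ∈ W, (v ∈ S ∨ ¬ p v = true) → c v ∉ A := by
      intro v hvW h
      by_cases hv : v ∈ S
      · rw [cS v hv]
        exact (Finset.mem_sdiff.1 (hc0L v hv)).2
      · have hp' : ¬ p v = true := by
          rcases h with h | h
          · exact absurd h hv
          · exact h
        rw [cB v hv hp']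
        exact (Finset.mem_sdiff.1 (hb v hvW hv).1).2
    have cin : ∀ v, v ∉ S → p v = true → c v ∈ A := by
      intro v hv h
      rw [cT v hv h]
      exact haA v
    refine ⟨c, ?_, ?_⟩
    · intro v hv
      by_cases h1 : v ∈ S
      · rw [cS v h1]
        exact (Finset.mem_sdiff.1 (hc0L v h1)).1
      · by_cases h2 : p v = true
        · rw [cT v h1 h2]
          exact haL v
        · rw [cB v h1 h2]
          exact (Finset.mem_sdiff.1 (hb v hv h1).1).1
    · intro u hu v hv huv heq
      by_cases h1 : u ∈ S
      · by_cases h2 : v ∈ S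
        · rw [cS u h1, cS v h2] at heq
          exact hc0 u h1 v h2 huv heq
        · by_cases h3 : p v = true
          · have := cin v h2 h3
            rw [← heq] at this
            exact cout u hu (Or.inl h1) this
          · rw [cS u h1, cB v h2 h3] at heq
            exact (hb v hv h2).2 u h1 huv.symm heq
      · by_cases h2 : v ∈ S
        · by_cases h3 : p u = true
          · have := cin u h1 h3
            rw [heq] at this
            exact cout v hv (Or.inl h2) this
          · rw [cS v h2, cB u h1 h3] at heq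
            exact (hb u hu h1).2 v h2 huv heq.symm
        · have hpp := hp u hu h1 v hv h2 huv
          by_cases h3 : p u = true
          · by_cases h4 : p v = true
            · exact hpp (h3.trans h4.symm)
            · have := cin u h1 h3
              rw [heq] at this
              exact cout v hv (Or.inr h4) this
          · by_cases h4 : p v = true
            · have := cin v h2 h4
              rw [← heq] at this
              exact cout u hu (Or.inr h3) this
            · apply hpp
              rw [Bool.not_eq_true] at h3 h4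
              rw [h3, h4]

end Pool.Agent.Helper15.OC.B
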