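import Mathlib
import Pool.Agent.Helper79.OC.Tab

/-!
# The windows of a block and the weights of their corners

`V` is the set of facets of a cell (the nerve), `A.orth` the adjacency.  A window is a face of the
plane drawing of the nerve which is not a triangle; in a block every window is a simple cycle.
-/

set_option autoImplicit false

open Finset

namespace Pool.Agent.Helper56.OC

/-- a finite family of simple closed walks, as periodic sequences -/
structure Win (ι : Type) where
  /-- the windows -/
  W : Type
  fW : Fintype W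
  /-- lengths -/
  k : W → ℕ
  /-- the vertices of a window in cyclic order -/
  b : W → ℤ → ι
  k5 : ∀ F, 5 ≤ k F
  per : ∀ F i, b F (i + k F) = b F i
  inj : ∀ F i j, b F i = b F j → (k F : ℤ) ∣ i - j

namespace Win

variable {ι : Type} (Ω : Win ι)

instance : Fintype Ω.W := Ω.fW

noncomputable instance : DecidableEq Ω.W := Classical.decEq _

/-- the window `F` passes through the vertex `x` -/
def on (F : Ω.W) (x : ι) : Prop := ∃ i, Ω.b F i = x

/-- `x` and `y` are consecutive vertices of the window `F` (in one of the two orders) -/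
def sd (F : Ω.W) (x y : ι) : Prop :=
  ∃ i, (Ω.b F i = x ∧ Ω.b F (i + 1) = y) ∨ (Ω.b F i = y ∧ Ω.b F (i + 1) = x)

open Classical in
/-- the windows through `x` -/
noncomputable def ws (x : ι) : Finset Ω.W := univ.filter (fun F => Ω.on F x)

open Classical in
/-- the windows with the side `x y` -/
noncomputable def es (x y : ι) : Finset Ω.W := univ.filter (fun F => Ω.sd F x y)

open Classical in
/-- the vertices of the window `F` -/
noncomputable def vs (F : Ω.W) : Finset ι := (range (Ω.k F)).image (fun i : ℕ => Ω.b F i)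

/-- `c` is the window `F`, rotated and possibly reflected -/
def View (F : Ω.W) (c : ℤ → ι) : Prop :=
  ∃ s : ℤ, (∀ i, c i = Ω.b F (s + i)) ∨ (∀ i, c i = Ω.b F (s - i))

open Classical in
/-- number of sides of `F` with both ends in `T` -/
noncomputable def eT (T : Finset ι) (F : Ω.W) : ℕ :=
  ((range (Ω.k F)).filter (fun i : ℕ => Ω.b F i ∈ T ∧ Ω.b F ((i : ℤ) + 1) ∈ T)).card

end Win

/-- A block with its windows.  All windows have at least five sides. -/
structure Blk {ι : Type} [DecidableEq ι] (A : PArr ι) (V : Finset ι) extends Win ι where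
  noK4 : ∀ x y z u, x ∈ V → y ∈ V → z ∈ V → u ∈ V → A.orth x y → A.orth x z → A.orth x u →
    A.orth y z → A.orth y u → ¬ A.orth z u
  noC4 : ∀ x y z u, x ∈ V → y ∈ V → z ∈ V → u ∈ V → A.orth x y → A.orth y z → A.orth z u →
    A.orth u x → x ≠ z → y ≠ u → A.orth x z ∨ A.orth y u
  /-- no cut vertex -/
  blk : A.Block V
  mem : ∀ F i, b F i ∈ V
  adj : ∀ F i, A.orth (b F i) (b F (i + 1))
  /-- the number of windows at a vertex is the number of chains of its link -/
  count : ∀ x ∈ V, ((toWin.ws x).card : ℚ) = A.ch (A.lk V x)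
  /-- every edge has two sides, which are windows or triangles -/
  sides : ∀ x ∈ V, ∀ y ∈ V, A.orth x y → (toWin.es x y).card + (A.lk (A.lk V x) y).card = 2
  /-- the rotation at a vertex is one cycle -/
  rot : ∀ x ∈ V, ∀ R ⊆ A.lk V x, R.Nonempty → (∀ y ∈ R, ∀ z ∈ A.lk V x, A.orth y z → z ∈ R) →
    (∀ F i, b F i = x → (b F (i - 1) ∈ R ↔ b F (i + 1) ∈ R)) → R = A.lk V x
  /-- Euler's formula -/
  euler : (6 : ℤ) - V.card + ∑ F, (2 * (k F : ℤ) - 9) ≤ A.L V

namespace Blk

variable {ι : Type} [DecidableEq ι] {A : PArr ι} {V : Finset ι} (B : Blk A V)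

/-- the degree of `v` -/
noncomputable def G (_ : Blk A V) (v : ι) : ℕ := (A.lk V v).card

/-- the number of windows through `v` -/
noncomputable def a (v : ι) : ℕ := (B.ws v).card

/-- short facets: one chain with at most three elements -/
def Sh (v : ι) : Prop := B.a v = 1 ∧ B.G v ≤ 3

/-- strips: two thin chains -/
def St (v : ι) : Prop := B.a v = 2 ∧ B.G v = 2

/-- a thin chain and a chain of length two -/
def T12 (v : ι) : Prop := B.a v = 2 ∧ B.G v = 3

/-- one chain with four elements -/
def L4 (v : ι) : Prop := B.a v = 1 ∧ B.G v = 4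

/-- the number of marks of `v` -/
noncomputable def nu (_ : Blk A V) (T : Finset ι) (v : ι) : ℕ := (T ∩ A.lk V v).card

/-- a mark of `v` is the neighbour of `v` in the window `F` -/
def adjm (T : Finset ι) (F : B.W) (v : ι) : Prop := ∃ y ∈ T, B.sd F v y

/-- `v` has a thin mark -/
def thm (_ : Blk A V) (T : Finset ι) (v : ι) : Prop := ∃ m ∈ T ∩ A.lk V v, A.lk (A.lk V v) m = ∅

/-- `F` is a pentagon and a neighbour of `v` in `F` is short -/
def qq (F : B.W) (v : ι) : Prop := B.k F = 5 ∧ ∃ y, B.sd F v y ∧ B.Sh y

open Classical in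
/-- the windows through `v` with `qq` -/
noncomputable def Qs (v : ι) : Finset B.W := (B.ws v).filter (fun F => B.qq F v)

open Classical in
/-- the pentagons through `v` -/
noncomputable def P5 (v : ι) : Finset B.W := (B.ws v).filter (fun F => B.k F = 5)

open Classical in
/-- the pentagons through `v` in which the neighbours of `v` are short and the other two vertices
are near -/
noncomputable def Bn (T : Finset ι) (v : ι) : Finset B.W := (B.ws v).filter (fun F => B.k F = 5 ∧
  (∀ y, B.sd F v y → B.Sh y) ∧ ∀ y, B.on F y → y ≠ v → ¬ B.sd F v y → y ∈ T)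

open Classical in
/-- the weight of the corner `v` of the window `F` -/
noncomputable def w (T : Finset ι) (F : B.W) (v : ι) : ℚ :=
  if v ∉ T then
    if B.Sh v then (if B.nu T v = 2 then 1 else 0)
    else if B.nu T v = 2 then 3 / 2
    else if B.St v then
      (if B.nu T v = 1 then 1 else if (B.P5 v).card = 1 then (if B.k F = 5 then 1 else 0)
        else 1 / 2)
    else if B.T12 v ∧ (B.nu T v = 0 ∨ B.thm T v) then
      (if (B.Qs v).card = 1 then (if B.qq F v then 2 else 3 / 2) else 7 / 4)
    else if B.a v = 3 ∧ B.G v = 3 ∧ B.nu T v = 0 then 3 / 2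
    else if B.nu T v = 0 then
      (if T.card = 2 ∧ ¬ B.L4 v ∧ F ∈ B.Bn T v then 2 + 1 / ((B.Bn T v).card : ℚ) else 2)
    else if B.adjm T F v then 2
    else if B.L4 v then 1 else 3 / 2
  else
    if T.card = 1 then 0
    else if B.Sh v then (if B.nu T v = 2 then 1 else 2)
    else if B.nu T v = 2 then 1 / 2
    else if B.St v then 1
    else if B.T12 v ∧ B.thm T v then 1 / 4
    else if B.adjm T F v then 0
    else if B.L4 v then 1 else 1 / 2

/-- the total weight available at `v` -/
noncomputable def om (T : Finset ι) (v : ι) : ℚ :=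
  if v ∈ T then (B.a v : ℚ) + 1 - A.chn (A.lk V v) (T ∩ A.lk V v) -
    (if B.nu T v = 2 then 1 else 0)
  else A.chi (A.lk V v) (T ∩ A.lk V v) - 1 + B.a v + (if B.nu T v = 2 then 1 else 0)

/-- the sum of the weights of the corners of `F` -/
noncomputable def SF (T : Finset ι) (F : B.W) : ℚ := ∑ v ∈ B.vs F, B.w T F v

open Classical in
/-- the number of corners of `F` which are not short -/
noncomputable def ell (F : B.W) : ℕ := ((B.vs F).filter (fun v => ¬ B.Sh v)).card

/-- light corners: short facets and unmarked strips outside `T` -/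
def light (T : Finset ι) (v : ι) : Prop := v ∉ T ∧ (B.Sh v ∨ (B.St v ∧ B.nu T v = 0))

/-- a clique `T` in `V` -/
structure Clq (A : PArr ι) (V T : Finset ι) : Prop where
  sub : T ⊆ V
  ne : T.Nonempty
  clq : ∀ x ∈ T, ∀ y ∈ T, x ≠ y → A.orth x y

end Blk

end Pool.Agent.Helper56.OC
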