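import Mathlib
import Pool.Agent.Helper5.CR.M2

/-!
# Euler's inequality from potentials (linear algebra)

`D` darts, `σ` rotation, `α` involution.  If every integral cycle is the jump of a function which is
constant on the faces then the map has genus zero.
-/

set_option autoImplicit false

open Equiv Equiv.Perm Module Helper5.CR

namespace Pool.Agent.Helper15.OC

section LA
set_option linter.unusedSectionVars false

variable {D : Type} [Fintype D] [DecidableEq D]

/-- functions which are constant on the classes of a setoid -/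
def fixSub (r : Setoid D) : Submodule ℚ (D → ℚ) where
  carrier := {g | ∀ x y, r x y → g x = g y}
  add_mem' := by
    intro f g hf hg x y h
    rw [Pi.add_apply, Pi.add_apply, hf x y h, hg x y h]
  zero_mem' := fun _ _ _ => rfl
  smul_mem' := by
    intro c f hf x y h
    rw [Pi.smul_apply, Pi.smul_apply, hf x y h]

theorem finrank_fixSub (r : Setoid D) : finrank ℚ (fixSub r) = Nat.card (Quotient r) := by
  classical
  let e : fixSub r ≃ₗ[ℚ] (Quotient r → ℚ) :=
    { toFun := fun g q => Quotient.lift g.1 (fun x y h => g.2 x y h) q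
      map_add' := by
        intro f g
        funext q
        induction q using Quotient.inductionOn
        rfl
      map_smul' := by
        intro c f
        funext q
        induction q using Quotient.inductionOn
        rfl
      invFun := fun h => ⟨fun d => h (Quotient.mk r d), fun x y hxy =>
        congrArg h (Quotient.sound (s := r) hxy)⟩
      left_inv := fun g => rfl
      right_inv := by
        intro h
        funext q
        induction q using Quotient.inductionOn
        rfl }
  rw [e.finrank_eq, Module.finrank_fintype_fun_eq_card, Nat.card_eq_fintype_card]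

theorem fixSub_inf (r s : Setoid D) : fixSub r ⊓ fixSub s = fixSub (r ⊔ s) := by
  ext g
  constructor
  · rintro ⟨h1, h2⟩
    have h3 : r ⊔ s ≤ Setoid.ker g := sup_le (fun x y h => h1 x y h) (fun x y h => h2 x y h)
    exact fun x y h => h3 h
  · intro h
    exact ⟨fun x y hxy => h x y ((le_sup_left : r ≤ r ⊔ s) hxy),
      fun x y hxy => h x y ((le_sup_right : s ≤ r ⊔ s) hxy)⟩

theorem mem_fixSub_sameCycle (π : Perm D) (g : D → ℚ) :
    g ∈ fixSub (SameCycle.setoid π) ↔ ∀ d, g (π d) = g d := by
  constructor
  · intro h d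
    exact (h d (π d) ⟨1, by simp⟩).symm
  · rintro h x y ⟨n, rfl⟩
    have key : ∀ n : ℤ, g ((π ^ n) x) = g x := by
      intro n
      induction n using Int.induction_on with
      | zero => simp
      | succ n ih => rw [add_comm, zpow_add, zpow_one, Perm.mul_apply, h, ih]
      | pred n ih =>
        have h1 : g ((π ^ (-(n : ℤ))) x) = g ((π ^ (-(n : ℤ) - 1)) x) := by
          have h2 : (π ^ (-(n : ℤ))) x = π ((π ^ (-(n : ℤ) - 1)) x) := by
            rw [← Perm.mul_apply, ← zpow_one_add]
            congr 2
            ring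
          rw [h2, h]
        rw [← h1, ih]
    exact (key n).symm

theorem setoid_inv (π : Perm D) : SameCycle.setoid π⁻¹ = SameCycle.setoid π := by
  ext a b
  exact sameCycle_inv

/-- the standard pairing -/
noncomputable abbrev dotB : LinearMap.BilinForm ℚ (D → ℚ) := (1 : Matrix D D ℚ).toBilin'

theorem dotB_apply (f g : D → ℚ) : dotB f g = ∑ d, f d * g d := by
  simp [dotB, Matrix.toBilin'_apply', dotProduct]

theorem dotB_nondegenerate : (dotB (D := D)).Nondegenerate := by
  rw [dotB, LinearMap.BilinForm.nondegenerate_toBilin'_iff_det_ne_zero]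
  simp

theorem genus_zero (σ α : Perm D) (hα : ∀ d, α (α d) = d)
    (H : ∀ z : D → ℤ, (∀ d, z (α d) = - z d) →
      (∀ d, ∑ e ∈ Finset.univ.filter (fun e => σ.SameCycle d e), z e = 0) →
      ∃ g : D → ℝ, (∀ d, g (σ⁻¹ (α d)) = g d) ∧ ∀ d, g d - g (α d) = z d) :
    Nat.card D + 2 * ncomp σ α ≤ nc σ + nc α + nc (σ⁻¹ * α) := by
  classical
  set A := fixSub (SameCycle.setoid (σ⁻¹ * α)) with hA
  set W := fixSub (SameCycle.setoid α) ⊔ fixSub (SameCycle.setoid σ) with hW
  set Z := (dotB (D := D)).orthogonal W with hZ
  -- the dimension of the cycle space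
  have hdW : finrank ℚ W + ncomp σ α = nc α + nc σ := by
    have h1 := Submodule.finrank_sup_add_finrank_inf_eq (fixSub (SameCycle.setoid α))
      (fixSub (SameCycle.setoid σ))
    rw [fixSub_inf, finrank_fixSub, finrank_fixSub, finrank_fixSub] at h1
    have h2 : (SameCycle.setoid α ⊔ SameCycle.setoid σ) = comp σ α := by
      rw [sup_comm]; rfl
    rw [h2] at h1
    exact h1
  have hdZ : finrank ℚ Z + finrank ℚ W = Nat.card D := by
    have h1 := LinearMap.BilinForm.finrank_orthogonal (dotB_nondegenerate (D := D)) W
    have h2 : finrank ℚ W ≤ finrank ℚ (D → ℚ) := Submodule.finrank_le W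
    rw [Module.finrank_fintype_fun_eq_card] at h1 h2
    rw [Nat.card_eq_fintype_card, hZ, h1]
    omega
  -- properties of cycles
  have hz1 : ∀ z ∈ Z, ∀ d, z (α d) = - z d := by
    intro z hz d
    have h1 : (fun e => if e = d ∨ e = α d then (1 : ℚ) else 0) ∈ W := by
      refine Submodule.mem_sup_left ?_
      rw [mem_fixSub_sameCycle]
      intro e
      have h2 : (α e = d ∨ α e = α d) ↔ (e = d ∨ e = α d) := by
        constructor
        · rintro (h | h)
          · right; rw [← h, hα]
          · left; exact α.injective h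
        · rintro (h | h)
          · right; rw [h]
          · left; rw [h, hα]
      simp only [h2]
    have h3 := LinearMap.BilinForm.mem_orthogonal_iff.1 hz _ h1
    rw [dotB_apply] at h3
    by_cases hd : d = α d
    · have h4 : ∑ e, (if e = d ∨ e = α d then (1 : ℚ) else 0) * z e = z d := by
        rw [Finset.sum_eq_single d]
        · simp
        · intro b _ hb
          rw [if_neg (by rintro (h | h); exact hb h; exact hb (h.trans hd.symm)), zero_mul]
        · simp
      rw [h4] at h3
      rw [← hd, h3, neg_zero]
    · have h4 : ∑ e, (if e = d ∨ e = α d then (1 : ℚ) else 0) * z e = z d + z (α d) := by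
        rw [← Finset.sum_subset (Finset.subset_univ {d, α d})]
        · rw [Finset.sum_pair hd]
          simp
        · intro x _ hx
          rw [Finset.mem_insert, Finset.mem_singleton] at hx
          rw [if_neg hx, zero_mul]
      rw [h4] at h3
      linarith
  have hz2 : ∀ z ∈ Z, ∀ d, ∑ e ∈ Finset.univ.filter (fun e => σ.SameCycle d e), z e = 0 := by
    intro z hz d
    have h1 : (fun e => if σ.SameCycle d e then (1 : ℚ) else 0) ∈ W := by
      refine Submodule.mem_sup_right ?_
      rw [mem_fixSub_sameCycle]
      intro e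
      have h2 : σ.SameCycle d (σ e) ↔ σ.SameCycle d e := sameCycle_apply_right
      simp only [h2]
    have h3 := LinearMap.BilinForm.mem_orthogonal_iff.1 hz _ h1
    rw [dotB_apply] at h3
    rw [← h3, Finset.sum_filter]
    refine Finset.sum_congr rfl fun e _ => ?_
    split_ifs <;> simp
  -- a projection of the reals to the rationals
  obtain ⟨pr, hpr⟩ : ∃ pr : ℝ →ₗ[ℚ] ℚ, ∀ q : ℚ, pr (q : ℝ) = q := by
    have hinj : LinearMap.ker (Algebra.linearMap ℚ ℝ) = ⊥ :=
      LinearMap.ker_eq_bot.2 (algebraMap ℚ ℝ).injective
    obtain ⟨pr, hpr⟩ := LinearMap.exists_leftInverse_of_injective (Algebra.linearMap ℚ ℝ) hinj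
    refine ⟨pr, fun q => ?_⟩
    have := LinearMap.congr_fun hpr q
    exact this
  -- the jump map
  let δ : (D → ℚ) →ₗ[ℚ] (D → ℚ) :=
    { toFun := fun g d => g d - g (α d)
      map_add' := by intro f g; funext d; simp only [Pi.add_apply]; ring
      map_smul' := by intro c g; funext d; simp only [Pi.smul_apply, smul_eq_mul,
        RingHom.id_apply]; ring }
  have hsub : Z ≤ A.map δ := by
    intro z hz
    -- clear denominators
    obtain ⟨N, hN0, w, hw⟩ : ∃ N : ℕ, 0 < N ∧ ∃ w : D → ℤ, ∀ d, (w d : ℚ) = N * z d := by
      refine ⟨∏ d, (z d).den, Finset.prod_pos fun d _ => (z d).pos,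
        fun d => (∏ e ∈ Finset.univ.erase d, ((z e).den : ℤ)) * (z d).num, fun d => ?_⟩
      rw [← Finset.mul_prod_erase Finset.univ _ (Finset.mem_univ d)]
      push_cast
      have h1 := Rat.mul_den_eq_num (z d)
      rw [← h1]
      ring
    have hN : (N : ℚ) ≠ 0 := by exact_mod_cast hN0.ne'
    obtain ⟨g, hg1, hg2⟩ := H w (fun d => by
      have h1 := hw (α d)
      rw [hz1 z hz, mul_neg, ← hw d] at h1
      exact_mod_cast h1) (fun d => by
      have h1 := hz2 z hz d
      have h2 : ((∑ e ∈ Finset.univ.filter (fun e => σ.SameCycle d e), w e : ℤ) : ℚ) = 0 := by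
        push_cast
        rw [Finset.sum_congr rfl fun e _ => hw e, ← Finset.mul_sum, h1, mul_zero]
      exact_mod_cast h2)
    refine ⟨fun d => pr (g d) / N, ?_, ?_⟩
    · rw [SetLike.mem_coe, hA, mem_fixSub_sameCycle]
      intro d
      simp only [Perm.mul_apply, hg1]
    · funext d
      change pr (g d) / N - pr (g (α d)) / N = z d
      rw [← sub_div, ← map_sub, hg2]
      have h3 : ((w d : ℤ) : ℝ) = (((w d : ℤ) : ℚ) : ℝ) := by norm_cast
      rw [h3, hpr, hw d]
      field_simp
  -- the kernel
  have hker : A ⊓ LinearMap.ker δ = fixSub (comp σ α) := by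
    have h1 : LinearMap.ker δ = fixSub (SameCycle.setoid α) := by
      ext g
      rw [LinearMap.mem_ker, mem_fixSub_sameCycle]
      constructor
      · intro h d
        have := congrFun h d
        change g d - g (α d) = 0 at this
        linarith
      · intro h
        funext d
        change g d - g (α d) = 0
        rw [h d, sub_self]
    have h2 : (comp σ α : Setoid D) = SameCycle.setoid σ ⊔ SameCycle.setoid α := rfl
    rw [h1, h2, ← fixSub_inf]
    ext g
    simp only [Submodule.mem_inf, hA, mem_fixSub_sameCycle, Perm.mul_apply]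
    constructor
    · rintro ⟨h3, h4⟩
      refine ⟨fun d => ?_, h4⟩
      have h5 := h3 (α (σ d))
      have h6 : σ⁻¹ (σ d) = d := by simp
      rw [hα, h6, h4 (σ d)] at h5
      exact h5.symm
    · rintro ⟨h3, h4⟩
      refine ⟨fun d => ?_, h4⟩
      have h5 := h3 (σ⁻¹ (α d))
      have h6 : σ (σ⁻¹ (α d)) = α d := by simp
      rw [h6, h4] at h5
      exact h5.symm
  have hrn : finrank ℚ (A.map δ) + finrank ℚ (A ⊓ LinearMap.ker δ : Submodule ℚ (D → ℚ)) =
      finrank ℚ A := by
    have h1 := LinearMap.finrank_range_add_finrank_ker (δ.domRestrict A)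
    rw [LinearMap.range_domRestrict, LinearMap.ker_domRestrict] at h1
    have h2 : finrank ℚ (Submodule.comap A.subtype (LinearMap.ker δ)) =
        finrank ℚ (A ⊓ LinearMap.ker δ : Submodule ℚ (D → ℚ)) := by
      rw [← Submodule.map_comap_subtype]
      exact (Submodule.finrank_map_subtype_eq A _).symm
    rw [h2] at h1
    exact h1
  have h5 : finrank ℚ Z ≤ finrank ℚ (A.map δ) := Submodule.finrank_mono hsub
  rw [hker, finrank_fixSub] at hrn
  have h6 : finrank ℚ A = nc (σ⁻¹ * α) := finrank_fixSub _
  have h7 : Nat.card (Quotient (comp σ α)) = ncomp σ α := rfl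
  rw [h6, h7] at hrn
  omega

end LA

end Pool.Agent.Helper15.OC
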