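import Mathlib
import Pool.Agent.Helper15.OC.LA

/-!
# Euler's formula for straight-line drawings

The darts of a finite graph drawn in the plane with straight, non crossing edges, with the rotation
given by the angles, form a combinatorial map of genus zero.  No region and no Jordan curve is used:
the potential of a cycle is computed with angles.
-/

set_option autoImplicit false

open Equiv Equiv.Perm Helper5.CR Filter Topology
open scoped Real

namespace Pool.Agent.Helper15.OC

/-! ### Complex numbers -/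

theorem slit_of_notMem_segment {a b q : ℂ} (h : q ∉ segment ℝ a b) :
    (b - q) / (a - q) ∈ Complex.slitPlane := by
  have ha : a ≠ q := fun h1 => h (h1 ▸ left_mem_segment ℝ a b)
  have ha' : a - q ≠ 0 := sub_ne_zero.2 ha
  by_contra hs
  rw [Complex.mem_slitPlane_iff_not_le_zero, not_not] at hs
  obtain ⟨r, hr, hr2⟩ : ∃ r : ℝ, r ≤ 0 ∧ ((r : ℝ) : ℂ) = (b - q) / (a - q) := by
    refine ⟨((b - q) / (a - q)).re, ?_, ?_⟩
    · have := (Complex.le_def.1 hs).1
      simpa using this
    · have := (Complex.le_def.1 hs).2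
      apply Complex.ext
      · simp
      · rw [Complex.ofReal_im, this, Complex.zero_im]
  have h1 : b - q = r * (a - q) := by rw [hr2, div_mul_cancel₀ _ ha']
  apply h
  have h2 : (1 : ℝ) - r ≠ 0 := by linarith
  refine ⟨-r / (1 - r), 1 / (1 - r), ?_, ?_, ?_, ?_⟩
  · exact div_nonneg (by linarith) (by linarith)
  · exact div_nonneg (by linarith) (by linarith)
  · rw [← add_div]
    rw [show -r + 1 = 1 - r by ring]
    exact div_self h2
  · have h3 : (1 : ℂ) - r ≠ 0 := by exact_mod_cast h2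
    rw [Complex.real_smul, Complex.real_smul]
    push_cast
    have h4 : b = q + r * (a - q) := by rw [← h1]; ring
    rw [h4]
    field_simp
    ring

theorem arg_neg_eq_toIocMod {x : ℂ} (hx : -x ∈ Complex.slitPlane) :
    Complex.arg (-x) = toIocMod Real.two_pi_pos 0 (Complex.arg x) - π := by
  have hpi := Real.pi_pos
  have hx0 : x ≠ 0 := by
    rintro rfl
    rw [neg_zero] at hx
    exact Complex.zero_notMem_slitPlane hx
  have hne : Complex.arg x ≠ 0 := by
    intro h0
    rw [Complex.arg_eq_zero_iff] at h0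
    rw [Complex.mem_slitPlane_iff] at hx
    rcases hx with h | h
    · rw [Complex.neg_re] at h; linarith [h0.1]
    · rw [Complex.neg_im, h0.2, neg_zero] at h; exact h rfl
  have h1 := Complex.arg_mem_Ioc x
  have h2 := Complex.arg_mem_Ioc (-x)
  have h3 : ((Complex.arg (-x) : ℝ) : Real.Angle) = Complex.arg x + π :=
    Complex.arg_neg_coe_angle hx0
  rcases lt_or_gt_of_ne hne with h | h
  · -- negative
    have h4 : toIocMod Real.two_pi_pos 0 (Complex.arg x) = Complex.arg x + 2 * π := by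
      rw [toIocMod_eq_iff]
      refine ⟨⟨by linarith [h1.1], by linarith⟩, -1, ?_⟩
      simp
    rw [h4]
    have h5 : ((Complex.arg (-x) : ℝ) : Real.Angle) = ((Complex.arg x + π : ℝ) : Real.Angle) := by
      rw [h3]; simp
    rw [Real.Angle.angle_eq_iff_two_pi_dvd_sub] at h5
    obtain ⟨k, hk⟩ := h5
    have h6 : k = 0 := by
      have h7 : -(2 * π) < 2 * π * k := by rw [← hk]; linarith [h2.1]
      have h8 : 2 * π * k < 2 * π := by rw [← hk]; linarith [h2.2, h1.1]
      have h9 : (-1 : ℝ) < k := by nlinarith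
      have h10 : (k : ℝ) < 1 := by nlinarith
      have h11 : -1 < k := by exact_mod_cast h9
      have h12 : k < 1 := by exact_mod_cast h10
      omega
    rw [h6] at hk
    push_cast at hk
    linarith
  · have h4 : toIocMod Real.two_pi_pos 0 (Complex.arg x) = Complex.arg x := by
      rw [toIocMod_eq_iff]
      refine ⟨⟨h, by linarith [h1.2]⟩, 0, ?_⟩
      simp
    rw [h4]
    have h5 : ((Complex.arg (-x) : ℝ) : Real.Angle) = ((Complex.arg x - π : ℝ) : Real.Angle) := by
      rw [h3, Real.Angle.coe_sub, sub_eq_add_neg, Real.Angle.neg_coe_pi]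
    rw [Real.Angle.angle_eq_iff_two_pi_dvd_sub] at h5
    obtain ⟨k, hk⟩ := h5
    have h6 : k = 0 := by
      have h7 : -(2 * π) < 2 * π * k := by rw [← hk]; linarith [h2.1, h1.2]
      have h8 : 2 * π * k < 4 * π := by rw [← hk]; linarith [h2.2]
      have h9 : (-1 : ℝ) < k := by nlinarith
      have h10 : (k : ℝ) < 2 := by nlinarith
      have h11 : -1 < k := by exact_mod_cast h9
      have h12 : k < 2 := by exact_mod_cast h10
      have h13 : k = 0 ∨ k = 1 := by omega
      rcases h13 with h13 | h13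
      · exact h13
      · exfalso
        rw [h13] at hk
        push_cast at hk
        linarith [h2.2]
    rw [h6] at hk
    push_cast at hk
    linarith

/-- a continuous function on `(0, 1)` with values in `2 π ℤ` is constant -/
theorem const_of_int {f : ℝ → ℝ} (hf : ContinuousOn f (Set.Ioo 0 1))
    (hz : ∀ t ∈ Set.Ioo (0 : ℝ) 1, ∃ n : ℤ, f t = 2 * π * n) {s t : ℝ}
    (hs : s ∈ Set.Ioo (0 : ℝ) 1) (ht : t ∈ Set.Ioo (0 : ℝ) 1) : f s = f t := by
  by_contra hne
  wlog hlt : f s < f t generalizing s t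
  · exact this ht hs (Ne.symm hne) (lt_of_le_of_ne (not_lt.1 hlt) (Ne.symm hne))
  have hpi := Real.pi_pos
  obtain ⟨y, hy, hy1, hy2⟩ := exists_irrational_btwn
    (div_lt_div_of_pos_right hlt (show (0 : ℝ) < 2 * π by positivity))
  have h1 : 2 * π * y ∈ Set.Icc (f s) (f t) := by
    rw [div_lt_iff₀ (by positivity)] at hy1
    rw [lt_div_iff₀ (by positivity)] at hy2
    constructor <;> nlinarith
  have h2 := (isPreconnected_Ioo (a := (0 : ℝ)) (b := 1)).intermediate_value hs ht hf h1
  obtain ⟨x, hx, hx2⟩ := h2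
  obtain ⟨n, hn⟩ := hz x hx
  rw [hn] at hx2
  have h3 : y = n := by
    have : (2 * π : ℝ) ≠ 0 := by positivity
    exact (mul_left_cancel₀ this hx2).symm
  exact hy.ne_int n h3

/-! ### Drawings -/

/-- A straight-line drawing: `p d` is the position of the origin of the dart `d`. -/
structure Drw (D : Type) [Fintype D] [DecidableEq D] where
  /-- position of the origin -/
  p : D → ℂ
  /-- rotation -/
  σ : Perm D
  /-- reversal -/
  α : Perm D
  hα : ∀ d, α (α d) = d
  hp : ∀ d, p (σ d) = p d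
  hne : ∀ d, p (α d) ≠ p d
  hx : ∀ d e, e ≠ d → e ≠ α d → ∀ t : ℝ, 0 < t → t < 1 →
    p d + t * (p (α d) - p d) ∉ segment ℝ (p e) (p (α e))
  hσ : ∀ d e, p e = p d →
    toIocMod Real.two_pi_pos 0 (Complex.arg ((p (α (σ d)) - p d) / (p (α d) - p d))) ≤
      toIocMod Real.two_pi_pos 0 (Complex.arg ((p (α e) - p d) / (p (α d) - p d)))

namespace Drw

variable {D : Type} [Fintype D] [DecidableEq D] (G : Drw D)

/-- the vector of a dart -/
def w (d : D) : ℂ := G.p (G.α d) - G.p d

theorem w_ne (d : D) : G.w d ≠ 0 := sub_ne_zero.2 (G.hne d)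

theorem w_α (d : D) : G.w (G.α d) = - G.w d := by
  unfold w; rw [G.hα]; ring

theorem α_ne (d : D) : G.α d ≠ d := fun h => G.hne d (by rw [h])

/-- the angle from the dart `d` to the dart `e`, in `(0, 2 π]` -/
noncomputable def ψ (d e : D) : ℝ :=
  toIocMod Real.two_pi_pos 0 (Complex.arg (G.w e / G.w d))

theorem hσ' {d e : D} (h : G.p e = G.p d) : G.ψ d (G.σ d) ≤ G.ψ d e := by
  have h1 := G.hσ d e h
  unfold ψ w
  rw [h, G.hp d]
  exact h1

/-- a point of a dart -/
noncomputable def q (d : D) (t : ℝ) : ℂ := G.p d + t * G.w d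

theorem q_zero (d : D) : G.q d 0 = G.p d := by simp [q]

theorem q_α (d : D) (t : ℝ) : G.q (G.α d) t = G.q d (1 - t) := by
  unfold q
  rw [w_α]
  unfold w
  push_cast
  ring

theorem q_sub (d : D) (t : ℝ) : G.p d - G.q d t = -(t * G.w d) := by unfold q; ring

theorem q_sub' (d : D) (t : ℝ) : G.p (G.α d) - G.q d t = (1 - t) * G.w d := by
  unfold q w; ring

theorem hx' {d e : D} (h1 : e ≠ d) (h2 : e ≠ G.α d) {t : ℝ} (ht : t ∈ Set.Ioo (0 : ℝ) 1) :
    G.q d t ∉ segment ℝ (G.p e) (G.p (G.α e)) := G.hx d e h1 h2 t ht.1 ht.2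

theorem hx0 {d e : D} (h1 : G.p e ≠ G.p d) (h2 : G.p (G.α e) ≠ G.p d) :
    G.p d ∉ segment ℝ (G.p e) (G.p (G.α e)) := by
  intro hs
  have hed : d ≠ e := fun h => h1 (by rw [h])
  have hed' : d ≠ G.α e := fun h => h2 (by rw [← h])
  rw [segment_eq_image] at hs
  obtain ⟨t, ht, ht2⟩ := hs
  have ht0 : t ≠ 0 := by
    rintro rfl
    apply h1
    rw [← ht2]; simp
  have ht1 : t ≠ 1 := by
    rintro rfl
    apply h2
    rw [← ht2]; simp
  have h3 := G.hx' hed hed' (t := t) ⟨lt_of_le_of_ne ht.1 (Ne.symm ht0), lt_of_le_of_ne ht.2 ht1⟩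
  apply h3
  have h4 : G.q e t = G.p d := by
    rw [← ht2]
    unfold q w
    simp only [Complex.real_smul]
    push_cast
    ring
  rw [h4]
  exact left_mem_segment ℝ _ _

theorem slit_dir {d e : D} (hp : G.p e = G.p d) (hed : e ≠ d) :
    -(G.w e / G.w d) ∈ Complex.slitPlane := by
  by_contra hs
  have hw := G.w_ne d
  have hwe := G.w_ne e
  rw [Complex.mem_slitPlane_iff_not_le_zero, not_not] at hs
  obtain ⟨r, hr, hr2⟩ : ∃ r : ℝ, 0 ≤ r ∧ ((r : ℝ) : ℂ) = G.w e / G.w d := by
    refine ⟨(G.w e / G.w d).re, ?_, ?_⟩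
    · have := (Complex.le_def.1 hs).1
      simp only [Complex.neg_re, Complex.zero_re] at this
      linarith
    · have := (Complex.le_def.1 hs).2
      simp only [Complex.neg_im, Complex.zero_im, neg_eq_zero] at this
      apply Complex.ext
      · simp
      · rw [Complex.ofReal_im, this]
  have h1 : G.w e = r * G.w d := by rw [hr2, div_mul_cancel₀ _ hw]
  have hr0 : 0 < r := by
    rcases hr.lt_or_eq with h | h
    · exact h
    · exfalso
      apply hwe
      rw [h1, ← h]; simp
  have hed' : e ≠ G.α d := by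
    rintro rfl
    exact G.hne d hp
  set t : ℝ := min r 1 / 2 with ht
  have htpos : 0 < t := by
    have : 0 < min r 1 := lt_min hr0 one_pos
    rw [ht]; linarith
  have ht1 : t < 1 := by
    have : min r 1 ≤ 1 := min_le_right _ _
    rw [ht]; linarith
  have htr : t ≤ r := by
    have : min r 1 ≤ r := min_le_left _ _
    rw [ht]; linarith
  refine G.hx' hed hed' (t := t) ⟨htpos, ht1⟩ ?_
  rw [segment_eq_image]
  refine ⟨t / r, ⟨by positivity, (div_le_one hr0).2 htr⟩, ?_⟩
  have h2 : G.p (G.α e) = G.p d + r * G.w d := by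
    rw [← h1, ← hp]; unfold w; ring
  rw [h2, hp]
  unfold q
  simp only [Complex.real_smul]
  push_cast
  have hrc : (r : ℂ) ≠ 0 := by exact_mod_cast hr0.ne'
  field_simp
  ring

/-- the angle subtended at the point `q d t` -/
noncomputable def η (d e : D) (t : ℝ) : ℝ :=
  if e = d then π else if e = G.α d then -π else
    Complex.arg ((G.p (G.α e) - G.q d t) / (G.p e - G.q d t))

/-- its limit at `t = 0` -/
noncomputable def κ (d e : D) : ℝ :=
  if G.p e = G.p d then G.ψ d e - π else
    if G.p (G.α e) = G.p d then -(G.ψ d (G.α e) - π) else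
      Complex.arg ((G.p (G.α e) - G.p d) / (G.p e - G.p d))

theorem ψ_self (d : D) : G.ψ d d = 2 * π := by
  unfold ψ
  rw [div_self (G.w_ne d), Complex.arg_one]
  rw [toIocMod_eq_iff]
  refine ⟨⟨by positivity, by simp⟩, -1, ?_⟩
  simp

theorem κ_self (d : D) : G.κ d d = π := by
  unfold κ
  rw [if_pos rfl, ψ_self]; ring

theorem κ_α (d : D) : G.κ d (G.α d) = -π := by
  unfold κ
  rw [if_neg (G.hne d), G.hα, if_pos rfl, ψ_self]; ring

theorem η_α (d e : D) (t : ℝ) (h1 : e ≠ d) (h2 : e ≠ G.α d) :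
    G.η (G.α d) e t = G.η d e (1 - t) := by
  unfold η
  rw [if_neg h2, G.hα, if_neg h1, if_neg h1, if_neg h2, G.q_α]

variable {z : D → ℤ}

/-- the vertex condition -/
theorem sum_vertex (z : D → ℤ)
    (hz2 : ∀ d, ∑ e ∈ Finset.univ.filter (fun e => G.σ.SameCycle d e), z e = 0) (v : ℂ) :
    ∑ e ∈ Finset.univ.filter (fun e => G.p e = v), z e = 0 := by
  classical
  rw [Finset.sum_partition (SameCycle.setoid G.σ)]
  refine Finset.sum_eq_zero fun c hc => ?_
  obtain ⟨d, hd, rfl⟩ := Finset.mem_image.1 hc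
  rw [Finset.mem_filter] at hd
  rw [← hz2 d]
  refine Finset.sum_congr ?_ fun _ _ => rfl
  have hpp : ∀ e, G.σ.SameCycle d e → G.p e = G.p d := by
    rintro e ⟨n, rfl⟩
    induction n using Int.induction_on with
    | zero => simp
    | succ n ih => rw [add_comm, zpow_add, zpow_one, Perm.mul_apply, G.hp, ih]
    | pred n ih =>
      rw [← ih]
      have h2 : (G.σ ^ (-(n : ℤ))) d = G.σ ((G.σ ^ (-(n : ℤ) - 1)) d) := by
        rw [← Perm.mul_apply, ← zpow_one_add]
        congr 2
        ring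
      rw [h2, G.hp]
  ext e
  simp only [Finset.mem_filter, Finset.mem_univ, true_and]
  constructor
  · rintro ⟨-, h⟩
    exact (Quotient.exact h).symm
  · intro h
    exact ⟨(hpp e h).trans hd.2, Quotient.sound (s := SameCycle.setoid G.σ) h.symm⟩

/-- the potential of a cycle at the point `q d t` (on the left of the dart) -/
noncomputable def h (z : D → ℤ) (d : D) (t : ℝ) : ℝ := ∑ e, (z e : ℝ) * G.η d e t

theorem h_int (hz1 : ∀ d, z (G.α d) = - z d)
    (hz2 : ∀ d, ∑ e ∈ Finset.univ.filter (fun e => G.σ.SameCycle d e), z e = 0) (d : D)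
    (t : ℝ) (ht : t ∈ Set.Ioo (0 : ℝ) 1) : ∃ n : ℤ, G.h z d t = 2 * π * n := by
  classical
  -- the angle of a vertex, seen from the point
  let B : ℂ → Real.Angle := fun v => (Complex.arg (v - G.q d t) : Real.Angle)
  have hB : ∀ e, ((G.η d e t : ℝ) : Real.Angle) = B (G.p (G.α e)) - B (G.p e) := by
    intro e
    have hw := G.w_ne d
    have h0 : ∀ r : ℝ, 0 < r → Complex.arg ((r : ℂ) * G.w d) = Complex.arg (G.w d) :=
      fun r hr => Complex.arg_real_mul _ hr
    have h1 : B (G.p d) = Complex.arg (G.w d) + (π : Real.Angle) := by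
      change ((Complex.arg (G.p d - G.q d t) : ℝ) : Real.Angle) = _
      rw [G.q_sub, Complex.arg_neg_coe_angle, h0 t ht.1]
      exact mul_ne_zero (by exact_mod_cast ht.1.ne') hw
    have h2 : B (G.p (G.α d)) = Complex.arg (G.w d) := by
      change ((Complex.arg (G.p (G.α d) - G.q d t) : ℝ) : Real.Angle) = _
      rw [G.q_sub']
      have h3 := h0 (1 - t) (by linarith [ht.2])
      push_cast at h3
      rw [h3]
    unfold η
    split_ifs with h3 h4
    · rw [h3, h1, h2, sub_add_eq_sub_sub, sub_self, zero_sub, Real.Angle.neg_coe_pi]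
    · rw [h4, G.hα, h1, h2, add_sub_cancel_left, Real.Angle.coe_neg, Real.Angle.neg_coe_pi]
    · have h5 := G.hx' h3 h4 ht
      have h6 : G.p e - G.q d t ≠ 0 := fun h7 => h5 (by
        rw [← sub_eq_zero.1 h7]; exact left_mem_segment ℝ _ _)
      have h7 : G.p (G.α e) - G.q d t ≠ 0 := fun h7 => h5 (by
        rw [← sub_eq_zero.1 h7]; exact right_mem_segment ℝ _ _)
      rw [Complex.arg_div_coe_angle h7 h6]
  have hsum : ((G.h z d t : ℝ) : Real.Angle) = 0 := by
    have h1 : ((G.h z d t : ℝ) : Real.Angle) =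
        ∑ e, z e • (B (G.p (G.α e)) - B (G.p e)) := by
      unfold h
      have h2 : ((∑ e, (z e : ℝ) * G.η d e t : ℝ) : Real.Angle) =
          ∑ e, (((z e : ℝ) * G.η d e t : ℝ) : Real.Angle) :=
        map_sum Real.Angle.coeHom _ _
      rw [h2]
      refine Finset.sum_congr rfl fun e _ => ?_
      rw [Real.Angle.intCast_mul_eq_zsmul, hB]
    rw [h1]
    have h2 : ∑ e, z e • B (G.p e) = 0 := by
      rw [← Finset.sum_fiberwise_of_maps_to (s := Finset.univ) (t := Finset.univ.image G.p)
        (g := G.p) (fun e _ => Finset.mem_image_of_mem _ (Finset.mem_univ e))]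
      refine Finset.sum_eq_zero fun v _ => ?_
      have h3 : ∑ e ∈ Finset.univ.filter (fun e => G.p e = v), z e • B (G.p e) =
          (∑ e ∈ Finset.univ.filter (fun e => G.p e = v), z e) • B v := by
        rw [Finset.sum_smul]
        refine Finset.sum_congr rfl fun e he => ?_
        rw [(Finset.mem_filter.1 he).2]
      rw [h3, G.sum_vertex z hz2, zero_smul]
    have h3 : ∑ e, z e • B (G.p (G.α e)) = 0 := by
      rw [← Equiv.sum_comp G.α]
      simp only [G.hα, hz1, neg_smul, Finset.sum_neg_distrib, h2, neg_zero]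
    simp only [smul_sub, Finset.sum_sub_distrib, h2, h3, sub_zero]
  obtain ⟨n, hn⟩ := Real.Angle.coe_eq_zero_iff.1 hsum
  exact ⟨n, by rw [← hn, zsmul_eq_mul]; ring⟩

theorem h_cont (d : D) : ContinuousOn (G.h z d) (Set.Ioo 0 1) := by
  have hq : Continuous (G.q d) := by unfold q; fun_prop
  unfold h
  refine continuousOn_finsetSum _ fun e _ => ?_
  refine ContinuousOn.mul continuousOn_const ?_
  unfold η
  split_ifs with h1 h2
  · exact continuousOn_const
  · exact continuousOn_const
  · intro t ht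
    have h3 := G.hx' h1 h2 ht
    have h6 : G.p e - G.q d t ≠ 0 := fun h7 => h3 (by
        rw [← sub_eq_zero.1 h7]; exact left_mem_segment ℝ _ _)
    refine ContinuousAt.continuousWithinAt ?_
    refine ContinuousAt.comp (f := fun t => (G.p (G.α e) - G.q d t) / (G.p e - G.q d t))
      (Complex.continuousAt_arg (slit_of_notMem_segment h3)) ?_
    exact ContinuousAt.div (by fun_prop) (by fun_prop) h6

theorem η_lim (d e : D) : Tendsto (G.η d e) (𝓝[>] 0) (𝓝 (G.κ d e)) := by
  have hq : Continuous (G.q d) := by unfold q; fun_prop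
  by_cases h1 : e = d
  · subst h1
    rw [κ_self]
    refine tendsto_const_nhds.congr fun t => ?_
    unfold η
    rw [if_pos rfl]
  by_cases h2 : e = G.α d
  · subst h2
    rw [κ_α]
    refine tendsto_const_nhds.congr fun t => ?_
    unfold η
    rw [if_neg h1, if_pos rfl]
  have hη : ∀ t, G.η d e t = Complex.arg ((G.p (G.α e) - G.q d t) / (G.p e - G.q d t)) := by
    intro t
    unfold η
    rw [if_neg h1, if_neg h2]
  -- the key limit
  have key : ∀ e', e' ≠ d → G.p e' = G.p d → Tendsto (fun t : ℝ =>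
      Complex.arg ((G.p (G.α e') - G.q d t) / (G.p e' - G.q d t))) (𝓝[>] 0)
      (𝓝 (G.ψ d e' - π)) := by
    intro e' he' hp
    have h3 := G.slit_dir hp he'
    rw [ψ, ← arg_neg_eq_toIocMod h3]
    have h4 : Tendsto (fun t : ℝ => Complex.arg ((t : ℂ) + -(G.w e' / G.w d))) (𝓝[>] 0)
        (𝓝 (Complex.arg (-(G.w e' / G.w d)))) := by
      have h5 : Tendsto (fun t : ℝ => (t : ℂ) + -(G.w e' / G.w d)) (𝓝[>] 0)
          (𝓝 (-(G.w e' / G.w d))) := by
        have h6 : Continuous (fun t : ℝ => (t : ℂ) + -(G.w e' / G.w d)) := by fun_prop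
        have h7 := (h6.tendsto 0).mono_left (nhdsWithin_le_nhds (s := Set.Ioi 0))
        simpa using h7
      exact (Complex.continuousAt_arg h3).tendsto.comp h5
    refine h4.congr' ?_
    filter_upwards [self_mem_nhdsWithin] with t ht
    have ht' : (0 : ℝ) < t := ht
    have htc : (t : ℂ) ≠ 0 := by exact_mod_cast ht'.ne'
    have hw := G.w_ne d
    have h5 : (G.p (G.α e') - G.q d t) / (G.p e' - G.q d t) =
        ((1 / t : ℝ) : ℂ) * ((t : ℂ) + -(G.w e' / G.w d)) := by
      rw [hp, G.q_sub]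
      have h6 : G.p (G.α e') - G.q d t = G.w e' - t * G.w d := by
        unfold q w; rw [hp]; ring
      rw [h6]
      push_cast
      field_simp
      ring
    rw [h5, Complex.arg_real_mul _ (by positivity)]
  unfold κ
  split_ifs with h3 h4
  · exact (key e h1 h3).congr fun t => (hη t).symm
  · have h5 : G.α e ≠ d := fun h => h2 (by rw [← h, G.hα])
    have h6 := key (G.α e) h5 h4
    refine h6.neg.congr' ?_
    have hmem : Set.Ioo (0 : ℝ) 1 ∈ 𝓝[>] (0 : ℝ) := Ioo_mem_nhdsGT one_pos
    filter_upwards [hmem] with t ht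
    rw [hη, G.hα, ← inv_div, Complex.arg_inv]
    have h7 := G.hx' h1 h2 ht
    have h8 := (Complex.mem_slitPlane_iff_arg.1 (slit_of_notMem_segment h7)).1
    rw [if_neg h8, neg_neg]
  · refine Tendsto.congr (fun t => (hη t).symm) ?_
    have h5 := G.hx0 h3 h4
    have h6 : Tendsto (fun t : ℝ => (G.p (G.α e) - G.q d t) / (G.p e - G.q d t)) (𝓝[>] 0)
        (𝓝 ((G.p (G.α e) - G.p d) / (G.p e - G.p d))) := by
      have h7 : ContinuousAt (fun t : ℝ => (G.p (G.α e) - G.q d t) / (G.p e - G.q d t)) 0 := by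
        refine ContinuousAt.div (by fun_prop) (by fun_prop) ?_
        rw [q_zero]
        exact sub_ne_zero.2 h3
      have h8 := h7.tendsto.mono_left (nhdsWithin_le_nhds (s := Set.Ioi 0))
      simpa only [q_zero] using h8
    exact (Complex.continuousAt_arg (slit_of_notMem_segment h5)).tendsto.comp h6

/-- the potential at the origin of a dart -/
noncomputable def S (z : D → ℤ) (d : D) : ℝ := ∑ e, (z e : ℝ) * G.κ d e

theorem h_lim (z : D → ℤ) (d : D) : Tendsto (G.h z d) (𝓝[>] 0) (𝓝 (G.S z d)) := by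
  unfold h S
  exact tendsto_finsetSum _ fun e _ => (G.η_lim d e).const_mul _

theorem h_eq_S (hz1 : ∀ d, z (G.α d) = - z d)
    (hz2 : ∀ d, ∑ e ∈ Finset.univ.filter (fun e => G.σ.SameCycle d e), z e = 0) (d : D)
    {t : ℝ} (ht : t ∈ Set.Ioo (0 : ℝ) 1) : G.h z d t = G.S z d := by
  have h1 : Tendsto (G.h z d) (𝓝[>] 0) (𝓝 (G.h z d t)) := by
    refine tendsto_const_nhds.congr' ?_
    filter_upwards [Ioo_mem_nhdsGT (one_pos (α := ℝ))] with s hs
    exact const_of_int (G.h_cont d) (G.h_int hz1 hz2 d) ht hs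
  exact tendsto_nhds_unique h1 (G.h_lim z d)

theorem S_edge (hz1 : ∀ d, z (G.α d) = - z d)
    (hz2 : ∀ d, ∑ e ∈ Finset.univ.filter (fun e => G.σ.SameCycle d e), z e = 0) (d : D) :
    G.S z d = G.S z (G.α d) + 4 * π * z d := by
  have hh : (1 / 2 : ℝ) ∈ Set.Ioo (0 : ℝ) 1 := by constructor <;> norm_num
  rw [← G.h_eq_S hz1 hz2 d hh, ← G.h_eq_S hz1 hz2 (G.α d) hh]
  have h1 : ∀ e, (z e : ℝ) * G.η d e (1 / 2) = (z e : ℝ) * G.η (G.α d) e (1 / 2) +
      (if e = d then 2 * π * z d else 0) + (if e = G.α d then 2 * π * z d else 0) := by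
    intro e
    by_cases h2 : e = d
    · subst h2
      rw [if_pos rfl, if_neg (G.α_ne e).symm]
      unfold η
      rw [if_pos rfl, if_neg (G.α_ne e).symm, G.hα, if_pos rfl]
      ring
    by_cases h3 : e = G.α d
    · subst h3
      rw [if_neg h2, if_pos rfl]
      unfold η
      rw [if_neg h2, if_pos rfl, if_pos rfl, hz1]
      push_cast
      ring
    rw [if_neg h2, if_neg h3, G.η_α d e _ h2 h3]
    norm_num
  unfold h
  rw [Finset.sum_congr rfl fun e _ => h1 e, Finset.sum_add_distrib, Finset.sum_add_distrib,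
    Finset.sum_ite_eq' Finset.univ d, Finset.sum_ite_eq' Finset.univ (G.α d)]
  simp only [Finset.mem_univ, if_true]
  ring

/-- angles add up -/
theorem ψ_add {d e : D} (h : G.p e = G.p d) :
    G.ψ d e = G.ψ d (G.σ d) + G.ψ (G.σ d) e - (if e = G.σ d then 2 * π else 0) := by
  have hpi := Real.pi_pos
  split_ifs with h1
  · rw [h1, ψ_self]; ring
  rw [sub_zero]
  have hle := G.hσ' h
  have hα0 : 0 < G.ψ d (G.σ d) := (toIocMod_mem_Ioc _ _ _).1
  have hm1 : G.ψ d e ∈ Set.Ioc 0 (0 + 2 * π) := toIocMod_mem_Ioc _ _ _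
  have hm2 : G.ψ (G.σ d) e ∈ Set.Ioc 0 (0 + 2 * π) := toIocMod_mem_Ioc _ _ _
  rw [zero_add] at hm1 hm2
  -- congruences
  have hcoe : ∀ a b : D, ((G.ψ a b : ℝ) : Real.Angle) =
      (Complex.arg (G.w b) : Real.Angle) - Complex.arg (G.w a) := by
    intro a b
    rw [← Complex.arg_div_coe_angle (G.w_ne b) (G.w_ne a)]
    unfold ψ
    rw [Real.Angle.angle_eq_iff_two_pi_dvd_sub]
    refine ⟨-toIocDiv Real.two_pi_pos 0 (Complex.arg (G.w b / G.w a)), ?_⟩
    rw [toIocMod]
    rw [zsmul_eq_mul]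
    push_cast
    ring
  have h2 : ((G.ψ d e - G.ψ d (G.σ d) : ℝ) : Real.Angle) = ((G.ψ (G.σ d) e : ℝ) : Real.Angle) := by
    rw [Real.Angle.coe_sub, hcoe, hcoe, hcoe]
    abel
  rw [Real.Angle.angle_eq_iff_two_pi_dvd_sub] at h2
  obtain ⟨k, hk⟩ := h2
  -- `k = 0` or the two darts have the same direction
  have h3 : (k : ℝ) < 1 := by
    have : 2 * π * k < 2 * π * 1 := by rw [← hk]; linarith [hm1.2, hm2.1]
    exact lt_of_mul_lt_mul_left this (by positivity)
  have h4 : (-1 : ℝ) ≤ k := by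
    have : 2 * π * (-1) ≤ 2 * π * k := by rw [← hk]; linarith [hm2.2]
    exact le_of_mul_le_mul_left this (by positivity)
  have h5 : k < 1 := by exact_mod_cast h3
  have h6 : -1 ≤ k := by exact_mod_cast h4
  have h7 : k = 0 ∨ k = -1 := by omega
  rcases h7 with rfl | rfl
  · push_cast at hk
    linarith
  · exfalso
    push_cast at hk
    have h8 : G.ψ (G.σ d) e = 2 * π := by linarith [hm2.2]
    have hpe : G.p e = G.p (G.σ d) := by rw [h, G.hp]
    have h9 := G.slit_dir hpe h1
    have h10 := arg_neg_eq_toIocMod h9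
    change Complex.arg (-(G.w e / G.w (G.σ d))) = G.ψ (G.σ d) e - π at h10
    rw [h8] at h10
    have h11 := (Complex.mem_slitPlane_iff_arg.1 h9).1
    apply h11
    rw [h10]; ring

theorem S_corner (hz1 : ∀ d, z (G.α d) = - z d)
    (hz2 : ∀ d, ∑ e ∈ Finset.univ.filter (fun e => G.σ.SameCycle d e), z e = 0) (d : D) :
    G.S z d = G.S z (G.σ d) - 4 * π * z (G.σ d) := by
  classical
  -- the sum over the darts of a vertex
  have hv := G.sum_vertex z hz2 (G.p d)
  have hv' : ∑ e ∈ Finset.univ.filter (fun e => G.p e = G.p d), (z e : ℝ) = 0 := by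
    exact_mod_cast hv
  -- decomposition of `S`
  have hS : ∀ d', G.p d' = G.p d → G.S z d' =
      2 * ∑ e ∈ Finset.univ.filter (fun e => G.p e = G.p d), (z e : ℝ) * G.ψ d' e +
      ∑ e ∈ Finset.univ.filter (fun e => ¬ G.p e = G.p d ∧ ¬ G.p (G.α e) = G.p d), (z e : ℝ) *
        Complex.arg ((G.p (G.α e) - G.p d) / (G.p e - G.p d)) := by
    intro d' hd'
    have h1 : G.S z d' = ∑ e ∈ Finset.univ.filter (fun e => G.p e = G.p d), (z e : ℝ) * G.κ d' e +
        (∑ e ∈ Finset.univ.filter (fun e => G.p (G.α e) = G.p d), (z e : ℝ) * G.κ d' e +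
        ∑ e ∈ Finset.univ.filter (fun e => ¬ G.p e = G.p d ∧ ¬ G.p (G.α e) = G.p d),
          (z e : ℝ) * G.κ d' e) := by
      unfold S
      rw [← Finset.sum_filter_add_sum_filter_not Finset.univ (fun e => G.p e = G.p d)]
      congr 1
      rw [← Finset.sum_filter_add_sum_filter_not (Finset.univ.filter fun e => ¬ G.p e = G.p d)
        (fun e => G.p (G.α e) = G.p d)]
      rw [Finset.filter_filter, Finset.filter_filter]
      congr 1
      refine Finset.sum_congr ?_ fun _ _ => rfl
      ext e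
      simp only [Finset.mem_filter, Finset.mem_univ, true_and]
      constructor
      · exact fun h => h.2
      · intro h
        refine ⟨fun h2 => ?_, h⟩
        exact G.hne e (h.trans h2.symm)
    have h2 : ∑ e ∈ Finset.univ.filter (fun e => G.p e = G.p d), (z e : ℝ) * G.κ d' e =
        ∑ e ∈ Finset.univ.filter (fun e => G.p e = G.p d), (z e : ℝ) * G.ψ d' e := by
      have h3 : ∑ e ∈ Finset.univ.filter (fun e => G.p e = G.p d), (z e : ℝ) * G.κ d' e =
          ∑ e ∈ Finset.univ.filter (fun e => G.p e = G.p d),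
            ((z e : ℝ) * G.ψ d' e - (z e : ℝ) * π) := by
        refine Finset.sum_congr rfl fun e he => ?_
        have h4 := (Finset.mem_filter.1 he).2
        unfold κ
        rw [if_pos (by rw [h4, hd'])]
        ring
      rw [h3, Finset.sum_sub_distrib, ← Finset.sum_mul, hv', zero_mul, sub_zero]
    have h3 : ∑ e ∈ Finset.univ.filter (fun e => G.p (G.α e) = G.p d), (z e : ℝ) * G.κ d' e =
        ∑ e ∈ Finset.univ.filter (fun e => G.p e = G.p d), (z e : ℝ) * G.ψ d' e := by
      rw [← h2]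
      refine Finset.sum_bij (fun e _ => G.α e) ?_ ?_ ?_ ?_
      · intro e he
        rw [Finset.mem_filter] at he ⊢
        exact ⟨Finset.mem_univ _, he.2⟩
      · intro a _ b _ hab
        exact G.α.injective hab
      · intro e he
        refine ⟨G.α e, ?_, G.hα e⟩
        rw [Finset.mem_filter] at he ⊢
        refine ⟨Finset.mem_univ _, ?_⟩
        rw [G.hα]; exact he.2
      · intro e he
        have h4 := (Finset.mem_filter.1 he).2
        have h5 : ¬ G.p e = G.p d' := fun h6 => G.hne e (by rw [h4, h6, hd'])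
        have h6 : G.p (G.α e) = G.p d' := by rw [h4, hd']
        unfold κ
        rw [if_neg h5, if_pos h6, if_pos h6, hz1]
        push_cast
        ring
    have h4 : ∑ e ∈ Finset.univ.filter (fun e => ¬ G.p e = G.p d ∧ ¬ G.p (G.α e) = G.p d),
          (z e : ℝ) * G.κ d' e =
        ∑ e ∈ Finset.univ.filter (fun e => ¬ G.p e = G.p d ∧ ¬ G.p (G.α e) = G.p d), (z e : ℝ) *
        Complex.arg ((G.p (G.α e) - G.p d) / (G.p e - G.p d)) := by
      refine Finset.sum_congr rfl fun e he => ?_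
      have h5 := (Finset.mem_filter.1 he).2
      unfold κ
      rw [hd', if_neg h5.1, if_neg h5.2]
    rw [h1, h2, h3, h4]
    ring
  rw [hS d rfl, hS (G.σ d) (G.hp d)]
  have h1 : ∑ e ∈ Finset.univ.filter (fun e => G.p e = G.p d), (z e : ℝ) * G.ψ d e =
      ∑ e ∈ Finset.univ.filter (fun e => G.p e = G.p d), (z e : ℝ) * G.ψ (G.σ d) e -
        2 * π * z (G.σ d) := by
    have h2 : ∀ e ∈ Finset.univ.filter (fun e => G.p e = G.p d), (z e : ℝ) * G.ψ d e =
        (z e : ℝ) * G.ψ (G.σ d) e + (z e : ℝ) * G.ψ d (G.σ d) -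
          (if e = G.σ d then 2 * π * z (G.σ d) else 0) := by
      intro e he
      have h3 := (Finset.mem_filter.1 he).2
      rw [G.ψ_add h3]
      split_ifs with h4
      · rw [h4]; ring
      · ring
    rw [Finset.sum_congr rfl h2, Finset.sum_sub_distrib, Finset.sum_add_distrib,
      ← Finset.sum_mul, hv', zero_mul, add_zero, Finset.sum_ite_eq']
    rw [if_pos (by rw [Finset.mem_filter]; exact ⟨Finset.mem_univ _, G.hp d⟩)]
  rw [h1]
  ring

/-- **Jordan's theorem** for straight-line drawings: every integral cycle is a boundary. -/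
theorem cyc (z : D → ℤ) (hz1 : ∀ d, z (G.α d) = - z d)
    (hz2 : ∀ d, ∑ e ∈ Finset.univ.filter (fun e => G.σ.SameCycle d e), z e = 0) :
    ∃ g : D → ℝ, (∀ d, g (G.σ⁻¹ (G.α d)) = g d) ∧ ∀ d, g d - g (G.α d) = z d := by
  have hpi : (4 * π : ℝ) ≠ 0 := by positivity
  refine ⟨fun d => G.S z d / (4 * π), fun d => ?_, fun d => ?_⟩
  · have h1 := G.S_corner hz1 hz2 (G.σ⁻¹ (G.α d))
    have h2 : G.σ (G.σ⁻¹ (G.α d)) = G.α d := by simp
    rw [h2, hz1] at h1
    have h3 := G.S_edge hz1 hz2 d
    have h4 : G.S z (G.σ⁻¹ (G.α d)) = G.S z d := by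
      rw [h1, h3]
      push_cast
      ring
    simp only [h4]
  · have h3 := G.S_edge hz1 hz2 d
    simp only
    rw [h3]
    field_simp
    ring

/-- **Euler's formula** for straight-line drawings. -/
theorem euler : Nat.card D + 2 * ncomp G.σ G.α ≤ nc G.σ + nc G.α + nc (G.σ⁻¹ * G.α) := by
  refine genus_zero G.σ G.α G.hα fun z hz1 hz2 => ?_
  have hpi : (4 * π : ℝ) ≠ 0 := by positivity
  refine ⟨fun d => G.S z d / (4 * π), fun d => ?_, fun d => ?_⟩
  · have h1 := G.S_corner hz1 hz2 (G.σ⁻¹ (G.α d))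
    have h2 : G.σ (G.σ⁻¹ (G.α d)) = G.α d := by simp
    rw [h2, hz1] at h1
    have h3 := G.S_edge hz1 hz2 d
    have h4 : G.S z (G.σ⁻¹ (G.α d)) = G.S z d := by
      rw [h1, h3]
      push_cast
      ring
    simp only [h4]
  · have h3 := G.S_edge hz1 hz2 d
    simp only
    rw [h3]
    field_simp
    ring

end Drw

end Pool.Agent.Helper15.OC
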