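import Mathlib
import Pool.Agent.Helper15.OC.Geo

/-!
# Rotations

Existence of the rotation given by the angles, and transitivity at every vertex.
-/

set_option autoImplicit false

open Equiv Equiv.Perm Helper5.CR Filter Topology
open scoped Real

namespace Pool.Agent.Helper15.OC

/-- the counterclockwise angle from `a` to `b`, in `(0, 2 π]` -/
noncomputable def ccw (a b : ℂ) : ℝ := toIocMod Real.two_pi_pos 0 (Complex.arg (b / a))

theorem ccw_pos (a b : ℂ) : 0 < ccw a b := (toIocMod_mem_Ioc _ _ _).1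

theorem ccw_le (a b : ℂ) : ccw a b ≤ 2 * π := by
  have := (toIocMod_mem_Ioc Real.two_pi_pos 0 (Complex.arg (b / a))).2
  rwa [zero_add] at this

theorem ccw_coe {a b : ℂ} (ha : a ≠ 0) (hb : b ≠ 0) : ((ccw a b : ℝ) : Real.Angle) =
    (Complex.arg b : Real.Angle) - Complex.arg a := by
  rw [← Complex.arg_div_coe_angle hb ha]
  unfold ccw
  rw [Real.Angle.angle_eq_iff_two_pi_dvd_sub]
  refine ⟨-toIocDiv Real.two_pi_pos 0 (Complex.arg (b / a)), ?_⟩
  rw [toIocMod, zsmul_eq_mul]
  push_cast
  ring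

/-- two angles in `(0, 2 π]` which are congruent are equal -/
theorem eq_of_coe_eq {s t : ℝ} (hs : 0 < s) (hs' : s ≤ 2 * π) (ht : 0 < t) (ht' : t ≤ 2 * π)
    (h : (s : Real.Angle) = t) : s = t := by
  have hpi := Real.pi_pos
  rw [Real.Angle.angle_eq_iff_two_pi_dvd_sub] at h
  obtain ⟨k, hk⟩ := h
  have h3 : (k : ℝ) < 1 := by
    have : 2 * π * k < 2 * π * 1 := by rw [← hk]; linarith
    exact lt_of_mul_lt_mul_left this (by positivity)
  have h4 : (-1 : ℝ) < k := by
    have : 2 * π * (-1) < 2 * π * k := by rw [← hk]; linarith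
    exact lt_of_mul_lt_mul_left this (by positivity)
  have h5 : k < 1 := by exact_mod_cast h3
  have h6 : -1 < k := by exact_mod_cast h4
  have h7 : k = 0 := by omega
  rw [h7] at hk
  push_cast at hk
  linarith

theorem ccw_eq_two_pi {a b : ℂ} (_ha : a ≠ 0) (h : ccw a b = 2 * π) :
    ¬ -(b / a) ∈ Complex.slitPlane := by
  intro h1
  have h2 := arg_neg_eq_toIocMod h1
  change Complex.arg (-(b / a)) = ccw a b - π at h2
  rw [h] at h2
  exact (Complex.mem_slitPlane_iff_arg.1 h1).1 (by rw [h2]; ring)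

theorem ccw_self {a : ℂ} (ha : a ≠ 0) : ccw a a = 2 * π := by
  unfold ccw
  rw [div_self ha, Complex.arg_one, toIocMod_eq_iff]
  refine ⟨⟨by positivity, by simp⟩, -1, ?_⟩
  simp

/-- if `f` comes first after `d`, angles add up -/
theorem ccw_add {d f e : ℂ} (hd : d ≠ 0) (hf : f ≠ 0) (he : e ≠ 0)
    (hfe : -(e / f) ∈ Complex.slitPlane) (hle : ccw d f ≤ ccw d e) :
    ccw d e = ccw d f + ccw f e := by
  have hpi := Real.pi_pos
  have h0 := ccw_pos d f
  have h1 := ccw_le d e
  have h2 : ((ccw d e - ccw d f : ℝ) : Real.Angle) = ((ccw f e : ℝ) : Real.Angle) := by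
    rw [Real.Angle.coe_sub, ccw_coe hd he, ccw_coe hd hf, ccw_coe hf he]
    abel
  rcases hle.lt_or_eq with h | h
  · have := eq_of_coe_eq (by linarith) (by linarith) (ccw_pos f e) (ccw_le f e) h2
    linarith
  · exfalso
    rw [h, sub_self] at h2
    have h3 : ((2 * π : ℝ) : Real.Angle) = ((ccw f e : ℝ) : Real.Angle) := by
      rw [← h2, Real.Angle.coe_two_pi]; simp
    have h4 := eq_of_coe_eq (by linarith) le_rfl (ccw_pos f e) (ccw_le f e) h3
    exact ccw_eq_two_pi hf h4.symm hfe

section exist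
set_option linter.unusedSectionVars false

variable {D : Type} [Fintype D] [DecidableEq D] (p : D → ℂ) (α : Perm D)

theorem dir_of_nocross (hne : ∀ d, p (α d) ≠ p d)
    (hx : ∀ d e, e ≠ d → e ≠ α d → ∀ t : ℝ, 0 < t → t < 1 →
      p d + t * (p (α d) - p d) ∉ segment ℝ (p e) (p (α e)))
    {d e : D} (hp : p e = p d) (hed : e ≠ d) :
    -((p (α e) - p e) / (p (α d) - p d)) ∈ Complex.slitPlane := by
  by_contra hs
  have hw : p (α d) - p d ≠ 0 := sub_ne_zero.2 (hne d)
  have hwe : p (α e) - p e ≠ 0 := sub_ne_zero.2 (hne e)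
  rw [Complex.mem_slitPlane_iff_not_le_zero, not_not] at hs
  obtain ⟨r, hr, hr2⟩ : ∃ r : ℝ, 0 ≤ r ∧ ((r : ℝ) : ℂ) =
      (p (α e) - p e) / (p (α d) - p d) := by
    refine ⟨((p (α e) - p e) / (p (α d) - p d)).re, ?_, ?_⟩
    · have := (Complex.le_def.1 hs).1
      simp only [Complex.neg_re, Complex.zero_re] at this
      linarith
    · have := (Complex.le_def.1 hs).2
      simp only [Complex.neg_im, Complex.zero_im, neg_eq_zero] at this
      apply Complex.ext
      · simp
      · rw [Complex.ofReal_im, this]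
  have h1 : p (α e) - p e = r * (p (α d) - p d) := by rw [hr2, div_mul_cancel₀ _ hw]
  have hr0 : 0 < r := by
    rcases hr.lt_or_eq with h | h
    · exact h
    · exfalso
      apply hwe
      rw [h1, ← h]; simp
  have hed' : e ≠ α d := by
    rintro rfl
    exact hne d hp
  set t : ℝ := min r 1 / 2 with ht
  have htpos : 0 < t := by
    have : 0 < min r 1 := lt_min hr0 one_pos
    rw [ht]; linarith
  have ht1 : t < 1 := by
    have : min r 1 ≤ 1 := min_le_right _ _
    rw [ht]; linarith
  have htr : t ≤ r := by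
    have : min r 1 ≤ r := min_le_left _ _
    rw [ht]; linarith
  refine hx d e hed hed' t htpos ht1 ?_
  rw [segment_eq_image]
  refine ⟨t / r, ⟨by positivity, (div_le_one hr0).2 htr⟩, ?_⟩
  have h2 : p (α e) = p d + r * (p (α d) - p d) := by
    rw [← h1, ← hp]; ring
  rw [h2, hp]
  simp only [Complex.real_smul]
  push_cast
  have hrc : (r : ℂ) ≠ 0 := by exact_mod_cast hr0.ne'
  field_simp
  ring

/-- The rotation given by the angles exists. -/
theorem exists_rot (hα : ∀ d, α (α d) = d) (hne : ∀ d, p (α d) ≠ p d)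
    (hx : ∀ d e, e ≠ d → e ≠ α d → ∀ t : ℝ, 0 < t → t < 1 →
      p d + t * (p (α d) - p d) ∉ segment ℝ (p e) (p (α e))) :
    ∃ G : Drw D, G.p = p ∧ G.α = α := by
  classical
  have hpi := Real.pi_pos
  let w : D → ℂ := fun d => p (α d) - p d
  have hw : ∀ d, w d ≠ 0 := fun d => sub_ne_zero.2 (hne d)
  have hdir : ∀ d e, p e = p d → e ≠ d → -(w e / w d) ∈ Complex.slitPlane :=
    fun d e h1 h2 => dir_of_nocross p α hne hx h1 h2
  -- the next dart
  have hex : ∀ d, ∃ f, p f = p d ∧ ∀ e, p e = p d → ccw (w d) (w f) ≤ ccw (w d) (w e) := by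
    intro d
    obtain ⟨f, hf, hmin⟩ := Finset.exists_min_image (Finset.univ.filter fun e => p e = p d)
      (fun e => ccw (w d) (w e)) ⟨d, by simp⟩
    refine ⟨f, (Finset.mem_filter.1 hf).2, fun e he => hmin e ?_⟩
    simp [he]
  choose nx hnx1 hnx2 using hex
  have hinj : Function.Injective nx := by
    intro d d' h
    by_contra hdd
    have hpp : p d' = p d := by rw [← hnx1 d', ← h, hnx1]
    have h1 := hnx2 d d' hpp
    have h2 := hnx2 d' d hpp.symm
    rw [← h] at h2
    have hpf : p (nx d) = p d := hnx1 d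
    by_cases hfd : nx d = d'
    · rw [hfd, ccw_self (hw d')] at h2
      have h3 := ccw_le (w d') (w d)
      have h4 : ccw (w d') (w d) = 2 * π := le_antisymm h3 h2
      exact ccw_eq_two_pi (hw d') h4 (hdir d' d hpp.symm hdd)
    · have h3 := ccw_add (hw d) (hw (nx d)) (hw d') (hdir (nx d) d' (by rw [hpp, hpf])
        (Ne.symm hfd)) h1
      by_cases hfd2 : nx d = d
      · rw [hfd2, ccw_self (hw d)] at h1
        have h4 : ccw (w d) (w d') = 2 * π := le_antisymm (ccw_le _ _) h1
        exact ccw_eq_two_pi (hw d) h4 (hdir d d' hpp (Ne.symm hdd))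
      · have h4 := ccw_add (hw d') (hw (nx d)) (hw d) (hdir (nx d) d hpf.symm
          (Ne.symm hfd2)) h2
        -- sums of opposite angles
        have hopp : ∀ a b, p b = p a → b ≠ a → ccw (w a) (w b) + ccw (w b) (w a) = 2 * π := by
          intro a b hab hne'
          have h5 : ccw (w a) (w b) ≤ ccw (w a) (w a) := by
            rw [ccw_self (hw a)]; exact ccw_le _ _
          have h6 := ccw_add (hw a) (hw b) (hw a) (hdir b a hab.symm (Ne.symm hne')) h5
          rw [ccw_self (hw a)] at h6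
          exact h6.symm
        have e1 := hopp d d' hpp (Ne.symm hdd)
        have e2 := hopp d (nx d) hpf hfd2
        have e3 := hopp d' (nx d) (by rw [hpf, hpp]) hfd
        have e4 := ccw_pos (w d) (w (nx d))
        have e5 := ccw_pos (w d') (w (nx d))
        linarith
  have hbij : Function.Bijective nx := Finite.injective_iff_bijective.1 hinj
  refine ⟨{ p := p, σ := Equiv.ofBijective nx hbij, α := α, hα := hα, hp := ?_, hne := hne,
            hx := hx, hσ := ?_ }, rfl, rfl⟩
  · intro d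
    exact hnx1 d
  · intro d e he
    have h1 := hnx2 d e he
    unfold ccw at h1
    simp only [w] at h1
    rw [he, hnx1 d] at h1
    exact h1

end exist

namespace Drw

variable {D : Type} [Fintype D] [DecidableEq D] (G : Drw D)

theorem ψ_eq (d e : D) : G.ψ d e = ccw (G.w d) (G.w e) := rfl

theorem p_of_sameCycle {d f : D} (h : G.σ.SameCycle d f) : G.p f = G.p d := by
  obtain ⟨n, rfl⟩ := h
  induction n using Int.induction_on with
  | zero => simp
  | succ n ih => rw [add_comm, zpow_add, zpow_one, Perm.mul_apply, G.hp, ih]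
  | pred n ih =>
    rw [← ih]
    have h2 : (G.σ ^ (-(n : ℤ))) d = G.σ ((G.σ ^ (-(n : ℤ) - 1)) d) := by
      rw [← Perm.mul_apply, ← zpow_one_add]
      congr 2
      ring
    rw [h2, G.hp]

/-- the rotation is transitive at every vertex -/
theorem sameCycle_of_p {d e : D} (h : G.p e = G.p d) : G.σ.SameCycle d e := by
  classical
  by_contra hcon
  -- an element of the orbit of `d` with minimal angle to `e`
  obtain ⟨f, hf, hmin⟩ := Finset.exists_min_image (Finset.univ.filter fun f => G.σ.SameCycle d f)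
    (fun f => G.ψ f e) ⟨d, by simp [SameCycle.refl]⟩
  have hf' := (Finset.mem_filter.1 hf).2
  have hpf : G.p f = G.p d := G.p_of_sameCycle hf'
  have hle := G.hσ' (d := f) (e := e) (by rw [h, hpf])
  have hne : e ≠ G.σ f := by
    rintro rfl
    exact hcon (hf'.trans ⟨1, by simp⟩)
  have h1 := G.ψ_add (d := f) (e := e) (by rw [h, hpf])
  rw [if_neg hne, sub_zero] at h1
  have h2 := hmin (G.σ f) (by
    rw [Finset.mem_filter]
    exact ⟨Finset.mem_univ _, hf'.trans ⟨1, by simp⟩⟩)
  have h3 : 0 < G.ψ f (G.σ f) := ccw_pos _ _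
  linarith

end Drw

end Pool.Agent.Helper15.OC
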