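import Mathlib
import Pool.Agent.Helper15.OC.Rot

/-!
# Straight-line drawings from vectors in Lorentz space
-/

set_option autoImplicit false

open Equiv Equiv.Perm Helper5.CR Filter Topology
open scoped Real

namespace Pool.Agent.Helper15.OC

/-- Lorentz space -/
abbrev E4 := ℂ × ℝ × ℝ

/-- the Lorentz form -/
noncomputable def B : LinearMap.BilinForm ℝ E4 :=
  LinearMap.mk₂ ℝ (fun a b => a.1.re * b.1.re + a.1.im * b.1.im -
    (a.2.1 * b.2.2 + a.2.2 * b.2.1) / 2)
    (by intro a a' b; simp only [Prod.fst_add, Prod.snd_add, Complex.add_re, Complex.add_im]; ring)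
    (by intro c a b; simp only [Prod.smul_fst, Prod.smul_snd, Complex.smul_re, Complex.smul_im,
      smul_eq_mul]; ring)
    (by intro a b b'; simp only [Prod.fst_add, Prod.snd_add, Complex.add_re, Complex.add_im]; ring)
    (by intro c a b; simp only [Prod.smul_fst, Prod.smul_snd, Complex.smul_re, Complex.smul_im,
      smul_eq_mul]; ring)

theorem B_apply (a b : E4) : B a b = a.1.re * b.1.re + a.1.im * b.1.im -
    (a.2.1 * b.2.2 + a.2.2 * b.2.1) / 2 := rfl

theorem B_comm (a b : E4) : B a b = B b a := by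
  rw [B_apply, B_apply]; ring

/-- the form is nondegenerate -/
theorem B_nondeg {a : E4} (h : ∀ b, B a b = 0) : a = 0 := by
  have h1 := h ((1 : ℂ), 0, 0)
  have h2 := h (Complex.I, 0, 0)
  have h3 := h ((0 : ℂ), 1, 0)
  have h4 := h ((0 : ℂ), 0, 1)
  simp only [B_apply, Complex.one_re, Complex.one_im, Complex.I_re, Complex.I_im,
    Complex.zero_re, Complex.zero_im] at h1 h2 h3 h4
  refine Prod.ext (Complex.ext ?_ ?_) (Prod.ext ?_ ?_)
  · change a.1.re = 0; linarith
  · change a.1.im = 0; linarith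
  · change a.2.1 = 0; linarith
  · change a.2.2 = 0; linarith

/-- the chart: a linear map to the plane which, on the kernel of `B p`, vanishes only on `ℝ o` -/
theorem exists_chart (o p : E4) (ho : o ≠ 0) (hp : p ≠ 0) (hop : B o p = 0) :
    ∃ g : E4 →ₗ[ℝ] ℂ, ∀ v, B p v = 0 → g v = 0 → ∃ s : ℝ, v = s • o := by
  have hBp : B p ≠ 0 := by
    intro h
    exact hp (B_nondeg fun b => by rw [h]; rfl)
  have hK : Module.finrank ℝ (LinearMap.ker (B p)) = 3 := by
    have h1 := LinearMap.finrank_range_add_finrank_ker (B p)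
    have h2 : LinearMap.range (B p) = ⊤ := LinearMap.range_eq_top.2 (LinearMap.surjective hBp)
    have h3 : Module.finrank ℝ E4 = 4 := by
      rw [Module.finrank_prod, Module.finrank_prod, Complex.finrank_real_complex,
        Module.finrank_self]
    rw [h2, finrank_top, Module.finrank_self, h3] at h1
    omega
  let o' : LinearMap.ker (B p) := ⟨o, by rw [LinearMap.mem_ker, B_comm]; exact hop⟩
  have ho' : o' ≠ 0 := fun h => ho (congrArg Subtype.val h)
  let S : Submodule ℝ (LinearMap.ker (B p)) := Submodule.span ℝ {o'}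
  have hS : Module.finrank ℝ S = 1 := finrank_span_singleton ho'
  have hQ : Module.finrank ℝ (LinearMap.ker (B p) ⧸ S) = Module.finrank ℝ ℂ := by
    have h1 := Submodule.finrank_quotient_add_finrank S
    rw [Complex.finrank_real_complex]
    omega
  let e := LinearEquiv.ofFinrankEq _ _ hQ
  obtain ⟨g, hg⟩ := LinearMap.exists_extend (e.toLinearMap ∘ₗ S.mkQ)
  refine ⟨g, fun v hv hgv => ?_⟩
  have hv' : v ∈ LinearMap.ker (B p) := hv
  have h1 : e (S.mkQ ⟨v, hv'⟩) = 0 := by
    have := LinearMap.congr_fun hg ⟨v, hv'⟩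
    simp only [LinearMap.comp_apply, Submodule.subtype_apply, LinearEquiv.coe_coe] at this
    rw [← this, hgv]
  have h2 : S.mkQ ⟨v, hv'⟩ = 0 := by
    rw [← e.map_zero] at h1
    exact e.injective h1
  rw [Submodule.mkQ_apply, Submodule.Quotient.mk_eq_zero] at h2
  obtain ⟨s, hs⟩ := Submodule.mem_span_singleton.1 h2
  exact ⟨s, (congrArg Subtype.val hs).symm⟩

/-- Data for a drawing: unit vectors with nonpositive products, and a pair `(o, p)`. -/
structure VData (ι : Type) where
  /-- normals -/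
  v : ι → E4
  /-- adjacency -/
  adj : ι → ι → Prop
  /-- centre of the projection -/
  o : E4
  /-- height -/
  p : E4
  /-- chart -/
  pr : E4 →ₗ[ℝ] ℂ
  hsymm : ∀ x y, adj x y → adj y x
  h1 : ∀ x, B (v x) (v x) = 1
  h0 : ∀ x y, adj x y → B (v x) (v y) = 0
  hneg : ∀ x y, x ≠ y → B (v x) (v y) ≤ 0
  hvo : ∀ x, B (v x) o ≤ 0
  hvp : ∀ x, B (v x) p < 0
  hop : B o p = 0
  hpr : ∀ v, B p v = 0 → pr v = 0 → ∃ s : ℝ, v = s • o

namespace VData

variable {ι : Type} (V : VData ι)

/-- height -/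
noncomputable def lam (x : ι) : ℝ := - B (V.v x) V.p

theorem lam_pos (x : ι) : 0 < V.lam x := by
  have := V.hvp x
  unfold lam; linarith

/-- position -/
noncomputable def P (x : ι) : ℂ := (V.lam x)⁻¹ • V.pr (V.v x)

theorem adj_ne {x y : ι} (h : V.adj x y) : x ≠ y := by
  rintro rfl
  have h1 := V.h1 x
  have h2 := V.h0 x x h
  linarith

/-- two combinations of normals with the same height and the same image differ by a multiple of
`o` -/
theorem diff_of_eq {u u' : E4} (h1 : B u V.p = B u' V.p) (h2 : V.pr u = V.pr u') :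
    ∃ s : ℝ, u' - u = s • V.o := by
  refine V.hpr _ ?_ ?_
  · rw [B_comm, map_sub, LinearMap.sub_apply, h1, sub_self]
  · rw [map_sub, h2, sub_self]

theorem P_inj {x y : ι} (hxy : x ≠ y) : V.P x ≠ V.P y := by
  intro h
  have hx := V.lam_pos x
  have hy := V.lam_pos y
  obtain ⟨s, hs⟩ := V.diff_of_eq (u := (V.lam x)⁻¹ • V.v x) (u' := (V.lam y)⁻¹ • V.v y) (by
      simp only [map_smul, LinearMap.smul_apply, smul_eq_mul]
      have e1 : B (V.v x) V.p = - V.lam x := by unfold lam; ring
      have e2 : B (V.v y) V.p = - V.lam y := by unfold lam; ring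
      rw [e1, e2]
      field_simp) (by simp only [map_smul]; exact h)
  have h1 := congrArg (fun u => B u (V.v x)) hs
  have h2 := congrArg (fun u => B u (V.v y)) hs
  simp only [map_sub, map_smul, LinearMap.sub_apply, LinearMap.smul_apply, smul_eq_mul,
    V.h1] at h1 h2
  have h3 := V.hneg x y hxy
  have h4 : B (V.v y) (V.v x) = B (V.v x) (V.v y) := B_comm _ _
  rw [h4] at h1
  have h5 : B V.o (V.v x) ≤ 0 := by rw [B_comm]; exact V.hvo x
  have h6 : B V.o (V.v y) ≤ 0 := by rw [B_comm]; exact V.hvo y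
  have h7 : 0 < (V.lam x)⁻¹ := inv_pos.2 hx
  have h8 : 0 < (V.lam y)⁻¹ := inv_pos.2 hy
  rcases le_total 0 s with h9 | h9
  · nlinarith [mul_nonpos_of_nonneg_of_nonpos h9 h6, mul_nonpos_of_nonneg_of_nonpos h7.le h3]
  · nlinarith [mul_nonneg_of_nonpos_of_nonpos h9 h5, mul_nonpos_of_nonneg_of_nonpos h8.le h3]

theorem hov (x : ι) : B V.o (V.v x) ≤ 0 := by rw [B_comm]; exact V.hvo x

/-- disjoint edges -/
theorem core1 {x y z w : ι} (hxy : V.adj x y) (hzw : V.adj z w) (h1 : z ≠ x) (h2 : z ≠ y)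
    (h3 : w ≠ x) (h4 : w ≠ y) {a b c d s : ℝ} (ha : 0 < a) (hb : 0 < b) (hc : 0 ≤ c)
    (hd : 0 ≤ d) (hcd : 0 < c + d)
    (hs : (c • V.v z + d • V.v w) - (a • V.v x + b • V.v y) = s • V.o) : False := by
  have gxy := V.h0 x y hxy
  have gyx := V.h0 y x (V.hsymm _ _ hxy)
  have gzw := V.h0 z w hzw
  have gwz := V.h0 w z (V.hsymm _ _ hzw)
  have gzx := V.hneg z x h1
  have gzy := V.hneg z y h2
  have gwx := V.hneg w x h3
  have gwy := V.hneg w y h4
  have gxz := V.hneg x z h1.symm
  have gyz := V.hneg y z h2.symm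
  have gxw := V.hneg x w h3.symm
  have gyw := V.hneg y w h4.symm
  have ox := V.hov x
  have oy := V.hov y
  have oz := V.hov z
  have ow := V.hov w
  have nx := V.h1 x
  have ny := V.h1 y
  have nz := V.h1 z
  have nw := V.h1 w
  have e1 := congrArg (fun u => B u (V.v x)) hs
  have e2 := congrArg (fun u => B u (V.v y)) hs
  have e3 := congrArg (fun u => B u (V.v z)) hs
  have e4 := congrArg (fun u => B u (V.v w)) hs
  simp only [map_sub, map_add, map_smul, LinearMap.sub_apply, LinearMap.add_apply,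
    LinearMap.smul_apply, smul_eq_mul] at e1 e2 e3 e4
  rw [nx, gyx] at e1
  rw [ny, gxy] at e2
  rw [nz, gwz] at e3
  rw [nw, gzw] at e4
  rcases le_total 0 s with h9 | h9
  · -- pair with `c z + d w`
    have k3 := mul_nonpos_of_nonneg_of_nonpos h9 oz
    have k4 := mul_nonpos_of_nonneg_of_nonpos h9 ow
    have m1 := mul_nonpos_of_nonneg_of_nonpos ha.le gxz
    have m2 := mul_nonpos_of_nonneg_of_nonpos hb.le gyz
    have m3 := mul_nonpos_of_nonneg_of_nonpos ha.le gxw
    have m4 := mul_nonpos_of_nonneg_of_nonpos hb.le gyw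
    have q1 : c ≤ 0 := by linarith
    have q2 : d ≤ 0 := by linarith
    linarith
  · have k1 := mul_nonneg_of_nonpos_of_nonpos h9 ox
    have m1 := mul_nonpos_of_nonneg_of_nonpos hc gzx
    have m2 := mul_nonpos_of_nonneg_of_nonpos hd gwx
    linarith

/-- edges with a common end -/
theorem core2 {x y w : ι} (hxy : V.adj x y) (hxw : V.adj x w) (hwy : w ≠ y)
    {a b c d s : ℝ} (hb : 0 < b) (hd : 0 ≤ d)
    (hht : c * V.lam x + d * V.lam w = a * V.lam x + b * V.lam y)
    (hs : (c • V.v x + d • V.v w) - (a • V.v x + b • V.v y) = s • V.o) : False := by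
  have gxy := V.h0 x y hxy
  have gyx := V.h0 y x (V.hsymm _ _ hxy)
  have gxw := V.h0 x w hxw
  have gwx := V.h0 w x (V.hsymm _ _ hxw)
  have gwy := V.hneg w y hwy
  have gyw := V.hneg y w hwy.symm
  have ox := V.hov x
  have oy := V.hov y
  have ow := V.hov w
  have nx := V.h1 x
  have ny := V.h1 y
  have nw := V.h1 w
  have e1 := congrArg (fun u => B u (V.v x)) hs
  have e2 := congrArg (fun u => B u (V.v y)) hs
  have e4 := congrArg (fun u => B u (V.v w)) hs
  simp only [map_sub, map_add, map_smul, LinearMap.sub_apply, LinearMap.add_apply,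
    LinearMap.smul_apply, smul_eq_mul] at e1 e2 e4
  rw [nx, gyx, gwx] at e1
  rw [ny, gxy] at e2
  rw [nw, gxw] at e4
  rcases le_total 0 s with h9 | h9
  · have k1 := mul_nonpos_of_nonneg_of_nonpos h9 ox
    have k4 := mul_nonpos_of_nonneg_of_nonpos h9 ow
    have m4 := mul_nonpos_of_nonneg_of_nonpos hb.le gyw
    have q2 : d = 0 := le_antisymm (by linarith) hd
    subst q2
    have lx := V.lam_pos x
    have ly := V.lam_pos y
    have q3 : c - a ≤ 0 := by linarith
    nlinarith [mul_pos hb ly, mul_nonneg (neg_nonneg.2 q3) lx.le]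
  · have k2 := mul_nonneg_of_nonpos_of_nonpos h9 oy
    have m1 := mul_nonpos_of_nonneg_of_nonpos hd gwy
    linarith

/-- a point of a segment in terms of the normals -/
theorem comb {x y z w : ι} {t r : ℝ}
    (h : V.P x + t * (V.P y - V.P x) = V.P z + r * (V.P w - V.P z)) :
    ∃ s : ℝ, (((1 - r) / V.lam z) • V.v z + (r / V.lam w) • V.v w) -
      (((1 - t) / V.lam x) • V.v x + (t / V.lam y) • V.v y) = s • V.o := by
  have lx := (V.lam_pos x).ne'
  have ly := (V.lam_pos y).ne'
  have lz := (V.lam_pos z).ne'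
  have lw := (V.lam_pos w).ne'
  have hB : ∀ x, B (V.v x) V.p = - V.lam x := fun x => by unfold lam; ring
  refine V.diff_of_eq ?_ ?_
  · simp only [map_add, map_smul, LinearMap.add_apply, LinearMap.smul_apply, smul_eq_mul, hB]
    field_simp
    ring
  · have e : ∀ (x y : ι) (t : ℝ), V.pr (((1 - t) / V.lam x) • V.v x + (t / V.lam y) • V.v y) =
        V.P x + t * (V.P y - V.P x) := by
      intro x y t
      unfold P
      simp only [map_add, map_smul, Complex.real_smul]
      push_cast
      ring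
    rw [e, e]
    exact h

/-- edges do not cross -/
theorem nocross {x y z w : ι} (hxy : V.adj x y) (hzw : V.adj z w)
    (hne1 : ¬ (z = x ∧ w = y)) (hne2 : ¬ (z = y ∧ w = x)) (t : ℝ) (ht0 : 0 < t) (ht1 : t < 1) :
    V.P x + t * (V.P y - V.P x) ∉ segment ℝ (V.P z) (V.P w) := by
  intro hseg
  rw [segment_eq_image] at hseg
  obtain ⟨r, ⟨hr0, hr1⟩, hr⟩ := hseg
  have lx := V.lam_pos x
  have ly := V.lam_pos y
  have lz := V.lam_pos z
  have lw := V.lam_pos w
  have hr' : V.P x + t * (V.P y - V.P x) = V.P z + r * (V.P w - V.P z) := by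
    rw [← hr]
    simp only [Complex.real_smul]
    push_cast
    ring
  obtain ⟨s, hs⟩ := V.comb hr'
  have ha : 0 < (1 - t) / V.lam x := div_pos (by linarith) lx
  have hb : 0 < t / V.lam y := div_pos ht0 ly
  have hc : 0 ≤ (1 - r) / V.lam z := div_nonneg (by linarith) lz.le
  have hd : 0 ≤ r / V.lam w := div_nonneg hr0 lw.le
  have hht : (1 - r) / V.lam z * V.lam z + r / V.lam w * V.lam w =
      (1 - t) / V.lam x * V.lam x + t / V.lam y * V.lam y := by
    field_simp
    ring
  by_cases e1 : z = x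
  · subst e1
    exact V.core2 hxy hzw (fun h => hne1 ⟨rfl, h⟩) hb hd hht hs
  by_cases e2 : z = y
  · subst e2
    refine V.core2 (V.hsymm _ _ hxy) hzw (fun h => hne2 ⟨rfl, h⟩) ha hd ?_ ?_ (s := s)
      (c := (1 - r) / V.lam z) (a := t / V.lam z)
    · rw [hht]; ring
    · rw [← hs]; abel
  by_cases e3 : w = x
  · subst e3
    refine V.core2 hxy (V.hsymm _ _ hzw) e2 hb hc ?_ ?_ (s := s)
      (c := r / V.lam w) (a := (1 - t) / V.lam w)
    · rw [← hht]; ring
    · rw [← hs]; abel
  by_cases e4 : w = y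
  · subst e4
    refine V.core2 (V.hsymm _ _ hxy) (V.hsymm _ _ hzw) e1 ha hc ?_ ?_ (s := s)
      (c := r / V.lam w) (a := t / V.lam w)
    · linarith
    · rw [← hs]; abel
  refine V.core1 hxy hzw e1 e2 e3 e4 ha hb hc hd ?_ hs
  rcases lt_or_ge r 1 with h | h
  · exact add_pos_of_pos_of_nonneg (div_pos (by linarith) lz) hd
  · exact add_pos_of_nonneg_of_pos hc (div_pos (by linarith) lw)

/-- if `x, y, z` are pairwise adjacent then no neighbour of `x` lies in the angle `y x z` -/
theorem sector {x y z u : ι} (hxy : V.adj x y) (hxz : V.adj x z) (hyz : V.adj y z)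
    (hxu : V.adj x u) (huy : u ≠ y) (huz : u ≠ z) {a b : ℝ} (ha : 0 < a) (hb : 0 < b)
    (h : V.P u - V.P x = a * (V.P y - V.P x) + b * (V.P z - V.P x)) : False := by
  have lx := V.lam_pos x
  have ly := V.lam_pos y
  have lz := V.lam_pos z
  have lu := V.lam_pos u
  have hB : ∀ x, B (V.v x) V.p = - V.lam x := fun x => by unfold lam; ring
  obtain ⟨s, hs⟩ := V.diff_of_eq
    (u' := (V.lam u)⁻¹ • V.v u)
    (u := (a / V.lam y) • V.v y + (b / V.lam z) • V.v z + ((1 - a - b) / V.lam x) • V.v x) (by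
      simp only [map_add, map_smul, LinearMap.add_apply, LinearMap.smul_apply, smul_eq_mul, hB]
      field_simp
      ring) (by
      have h2 : V.P u = a * V.P y + b * V.P z + (1 - a - b) * V.P x := by
        linear_combination h
      unfold P at h2
      simp only [map_add, map_smul, Complex.real_smul] at h2 ⊢
      rw [h2]
      push_cast
      ring)
  have gxy := V.h0 x y hxy
  have gxz := V.h0 x z hxz
  have gxu := V.h0 x u hxu
  have guy := V.hneg u y huy
  have guz := V.hneg u z huz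
  have gyu := V.hneg y u huy.symm
  have gzu := V.hneg z u huz.symm
  have ox := V.hov x
  have ou := V.hov u
  have nx := V.h1 x
  have nu := V.h1 u
  have ny := V.h1 y
  have oy := V.hov y
  have gzy : B (V.v z) (V.v y) = 0 := by rw [B_comm]; exact V.h0 y z hyz
  have e2 := congrArg (fun w => B w (V.v u)) hs
  have e3 := congrArg (fun w => B w (V.v y)) hs
  simp only [map_sub, map_add, map_smul, LinearMap.sub_apply, LinearMap.add_apply,
    LinearMap.smul_apply, smul_eq_mul] at e2 e3
  have ou := V.hov u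
  rw [nu, gxu] at e2
  rw [ny, gxy, gzy] at e3
  have q1 : 0 < (V.lam u)⁻¹ := inv_pos.2 lu
  have q2 : 0 < a / V.lam y := div_pos ha ly
  have q3 : 0 < b / V.lam z := div_pos hb lz
  have m1 := mul_nonpos_of_nonneg_of_nonpos q2.le gyu
  have m2 := mul_nonpos_of_nonneg_of_nonpos q3.le gzu
  have m3 := mul_nonpos_of_nonneg_of_nonpos q1.le guy
  rcases le_total 0 s with h9 | h9
  · have k1 := mul_nonpos_of_nonneg_of_nonpos h9 ou
    linarith
  · have k1 := mul_nonneg_of_nonpos_of_nonpos h9 oy
    linarith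

end VData

end Pool.Agent.Helper15.OC
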