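import Mathlib
import Pool.Agent.Helper15.OC.Vec

/-!
# The combinatorial map of a family of vectors
-/

set_option autoImplicit false

open Equiv Equiv.Perm Helper5.CR Filter Topology
open scoped Real ComplexConjugate

namespace Pool.Agent.Helper15.OC

theorem ccw_lt_pi_iff {a b : ℂ} : ccw a b < π ↔ 0 < (b / a).im := by
  have hpi := Real.pi_pos
  have h1 := Complex.neg_pi_lt_arg (b / a)
  have h2 := Complex.arg_le_pi (b / a)
  constructor
  · intro h
    by_contra him
    rw [not_lt] at him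
    have h0 := ccw_pos a b
    rcases him.lt_or_eq with h3 | h3
    · have h4 : Complex.arg (b / a) < 0 := Complex.arg_neg_iff.2 h3
      have h5 : ccw a b = Complex.arg (b / a) + 2 * π := by
        unfold ccw
        rw [toIocMod_eq_iff]
        refine ⟨⟨by linarith, by linarith⟩, -1, ?_⟩
        simp
      linarith
    · rcases lt_or_ge (b / a).re 0 with h4 | h4
      · have h5 : Complex.arg (b / a) = π := Complex.arg_eq_pi_iff.2 ⟨h4, h3⟩
        have h6 : ccw a b = π := by
          unfold ccw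
          rw [h5, toIocMod_eq_iff]
          refine ⟨⟨by linarith, by linarith⟩, 0, ?_⟩
          simp
        linarith
      · have h5 : Complex.arg (b / a) = 0 := Complex.arg_eq_zero_iff.2 ⟨h4, h3⟩
        have h6 : ccw a b = 2 * π := by
          unfold ccw
          rw [h5, toIocMod_eq_iff]
          refine ⟨⟨by linarith, by linarith⟩, -1, ?_⟩
          simp
        linarith
  · intro h
    have h3 : 0 < Complex.arg (b / a) := by
      have h4 : 0 ≤ Complex.arg (b / a) := Complex.arg_nonneg_iff.2 h.le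
      refine lt_of_le_of_ne h4 fun h5 => ?_
      have h6 := Complex.arg_eq_zero_iff.1 h5.symm
      linarith [h6.2]
    have h4 : Complex.arg (b / a) ≠ π := by
      intro h5
      rw [Complex.arg_eq_pi_iff] at h5
      linarith [h5.2]
    have h5 : ccw a b = Complex.arg (b / a) := by
      unfold ccw
      rw [toIocMod_eq_iff]
      refine ⟨⟨h3, by linarith⟩, 0, ?_⟩
      simp
    rw [h5]
    exact lt_of_le_of_ne h2 h4

/-- darts of a relation -/
abbrev Dt {ι : Type} (adj : ι → ι → Prop) : Type := {e : ι × ι // adj e.1 e.2}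

/-- reversal of darts -/
def rev {ι : Type} {adj : ι → ι → Prop} (hs : ∀ x y, adj x y → adj y x) : Perm (Dt adj) where
  toFun e := ⟨(e.1.2, e.1.1), hs _ _ e.2⟩
  invFun e := ⟨(e.1.2, e.1.1), hs _ _ e.2⟩
  left_inv _ := rfl
  right_inv _ := rfl

/-- the three darts at the corners of a triangle are consecutive -/
def Tri {ι : Type} {adj : ι → ι → Prop} (σ : Perm (Dt adj)) (x y z : ι) : Prop :=
  (∃ (h : adj x y) (h' : adj x z), σ ⟨(x, y), h⟩ = ⟨(x, z), h'⟩) ∧
  (∃ (h : adj y z) (h' : adj y x), σ ⟨(y, z), h⟩ = ⟨(y, x), h'⟩) ∧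
  (∃ (h : adj z x) (h' : adj z y), σ ⟨(z, x), h⟩ = ⟨(z, y), h'⟩)

/-- A plane map on a graph in which all triangles are faces. -/
structure PMap (ι : Type) [Fintype ι] where
  /-- adjacency -/
  adj : ι → ι → Prop
  hsymm : ∀ x y, adj x y → adj y x
  hirr : ∀ x, ¬ adj x x
  /-- rotation -/
  σ : Perm (Dt adj)
  hσ : ∀ d, (σ d).1.1 = d.1.1
  htrans : ∀ d e : Dt adj, d.1.1 = e.1.1 → σ.SameCycle d e
  htri : ∀ x y z, adj x y → adj y z → adj x z → Tri σ x y z ∨ Tri σ x z y
  euler : Nat.card (Dt adj) + 2 * ncomp σ (rev hsymm) ≤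
    nc σ + nc (rev hsymm) + nc (σ⁻¹ * rev hsymm)
  /-- every integral cycle is a boundary -/
  hcyc : ∀ z : Dt adj → ℤ, (∀ d, z (rev hsymm d) = - z d) →
    (∀ w : ι → ℤ, ∑ᶠ e : Dt adj, z e * w e.1.1 = 0) →
    ∃ g : Dt adj → ℝ, (∀ d, g (σ⁻¹ (rev hsymm d)) = g d) ∧ ∀ d, g d - g (rev hsymm d) = z d

namespace VData

variable {ι : Type} [Fintype ι] (V : VData ι)

theorem exists_pmap : ∃ M : PMap ι, M.adj = V.adj := by
  classical
  let D := Dt V.adj
  let p : D → ℂ := fun d => V.P d.1.1
  obtain ⟨G, hGp, hGα⟩ := exists_rot (D := D) p (rev V.hsymm) (fun d => rfl)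
    (fun d => (V.P_inj (V.adj_ne d.2)).symm)
    (fun d e h1 h2 t ht0 ht1 => V.nocross d.2 e.2
      (fun h => h1 (Subtype.ext (Prod.ext h.1 h.2)))
      (fun h => h2 (Subtype.ext (Prod.ext h.1 h.2))) t ht0 ht1)
  have hp1 : ∀ d e : D, G.p e = G.p d → e.1.1 = d.1.1 := by
    intro d e h
    by_contra hne
    rw [hGp] at h
    exact V.P_inj hne h
  have hw : ∀ d : D, G.w d = V.P d.1.2 - V.P d.1.1 := by
    intro d
    unfold Drw.w
    rw [hGp, hGα]
    rfl
  -- consecutive darts
  have hcons : ∀ (x y z : ι) (hxy : V.adj x y) (hxz : V.adj x z) (hyz : V.adj y z),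
      0 < ((V.P z - V.P x) / (V.P y - V.P x)).im →
      G.σ ⟨(x, y), hxy⟩ = ⟨(x, z), hxz⟩ := by
    intro x y z hxy hxz hyz him
    set d : D := ⟨(x, y), hxy⟩ with hd
    set g : D := ⟨(x, z), hxz⟩ with hg
    have hpi := Real.pi_pos
    have hpg : G.p g = G.p d := by rw [hGp]
    by_contra hne
    have hne' : g ≠ G.σ d := Ne.symm hne
    have hfst : (G.σ d).1.1 = x := hp1 d (G.σ d) (G.hp d)
    set u : ι := (G.σ d).1.2 with hu
    have hxu : V.adj x u := by
      have := (G.σ d).2
      rw [hfst] at this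
      exact this
    have hwd : G.w d = V.P y - V.P x := hw d
    have hwg : G.w g = V.P z - V.P x := hw g
    have hwf : G.w (G.σ d) = V.P u - V.P x := by rw [hw, hfst]
    have h1 : G.ψ d g < π := by
      rw [Drw.ψ_eq, ccw_lt_pi_iff, hwd, hwg]
      exact him
    have h2 := G.ψ_add (d := d) (e := g) hpg
    rw [if_neg hne', sub_zero] at h2
    have h3 : 0 < G.ψ (G.σ d) g := ccw_pos _ _
    have h4 : 0 < G.ψ d (G.σ d) := ccw_pos _ _
    have h5 : G.ψ d (G.σ d) < π := by linarith
    have h6 : G.ψ (G.σ d) g < π := by linarith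
    rw [Drw.ψ_eq, ccw_lt_pi_iff, hwd, hwf] at h5
    rw [Drw.ψ_eq, ccw_lt_pi_iff, hwf, hwg] at h6
    have huy : u ≠ y := by
      rintro huy
      rw [huy, div_self] at h5
      · simp at h5
      · exact sub_ne_zero.2 (V.P_inj (V.adj_ne hxy)).symm
    have huz : u ≠ z := by
      rintro huz
      rw [huz, div_self] at h6
      · simp at h6
      · exact sub_ne_zero.2 (V.P_inj (V.adj_ne hxz)).symm
    -- positive combination
    set Y := V.P y - V.P x with hY
    set Z := V.P z - V.P x with hZ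
    set U := V.P u - V.P x with hU
    have hY0 : Y ≠ 0 := sub_ne_zero.2 (V.P_inj (V.adj_ne hxy)).symm
    have hU0 : U ≠ 0 := sub_ne_zero.2 (V.P_inj (V.adj_ne hxu)).symm
    set ρ := U / Y with hρ
    set ζ := Z / Y with hζ
    have hρ0 : ρ ≠ 0 := div_ne_zero hU0 hY0
    have hzr : Z / U = ζ / ρ := by
      rw [hζ, hρ]; field_simp
    have hn : 0 < Complex.normSq ρ := Complex.normSq_pos.2 hρ0
    have h7 : 0 < ρ.re * ζ.im - ρ.im * ζ.re := by
      rw [hzr, Complex.div_im] at h6
      have h8 : ζ.im * ρ.re / Complex.normSq ρ - ζ.re * ρ.im / Complex.normSq ρ =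
          (ρ.re * ζ.im - ρ.im * ζ.re) / Complex.normSq ρ := by ring
      rw [h8] at h6
      exact (div_pos_iff_of_pos_right hn).1 h6
    refine V.sector hxy hxz hyz hxu huy huz (a := (ρ.re * ζ.im - ρ.im * ζ.re) / ζ.im)
      (b := ρ.im / ζ.im) (div_pos h7 him) (div_pos h5 him) ?_
    have h9 : ρ = (((ρ.re * ζ.im - ρ.im * ζ.re) / ζ.im : ℝ) : ℂ) +
        ((ρ.im / ζ.im : ℝ) : ℂ) * ζ := by
      apply Complex.ext
      · simp only [Complex.add_re, Complex.ofReal_re, Complex.re_ofReal_mul]
        field_simp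
        ring
      · simp only [Complex.add_im, Complex.ofReal_im, Complex.im_ofReal_mul]
        field_simp
        ring
    have h10 : U = ρ * Y := by rw [hρ]; field_simp
    have h11 : Z = ζ * Y := by rw [hζ]; field_simp
    calc V.P u - V.P x = ρ * Y := h10
      _ = ((((ρ.re * ζ.im - ρ.im * ζ.re) / ζ.im : ℝ) : ℂ) + ((ρ.im / ζ.im : ℝ) : ℂ) * ζ) * Y := by
        rw [← h9]
      _ = (((ρ.re * ζ.im - ρ.im * ζ.re) / ζ.im : ℝ) : ℂ) * Y + ((ρ.im / ζ.im : ℝ) : ℂ) * Z := by
        rw [h11]; ring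
  refine ⟨{ adj := V.adj, hsymm := V.hsymm, hirr := fun x h => V.adj_ne h rfl, σ := G.σ,
            hσ := fun d => hp1 _ _ (G.hp d), htrans := ?_, htri := ?_, euler := ?_,
            hcyc := ?_ }, rfl⟩
  · intro d e h
    refine G.sameCycle_of_p ?_
    rw [hGp]
    change V.P e.1.1 = V.P d.1.1
    rw [h]
  · intro x y z hxy hyz hxz
    have hyx := V.hsymm _ _ hxy
    have hzy := V.hsymm _ _ hyz
    have hzx := V.hsymm _ _ hxz
    -- orientation
    have cyc : ∀ x y z : ι, V.adj x y → V.adj y z → V.adj x z →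
        0 < ((V.P z - V.P x) / (V.P y - V.P x)).im →
        0 < ((V.P x - V.P y) / (V.P z - V.P y)).im := by
      intro x y z hxy hyz hxz h
      have h1 : V.P y - V.P x ≠ 0 := sub_ne_zero.2 (V.P_inj (V.adj_ne hxy)).symm
      have h2 : V.P z - V.P y ≠ 0 := sub_ne_zero.2 (V.P_inj (V.adj_ne hyz)).symm
      have e : ∀ a b : ℂ, b ≠ 0 → (0 < (a / b).im ↔ 0 < a.im * b.re - a.re * b.im) := by
        intro a b hb
        rw [Complex.div_im, ← sub_div]
        exact div_pos_iff_of_pos_right (Complex.normSq_pos.2 hb)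
      rw [e _ _ h1] at h
      rw [e _ _ h2]
      simp only [Complex.sub_re, Complex.sub_im] at h ⊢
      nlinarith
    have mk : ∀ x y z : ι, V.adj x y → V.adj y z → V.adj x z →
        0 < ((V.P z - V.P x) / (V.P y - V.P x)).im → Tri G.σ x y z := by
      intro x y z hxy hyz hxz h
      have hyx := V.hsymm _ _ hxy
      have hzy := V.hsymm _ _ hyz
      have hzx := V.hsymm _ _ hxz
      have h2 := cyc x y z hxy hyz hxz h
      have h3 := cyc y z x hyz hzx hyx h2
      exact ⟨⟨hxy, hxz, hcons x y z hxy hxz hyz h⟩, ⟨hyz, hyx, hcons y z x hyz hyx hzx h2⟩,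
        ⟨hzx, hzy, hcons z x y hzx hzy hxy h3⟩⟩
    rcases lt_trichotomy ((V.P z - V.P x) / (V.P y - V.P x)).im 0 with h | h | h
    · right
      refine mk x z y hxz hzy hxy ?_
      have h1 : V.P y - V.P x ≠ 0 := sub_ne_zero.2 (V.P_inj (V.adj_ne hxy)).symm
      have h2 : V.P z - V.P x ≠ 0 := sub_ne_zero.2 (V.P_inj (V.adj_ne hxz)).symm
      rw [← inv_div, Complex.inv_im]
      exact div_pos (by linarith) (Complex.normSq_pos.2 (div_ne_zero h2 h1))
    · exfalso
      -- collinear
      have h1 : V.P y - V.P x ≠ 0 := sub_ne_zero.2 (V.P_inj (V.adj_ne hxy)).symm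
      have h2 : V.P z - V.P x ≠ 0 := sub_ne_zero.2 (V.P_inj (V.adj_ne hxz)).symm
      set ζ := (V.P z - V.P x) / (V.P y - V.P x) with hζ
      have hre : ζ = (ζ.re : ℂ) := by
        apply Complex.ext
        · simp
        · rw [Complex.ofReal_im, h]
      have hz : V.P z - V.P x = (ζ.re : ℂ) * (V.P y - V.P x) := by
        rw [← hre, hζ]; field_simp
      rcases lt_trichotomy ζ.re 0 with h3 | h3 | h3
      · -- `x` lies between `y` and `z`
        set dxy : D := ⟨(y, x), hyx⟩
        set dyz : D := ⟨(y, z), hyz⟩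
        have h4 := G.hx0 (d := (⟨(x, y), hxy⟩ : D)) (e := dyz)
          (by rw [hGp]; exact (V.P_inj (V.adj_ne hxy)).symm)
          (by rw [hGp, hGα]; exact (V.P_inj (V.adj_ne hxz)).symm)
        rw [hGp, hGα] at h4
        apply h4
        change V.P x ∈ segment ℝ (V.P y) (V.P z)
        have h5 : 0 < 1 - ζ.re := by linarith
        refine ⟨-ζ.re / (1 - ζ.re), 1 / (1 - ζ.re), ?_, ?_, ?_, ?_⟩
        · exact div_nonneg (by linarith) h5.le
        · exact div_nonneg zero_le_one h5.le
        · rw [← add_div, show -ζ.re + 1 = 1 - ζ.re by ring]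
          exact div_self h5.ne'
        · have h6 : (1 : ℂ) - (ζ.re : ℂ) ≠ 0 := by exact_mod_cast h5.ne'
          have h7 : V.P z = V.P x + (ζ.re : ℂ) * (V.P y - V.P x) := by rw [← hz]; ring
          rw [Complex.real_smul, Complex.real_smul, h7]
          push_cast
          field_simp
          ring
      · rw [h3] at hz
        apply h2
        rw [hz]; simp
      · -- same direction
        have h4 := G.slit_dir (d := (⟨(x, y), hxy⟩ : D)) (e := (⟨(x, z), hxz⟩ : D))
          (by rw [hGp])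
          (fun h5 => V.adj_ne hyz (congrArg (fun d : D => d.1.2) h5).symm)
        rw [hw, hw] at h4
        change -ζ ∈ Complex.slitPlane at h4
        rw [hre, ← Complex.ofReal_neg, Complex.ofReal_mem_slitPlane] at h4
        linarith
    · left
      exact mk x y z hxy hyz hxz h
  · have h1 := G.euler
    rw [hGα] at h1
    exact h1
  · intro z hz1 hz2
    have h1 := G.cyc z (by rw [hGα]; exact hz1) (by
      intro d
      have h3 := hz2 (fun v => if v = d.1.1 then 1 else 0)
      rw [finsum_eq_sum_of_fintype] at h3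
      rw [Finset.sum_filter]
      refine (Finset.sum_congr rfl fun e _ => ?_).trans h3
      have h4 : G.σ.SameCycle d e ↔ e.1.1 = d.1.1 := by
        constructor
        · intro h
          exact hp1 _ _ (G.p_of_sameCycle h)
        · intro h
          refine G.sameCycle_of_p ?_
          rw [hGp]
          change V.P e.1.1 = V.P d.1.1
          rw [h]
      by_cases h5 : e.1.1 = d.1.1
      · rw [if_pos (h4.2 h5), if_pos h5, mul_one]
      · rw [if_neg (fun h => h5 (h4.1 h)), if_neg h5, mul_zero])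
    rw [hGα] at h1
    exact h1

end VData

end Pool.Agent.Helper15.OC
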