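import Mathlib
import Pool.Agent.Helper15.OC.NMap

/-!
# Faces of plane maps
-/

set_option autoImplicit false

open Equiv Equiv.Perm Helper5.CR

namespace Pool.Agent.Helper15.OC

/-- counting the cycles of a permutation with weights -/
theorem mul_nc_le {D : Type} [Fintype D] (π : Perm D) (ω : D → ℕ) (K : ℕ)
    (h : ∀ d, ∃ s : Finset D, (∀ e ∈ s, π.SameCycle d e) ∧ K ≤ ∑ e ∈ s, ω e) :
    K * nc π ≤ ∑ d, ω d := by
  classical
  have h1 := Finset.sum_partition (s := (Finset.univ : Finset D)) (SameCycle.setoid π) (f := ω)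
  rw [h1]
  have h2 : (Finset.univ : Finset D).image (Quotient.mk (SameCycle.setoid π)) = Finset.univ := by
    ext q
    simp only [Finset.mem_image, Finset.mem_univ, true_and, iff_true]
    exact Quotient.exists_rep q
  rw [h2]
  have h3 : nc π = (Finset.univ : Finset (Quotient (SameCycle.setoid π))).card := by
    rw [Finset.card_univ, nc, Nat.card_eq_fintype_card]
  rw [h3, mul_comm, ← smul_eq_mul, ← Finset.sum_const]
  refine Finset.sum_le_sum fun q _ => ?_
  obtain ⟨d, rfl⟩ := Quotient.exists_rep q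
  obtain ⟨s, hs1, hs2⟩ := h d
  refine hs2.trans (Finset.sum_le_sum_of_subset ?_)
  intro e he
  rw [Finset.mem_filter]
  exact ⟨Finset.mem_univ _, Quotient.sound (s := SameCycle.setoid π)
    (SameCycle.symm (hs1 e he))⟩

/-- the number of cycles of a permutation with a transversal function -/
theorem nc_le_card {D X : Type} [Fintype D] (π : Perm D) (f : D → X) (s : Finset X)
    (hs : ∀ d, f d ∈ s) (h : ∀ d e, f d = f e → π.SameCycle d e) : nc π ≤ s.card := by
  classical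
  have h1 : nc π = Fintype.card (Quotient (SameCycle.setoid π)) := by
    rw [nc, Nat.card_eq_fintype_card]
  rw [h1, ← Finset.card_univ]
  refine Finset.card_le_card_of_injOn (fun q => f (Quotient.out q)) ?_ ?_
  · intro q _
    exact hs _
  · intro q _ q' _ hqq
    have := h _ _ hqq
    rw [← Quotient.out_eq q, ← Quotient.out_eq q']
    exact Quotient.sound (s := SameCycle.setoid π) this

namespace PMap

variable {ι : Type} [Fintype ι] (M : PMap ι)

/-- the face permutation -/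
noncomputable def φ : Perm (Dt M.adj) := M.σ⁻¹ * rev M.hsymm

theorem φ_eq_iff {d e : Dt M.adj} : M.φ d = e ↔ rev M.hsymm d = M.σ e := by
  unfold φ
  rw [Perm.mul_apply, Perm.inv_eq_iff_eq]

/-- the next dart of a face starts at the end of the dart -/
theorem φ_fst (d : Dt M.adj) : (M.φ d).1.1 = d.1.2 := by
  have h := M.φ_eq_iff.1 (rfl : M.φ d = M.φ d)
  have h1 := M.hσ (M.φ d)
  rw [← h] at h1
  exact h1.symm

theorem dt_ext {d e : Dt M.adj} (h1 : d.1.1 = e.1.1) (h2 : d.1.2 = e.1.2) : d = e :=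
  Subtype.ext (Prod.ext h1 h2)

theorem ne_of_adj {x y : ι} (h : M.adj x y) : x ≠ y := by
  rintro rfl
  exact M.hirr _ h

theorem φ_ne (d : Dt M.adj) : M.φ d ≠ d := by
  intro h
  have h1 := M.φ_fst d
  rw [h] at h1
  exact M.ne_of_adj d.2 h1

/-- neighbours of a vertex of degree one -/
theorem deg_one {d : Dt M.adj} (h : M.σ d = d) {y : ι} (hy : M.adj d.1.1 y) : y = d.1.2 := by
  have h1 : M.σ.SameCycle d ⟨(d.1.1, y), hy⟩ := M.htrans _ _ rfl
  have h2 : d = ⟨(d.1.1, y), hy⟩ := by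
    obtain ⟨n, hn⟩ := h1
    rw [← hn]
    exact (zpow_apply_eq_self_of_apply_eq_self h n).symm
  exact (congrArg (fun d : Dt M.adj => d.1.2) h2).symm

/-- neighbours of a vertex of degree at most two -/
theorem deg_two {d e : Dt M.adj} (h : M.σ d = e) (h' : M.σ e = d) {y : ι}
    (hy : M.adj d.1.1 y) : y = d.1.2 ∨ y = e.1.2 := by
  have h1 : M.σ.SameCycle d ⟨(d.1.1, y), hy⟩ := M.htrans _ _ rfl
  have h2 : (⟨(d.1.1, y), hy⟩ : Dt M.adj) = d ∨ (⟨(d.1.1, y), hy⟩ : Dt M.adj) = e := by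
    obtain ⟨n, hn⟩ := h1
    rw [← hn]
    clear hn
    induction n using Int.induction_on with
    | zero => left; simp
    | succ n ih =>
      have e1 : (M.σ ^ ((n : ℤ) + 1)) d = M.σ ((M.σ ^ (n : ℤ)) d) := by
        rw [← Perm.mul_apply, ← zpow_one_add]
        congr 2
        ring
      rw [e1]
      rcases ih with ih | ih
      · right; rw [ih, h]
      · left; rw [ih, h']
    | pred n ih =>
      have e1 : (M.σ ^ (-(n : ℤ))) d = M.σ ((M.σ ^ (-(n : ℤ) - 1)) d) := by
        rw [← Perm.mul_apply, ← zpow_one_add]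
        congr 2
        ring
      rcases ih with ih | ih
      · right
        apply M.σ.injective
        rw [← e1, ih, h']
      · left
        apply M.σ.injective
        rw [← e1, ih, h]
  rcases h2 with h2 | h2
  · left; exact congrArg (fun d : Dt M.adj => d.1.2) h2
  · right; exact congrArg (fun d : Dt M.adj => d.1.2) h2

/-- a face with three darts is a triangle -/
theorem tri_of_φ3 {d : Dt M.adj} (h : M.φ (M.φ (M.φ d)) = d) :
    Tri M.σ d.1.1 d.1.2 (M.φ d).1.2 := by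
  set d1 := M.φ d with hd1
  set d2 := M.φ d1 with hd2
  have e1 : d1.1.1 = d.1.2 := M.φ_fst d
  have e2 : d2.1.1 = d1.1.2 := M.φ_fst d1
  have e3 : d.1.1 = d2.1.2 := by rw [← h]; exact M.φ_fst d2
  have a1 : rev M.hsymm d = M.σ d1 := M.φ_eq_iff.1 rfl
  have a2 : rev M.hsymm d1 = M.σ d2 := M.φ_eq_iff.1 rfl
  have a3 : rev M.hsymm d2 = M.σ d := M.φ_eq_iff.1 h
  refine ⟨⟨d.2, ?_, ?_⟩, ⟨?_, ?_, ?_⟩, ⟨?_, ?_, ?_⟩⟩
  · have := (rev M.hsymm d2).2
    rw [a3] at this
    have h5 : (M.σ d).1.1 = d.1.1 := M.hσ d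
    have h6 : (M.σ d).1.2 = d1.1.2 := by rw [← a3]; exact e2
    rw [← h5, ← h6]
    exact this
  · apply M.dt_ext
    · exact M.hσ d
    · change (M.σ d).1.2 = d1.1.2
      rw [← a3]; exact e2
  · rw [← e1]; exact d1.2
  · exact M.hsymm _ _ d.2
  · have : (⟨(d.1.2, d1.1.2), by rw [← e1]; exact d1.2⟩ : Dt M.adj) = d1 :=
      M.dt_ext e1.symm rfl
    rw [this, ← a1]
    rfl
  · rw [← e2, e3]; exact d2.2
  · rw [← e1]; exact M.hsymm _ _ d1.2
  · have : (⟨(d1.1.2, d.1.1), by rw [← e2, e3]; exact d2.2⟩ : Dt M.adj) = d2 :=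
      M.dt_ext e2.symm e3
    rw [this, ← a2]
    exact M.dt_ext rfl e1

theorem Tri.rot {ι : Type} {adj : ι → ι → Prop} {σ : Perm (Dt adj)} {x y z : ι}
    (h : Tri σ x y z) : Tri σ y z x := ⟨h.2.1, h.2.2, h.1⟩

/-- the converse -/
theorem φ_of_tri {x y z : ι} (h : Tri M.σ x y z) (hxy : M.adj x y) :
    ∃ hyz : M.adj y z, M.φ ⟨(x, y), hxy⟩ = ⟨(y, z), hyz⟩ := by
  obtain ⟨-, ⟨h1, h2, h3⟩, -⟩ := h
  refine ⟨h1, ?_⟩
  rw [M.φ_eq_iff, h3]
  rfl

theorem φ3_of_tri {x y z : ι} (h : Tri M.σ x y z) (hxy : M.adj x y) :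
    M.φ (M.φ (M.φ ⟨(x, y), hxy⟩)) = ⟨(x, y), hxy⟩ := by
  obtain ⟨hyz, e1⟩ := M.φ_of_tri h hxy
  obtain ⟨hzx, e2⟩ := M.φ_of_tri (Tri.rot h) hyz
  obtain ⟨hxy', e3⟩ := M.φ_of_tri (Tri.rot (Tri.rot h)) hzx
  rw [e1, e2, e3]

/-- faces with at most two darts -/
theorem φ2 {d : Dt M.adj} (h : M.φ (M.φ d) = d) :
    (∀ y, M.adj d.1.1 y → y = d.1.2) ∧ (∀ y, M.adj d.1.2 y → y = d.1.1) := by
  have e1 : (M.φ d).1.1 = d.1.2 := M.φ_fst d
  have e2 : d.1.1 = (M.φ d).1.2 := by
    have := M.φ_fst (M.φ d)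
    rw [h] at this
    exact this
  have hr : M.φ d = rev M.hsymm d := M.dt_ext e1 e2.symm
  have a1 : rev M.hsymm d = M.σ (M.φ d) := M.φ_eq_iff.1 rfl
  have a2 : rev M.hsymm (M.φ d) = M.σ d := M.φ_eq_iff.1 h
  rw [hr] at a1 a2
  constructor
  · intro y hy
    exact M.deg_one (d := d) a2.symm hy
  · intro y hy
    exact M.deg_one (d := rev M.hsymm d) a1.symm hy

/-- faces with four darts: a vertex of degree one or two -/
theorem φ4 (hC4 : ∀ x y z u, M.adj x y → M.adj y z → M.adj z u → M.adj u x → x ≠ z → y ≠ u →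
    M.adj x z ∨ M.adj y u) {d : Dt M.adj} (h : M.φ (M.φ (M.φ (M.φ d))) = d) :
    ∃ x a b, M.adj x a ∧ ∀ y, M.adj x y → y = a ∨ y = b := by
  set d1 := M.φ d with hd1
  set d2 := M.φ d1 with hd2
  set d3 := M.φ d2 with hd3
  have e1 : d1.1.1 = d.1.2 := M.φ_fst d
  have e2 : d2.1.1 = d1.1.2 := M.φ_fst d1
  have e3 : d3.1.1 = d2.1.2 := M.φ_fst d2
  have e4 : d.1.1 = d3.1.2 := by rw [← h]; exact M.φ_fst d3
  have a1 : rev M.hsymm d = M.σ d1 := M.φ_eq_iff.1 rfl
  have a2 : rev M.hsymm d1 = M.σ d2 := M.φ_eq_iff.1 rfl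
  have a3 : rev M.hsymm d2 = M.σ d3 := M.φ_eq_iff.1 rfl
  have a4 : rev M.hsymm d3 = M.σ d := M.φ_eq_iff.1 h
  -- if the ends of two consecutive darts agree the middle vertex has degree one
  have pend : ∀ d d' : Dt M.adj, rev M.hsymm d = M.σ d' → d'.1.1 = d.1.2 → d.1.1 = d'.1.2 →
      ∃ x a b, M.adj x a ∧ ∀ y, M.adj x y → y = a ∨ y = b := by
    intro d d' ha hf hs
    have hd' : d' = rev M.hsymm d := M.dt_ext hf hs.symm
    refine ⟨d'.1.1, d'.1.2, d'.1.2, d'.2, fun y hy => Or.inl ?_⟩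
    refine M.deg_one (d := d') ?_ hy
    rw [← ha, hd']
  -- if they are adjacent the middle vertex has degree two
  have mid : ∀ d d' d'' : Dt M.adj, rev M.hsymm d = M.σ d' → d'.1.1 = d.1.2 →
      M.φ d' = d'' → d''.1.2 ≠ d.1.1 → M.adj d.1.1 d'.1.2 →
      ∃ x a b, M.adj x a ∧ ∀ y, M.adj x y → y = a ∨ y = b := by
    intro d d' d'' ha hf hφ hne hadj
    have hyz : M.adj d.1.2 d'.1.2 := by rw [← hf]; exact d'.2
    rcases M.htri d.1.1 d.1.2 d'.1.2 d.2 hyz hadj with ht | ht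
    · exfalso
      obtain ⟨hzx, e⟩ := M.φ_of_tri (Tri.rot ht) hyz
      have hd' : d' = ⟨(d.1.2, d'.1.2), hyz⟩ := M.dt_ext hf rfl
      rw [← hd', hφ] at e
      exact hne (by rw [e])
    · obtain ⟨-, -, ⟨h1, h2, h3⟩⟩ := ht
      refine ⟨d.1.2, d.1.1, d'.1.2, M.hsymm _ _ d.2, fun y hy => ?_⟩
      refine M.deg_two (d := rev M.hsymm d) (e := d') ?_ ?_ hy
      · have : rev M.hsymm d = ⟨(d.1.2, d.1.1), h1⟩ := rfl
        rw [this, h3]
        exact M.dt_ext hf.symm rfl
      · rw [← ha]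
  by_cases h13 : d.1.1 = d1.1.2
  · exact pend d d1 a1 e1 h13
  by_cases h24 : d1.1.1 = d2.1.2
  · exact pend d1 d2 a2 e2 h24
  rcases hC4 d.1.1 d1.1.1 d2.1.1 d3.1.1 (by rw [e1]; exact d.2) (by rw [e2]; exact d1.2)
    (by rw [e3]; exact d2.2) (by rw [e4]; exact d3.2) (by rw [e2]; exact h13)
    (by rw [e3]; exact h24) with h5 | h5
  · refine mid d d1 d2 a1 e1 rfl ?_ (by rw [← e2]; exact h5)
    intro h6
    apply M.ne_of_adj d3.2
    rw [e3, h6, e4]
  · refine mid d1 d2 d3 a2 e2 rfl ?_ (by rw [← e3]; exact h5)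
    intro h6
    apply M.ne_of_adj d.2
    rw [← e1, ← h6, e4]

theorem card_rev : 2 * nc (rev M.hsymm) ≤ Nat.card (Dt M.adj) := by
  classical
  have h3 := mul_nc_le (rev M.hsymm) (fun _ => 1) 2 (by
    intro d
    have hne : d ≠ rev M.hsymm d := by
      intro h
      exact M.ne_of_adj d.2 (congrArg (fun d : Dt M.adj => d.1.1) h)
    refine ⟨{d, rev M.hsymm d}, ?_, ?_⟩
    · intro e he
      simp only [Finset.mem_insert, Finset.mem_singleton] at he
      rcases he with rfl | rfl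
      · exact SameCycle.refl _ _
      · exact ⟨1, by simp⟩
    · rw [Finset.sum_const, Finset.card_pair hne]; rfl)
  rw [Finset.sum_const, Finset.card_univ, smul_eq_mul, mul_one] at h3
  rw [Nat.card_eq_fintype_card]
  exact h3

/-- the number of faces when all non triangular faces have at least five sides -/
theorem card_faces (hφ2 : ∀ d, M.φ (M.φ d) ≠ d) (hφ4 : ∀ d, M.φ (M.φ (M.φ (M.φ d))) ≠ d) :
    15 * nc M.φ ≤ 3 * Nat.card (Dt M.adj) +
      2 * Nat.card {d : Dt M.adj // M.φ (M.φ (M.φ d)) = d} := by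
  classical
  have h3 := mul_nc_le M.φ (fun d => if M.φ (M.φ (M.φ d)) = d then 5 else 3) 15 (by
    intro d
    have sc : ∀ (d : Dt M.adj), M.φ.SameCycle d (M.φ d) := fun d => ⟨1, by simp⟩
    have s1 := sc d
    have s2 := s1.trans (sc (M.φ d))
    have s3 := s2.trans (sc (M.φ (M.φ d)))
    have s4 := s3.trans (sc (M.φ (M.φ (M.φ d))))
    have n1 : ∀ d, M.φ d ≠ d := M.φ_ne
    by_cases h3 : M.φ (M.φ (M.φ d)) = d
    · refine ⟨{d, M.φ d, M.φ (M.φ d)}, ?_, ?_⟩
      · intro e he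
        simp only [Finset.mem_insert, Finset.mem_singleton] at he
        rcases he with rfl | rfl | rfl
        · exact SameCycle.refl _ _
        · exact s1
        · exact s2
      · rw [Finset.sum_insert (by
          simp only [Finset.mem_insert, Finset.mem_singleton, not_or]
          exact ⟨(n1 d).symm, (hφ2 d).symm⟩), Finset.sum_pair (n1 (M.φ d)).symm]
        simp only [h3, if_true]
        norm_num
    · have hcard : ({d, M.φ d, M.φ (M.φ d), M.φ (M.φ (M.φ d)), M.φ (M.φ (M.φ (M.φ d)))} :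
          Finset (Dt M.adj)).card = 5 := by
        have inj := M.φ.injective
        have n2 := hφ2
        have n4 := hφ4
        have n3 : ∀ k, k = d ∨ k = M.φ d → M.φ (M.φ (M.φ k)) ≠ k := by
          rintro k (rfl | rfl)
          · exact h3
          · exact fun h => h3 (inj h)
        rw [Finset.card_insert_of_notMem, Finset.card_insert_of_notMem,
          Finset.card_insert_of_notMem, Finset.card_insert_of_notMem, Finset.card_singleton]
        · simp only [Finset.mem_singleton]; exact (n1 _).symm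
        · simp only [Finset.mem_insert, Finset.mem_singleton, not_or]
          exact ⟨(n1 _).symm, (n2 _).symm⟩
        · simp only [Finset.mem_insert, Finset.mem_singleton, not_or]
          exact ⟨(n1 _).symm, (n2 _).symm, (n3 _ (Or.inr rfl)).symm⟩
        · simp only [Finset.mem_insert, Finset.mem_singleton, not_or]
          exact ⟨(n1 _).symm, (n2 _).symm, (n3 _ (Or.inl rfl)).symm, (n4 _).symm⟩
      refine ⟨{d, M.φ d, M.φ (M.φ d), M.φ (M.φ (M.φ d)), M.φ (M.φ (M.φ (M.φ d)))}, ?_, ?_⟩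
      · intro e he
        simp only [Finset.mem_insert, Finset.mem_singleton] at he
        rcases he with rfl | rfl | rfl | rfl | rfl
        · exact SameCycle.refl _ _
        · exact s1
        · exact s2
        · exact s3
        · exact s4
      · refine le_trans ?_ (Finset.card_nsmul_le_sum _ _ 3 fun e _ => ?_)
        · rw [hcard]; norm_num
        · by_cases h : M.φ (M.φ (M.φ e)) = e
          · rw [if_pos h]; norm_num
          · rw [if_neg h])
  have h4 : ∑ d, (if M.φ (M.φ (M.φ d)) = d then 5 else 3) =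
      3 * Nat.card (Dt M.adj) + 2 * Nat.card {d : Dt M.adj // M.φ (M.φ (M.φ d)) = d} := by
    have h5 : ∀ d, (if M.φ (M.φ (M.φ d)) = d then 5 else 3) =
        3 + 2 * (if M.φ (M.φ (M.φ d)) = d then 1 else 0) := by
      intro d; split_ifs <;> rfl
    have h6 : Nat.card {d : Dt M.adj // M.φ (M.φ (M.φ d)) = d} =
        ∑ d : Dt M.adj, (if M.φ (M.φ (M.φ d)) = d then 1 else 0) := by
      rw [Nat.card_eq_fintype_card, Fintype.card_subtype, Finset.card_filter]
    rw [Finset.sum_congr rfl fun d _ => h5 d, Finset.sum_add_distrib, Finset.sum_const,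
      ← Finset.mul_sum, Finset.card_univ, smul_eq_mul, Nat.card_eq_fintype_card, h6, mul_comm]
  rw [h4] at h3
  exact h3

theorem card_pos (h : Nonempty (Dt M.adj)) : 1 ≤ ncomp M.σ (rev M.hsymm) := by
  classical
  obtain ⟨d⟩ := h
  have : Nonempty (Quotient (comp M.σ (rev M.hsymm))) := ⟨Quotient.mk _ d⟩
  exact Nat.card_pos

end PMap

end Pool.Agent.Helper15.OC
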