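import Mathlib
import Pool.Agent.Helper15.OC.PM

/-!
# Separation lemmas for plane maps
-/

set_option autoImplicit false

open Equiv Equiv.Perm Helper5.CR

namespace Pool.Agent.Helper15.OC

namespace PMap

variable {ι : Type} [Fintype ι] (M : PMap ι)

/-- a path from `a` to `b` all of whose vertices are outside `S` (except possibly `a`) -/
def Conn (S : ι → Prop) (a b : ι) : Prop :=
  Relation.ReflTransGen (fun p q => M.adj p q ∧ ¬ S p ∧ ¬ S q) a b

open Classical in
/-- the flow along one dart -/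
noncomputable def ef (c : Dt M.adj) (e : Dt M.adj) : ℤ :=
  (if e = c then 1 else 0) - (if e = rev M.hsymm c then 1 else 0)

theorem rev_rev (d : Dt M.adj) : rev M.hsymm (rev M.hsymm d) = d := rfl

theorem rev_ne (d : Dt M.adj) : rev M.hsymm d ≠ d := by
  intro h
  exact M.ne_of_adj d.2 (congrArg (fun d : Dt M.adj => d.1.2) h)

theorem ef_rev (c e : Dt M.adj) : M.ef c (rev M.hsymm e) = - M.ef c e := by
  classical
  unfold ef
  have h1 : (rev M.hsymm e = c) ↔ (e = rev M.hsymm c) := by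
    constructor
    · rintro rfl; rfl
    · rintro rfl; rfl
  have h2 : (rev M.hsymm e = rev M.hsymm c) ↔ (e = c) := by
    constructor
    · intro h; exact (rev M.hsymm).injective h
    · rintro rfl; rfl
  rw [if_congr h1 rfl rfl, if_congr h2 rfl rfl]
  ring

theorem ef_sum (c : Dt M.adj) (w : ι → ℤ) :
    ∑ᶠ e : Dt M.adj, M.ef c e * w e.1.1 = w c.1.1 - w c.1.2 := by
  classical
  rw [finsum_eq_sum_of_fintype]
  unfold ef
  have h1 : ∀ e : Dt M.adj, ((if e = c then (1 : ℤ) else 0) -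
      (if e = rev M.hsymm c then 1 else 0)) * w e.1.1 =
      (if e = c then w c.1.1 else 0) - (if e = rev M.hsymm c then w c.1.2 else 0) := by
    intro e
    by_cases h1 : e = c
    · subst h1
      have h2 : e ≠ rev M.hsymm e := fun h => M.rev_ne e h.symm
      simp [h2]
    · by_cases h2 : e = rev M.hsymm c
      · subst h2
        have h3 : (rev M.hsymm c).1.1 = c.1.2 := rfl
        simp [h1, h3]
      · simp [h1, h2]
  rw [Finset.sum_congr rfl fun e _ => h1 e, Finset.sum_sub_distrib]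
  simp

/-- sums of flows -/
theorem flow_add (z z' : Dt M.adj → ℤ) (w : ι → ℤ) :
    ∑ᶠ e : Dt M.adj, (z e + z' e) * w e.1.1 =
      ∑ᶠ e : Dt M.adj, z e * w e.1.1 + ∑ᶠ e : Dt M.adj, z' e * w e.1.1 := by
  classical
  simp only [finsum_eq_sum_of_fintype]
  rw [← Finset.sum_add_distrib]
  exact Finset.sum_congr rfl fun e _ => by ring

theorem flow {S : ι → Prop} {a b : ι} (h : M.Conn S a b) :
    ∃ z : Dt M.adj → ℤ, (∀ d, z (rev M.hsymm d) = - z d) ∧
      (∀ e : Dt M.adj, S e.1.1 ∨ S e.1.2 → z e = 0) ∧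
      ∀ w : ι → ℤ, ∑ᶠ e : Dt M.adj, z e * w e.1.1 = w a - w b := by
  classical
  unfold Conn at h
  induction h with
  | refl =>
    refine ⟨fun _ => 0, fun _ => by simp, fun _ _ => rfl, fun w => ?_⟩
    simp
  | @tail b c _ hbc ih =>
    obtain ⟨z, h1, h2, h3⟩ := ih
    set e0 : Dt M.adj := ⟨(b, c), hbc.1⟩ with he0
    refine ⟨fun e => z e + M.ef e0 e, fun d => ?_, fun e he => ?_, fun w => ?_⟩
    · simp only [h1, M.ef_rev]; ring
    · simp only [h2 e he, zero_add]
      unfold ef
      have n1 : e ≠ e0 := by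
        rintro rfl
        rcases he with he | he
        · exact hbc.2.1 he
        · exact hbc.2.2 he
      have n2 : e ≠ rev M.hsymm e0 := by
        rintro rfl
        rcases he with he | he
        · exact hbc.2.2 he
        · exact hbc.2.1 he
      rw [if_neg n1, if_neg n2]; rfl
    · rw [M.flow_add, h3, M.ef_sum]
      change w a - w b + (w b - w c) = w a - w c
      ring

/-- the potential around a vertex -/
theorem g_step {g : Dt M.adj → ℝ} {z : Dt M.adj → ℤ} (hg1 : ∀ d, g (M.φ d) = g d)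
    (hg2 : ∀ d, g d - g (rev M.hsymm d) = z d) (e : Dt M.adj) :
    g (M.σ e) = g e + z (M.σ e) := by
  have h1 := hg1 (rev M.hsymm (M.σ e))
  have h2 : M.φ (rev M.hsymm (M.σ e)) = e := by
    unfold φ
    rw [Perm.mul_apply, M.rev_rev]
    exact M.σ.symm_apply_apply e
  rw [h2] at h1
  have h3 := hg2 (M.σ e)
  rw [h1, ← h3]
  ring

/-- going around a vertex -/
theorem g_around {g : Dt M.adj → ℝ} {z : Dt M.adj → ℤ} (hg1 : ∀ d, g (M.φ d) = g d)
    (hg2 : ∀ d, g d - g (rev M.hsymm d) = z d) {d d' : Dt M.adj} (hne : d ≠ d')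
    (hv : d.1.1 = d'.1.1)
    (hz : ∀ e : Dt M.adj, e.1.1 = d.1.1 → e ≠ d → e ≠ d' → z e = 0) :
    g d' = g d + z d' := by
  classical
  obtain ⟨n, -, hn⟩ := (M.htrans d d' hv).exists_pow_eq'
  have hex : ∃ n : ℕ, (M.σ ^ n) d = d' := ⟨n, hn⟩
  set N := Nat.find hex with hN
  have hN1 : (M.σ ^ N) d = d' := Nat.find_spec hex
  have hN2 : ∀ m < N, (M.σ ^ m) d ≠ d' := fun m hm => Nat.find_min hex hm
  have hN0 : N ≠ 0 := by
    intro h
    rw [h] at hN1
    exact hne hN1
  have hst : ∀ m, ((M.σ ^ m) d).1.1 = d.1.1 := by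
    intro m
    induction m with
    | zero => rfl
    | succ m ih => rw [pow_succ', Perm.mul_apply, M.hσ, ih]
  have hnd : ∀ m, 0 < m → m < N → (M.σ ^ m) d ≠ d := by
    intro m hm hmN h
    apply hN2 (N - m) (by omega)
    rw [← hN1]
    conv_rhs => rw [show N = (N - m) + m by omega, pow_add, Perm.mul_apply, h]
  have hc : ∀ m < N, g ((M.σ ^ m) d) = g d := by
    intro m
    induction m with
    | zero => intro _; rfl
    | succ m ih =>
      intro hm
      rw [pow_succ', Perm.mul_apply, M.g_step hg1 hg2, ih (by omega)]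
      have e1 : M.σ ((M.σ ^ m) d) = (M.σ ^ (m + 1)) d := by rw [pow_succ', Perm.mul_apply]
      rw [e1, hz _ (hst _) (hnd _ (by omega) hm) (hN2 _ hm)]
      simp
  obtain ⟨N', hN'⟩ : ∃ N', N = N' + 1 := ⟨N - 1, by omega⟩
  have h1 : M.σ ((M.σ ^ N') d) = d' := by
    rw [← hN1, hN', pow_succ', Perm.mul_apply]
  have h2 := M.g_step hg1 hg2 ((M.σ ^ N') d)
  rw [h1, hc N' (by omega)] at h2
  exact h2

theorem g_sameCycle {g : Dt M.adj → ℝ} (hg1 : ∀ d, g (M.φ d) = g d) {d d' : Dt M.adj}
    (h : M.φ.SameCycle d d') : g d' = g d := by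
  obtain ⟨n, hn⟩ := h
  rw [← hn]
  have key : ∀ n : ℕ, ∀ e, g ((M.φ ^ n) e) = g e := by
    intro n
    induction n with
    | zero => intro e; rfl
    | succ n ih => intro e; rw [pow_succ', Perm.mul_apply, hg1, ih]
  rcases n with n | n
  · exact key n d
  · have h1 := key (n + 1) ((M.φ ^ (Int.negSucc n)) d)
    rw [← h1]
    congr 1
    rw [← Perm.mul_apply, ← zpow_natCast, ← zpow_add]
    have : ((n + 1 : ℕ) : ℤ) + Int.negSucc n = 0 := by omega
    rw [this]
    simp

/-- **Cut vertices.**  If a face visits the vertex `x` twice, along the darts `d` and `d'`, then the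
ends of these darts are not connected outside `x`. -/
theorem cut_vertex {d d' : Dt M.adj} (hne : d ≠ d') (hv : d.1.1 = d'.1.1)
    (hφ : M.φ.SameCycle d d') : ¬ M.Conn (fun p => p = d.1.1) d.1.2 d'.1.2 := by
  classical
  intro hc
  obtain ⟨z0, h1, h2, h3⟩ := M.flow hc
  set z : Dt M.adj → ℤ := fun e => (M.ef d e + z0 e) + M.ef (rev M.hsymm d') e with hz
  have hz1 : ∀ e, z (rev M.hsymm e) = - z e := by
    intro e
    simp only [hz, M.ef_rev, h1]; ring
  have hz2 : ∀ w : ι → ℤ, ∑ᶠ e : Dt M.adj, z e * w e.1.1 = 0 := by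
    intro w
    simp only [hz]
    rw [M.flow_add, M.flow_add, h3, M.ef_sum, M.ef_sum]
    change w d.1.1 - w d.1.2 + (w d.1.2 - w d'.1.2) + (w d'.1.2 - w d'.1.1) = 0
    rw [hv]; ring
  obtain ⟨g, hg1, hg2⟩ := M.hcyc z hz1 hz2
  have hg1' : ∀ d, g (M.φ d) = g d := hg1
  -- values of `z` at the vertex
  have hval : ∀ e : Dt M.adj, e.1.1 = d.1.1 → z e = (if e = d then 1 else 0) -
      (if e = d' then 1 else 0) := by
    intro e he
    have e1 : z0 e = 0 := h2 e (Or.inl he)
    simp only [hz, e1, add_zero]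
    unfold ef
    rw [M.rev_rev]
    have n1 : e ≠ rev M.hsymm d := by
      rintro rfl
      exact M.ne_of_adj d.2 he.symm
    have n2 : e ≠ rev M.hsymm d' := by
      rintro rfl
      exact M.ne_of_adj d'.2 (hv.symm.trans he.symm)
    rw [if_neg n1, if_neg n2]
    ring
  have h4 := M.g_around hg1' hg2 hne hv (by
    intro e he hed hed'
    rw [hval e he, if_neg hed, if_neg hed']; rfl)
  have h5 := M.g_sameCycle hg1' hφ
  have h6 : z d' = -1 := by
    rw [hval d' hv.symm, if_neg (Ne.symm hne), if_pos rfl]; rfl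
  rw [h5, h6] at h4
  simp at h4

/-- **Chords.**  If a face passes the adjacent vertices `x = d.1.1` and `y = d'.1.1`, not along the
edge `x y`, then the next vertices are not connected outside `x, y`. -/
theorem chord {d d' : Dt M.adj} (hxy : M.adj d.1.1 d'.1.1) (h1 : d.1.2 ≠ d'.1.1)
    (h2 : d'.1.2 ≠ d.1.1) (hφ : M.φ.SameCycle d d') :
    ¬ M.Conn (fun p => p = d.1.1 ∨ p = d'.1.1) d.1.2 d'.1.2 := by
  classical
  intro hc
  obtain ⟨z0, f1, f2, f3⟩ := M.flow hc
  set c : Dt M.adj := ⟨(d.1.1, d'.1.1), hxy⟩ with hcdef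
  -- d, z0, rev d', rev c
  set z : Dt M.adj → ℤ := fun e => ((M.ef d e + z0 e) + M.ef (rev M.hsymm d') e) +
    M.ef (rev M.hsymm c) e with hz
  have hz1 : ∀ e, z (rev M.hsymm e) = - z e := by
    intro e
    simp only [hz, M.ef_rev, f1]; ring
  have hz2 : ∀ w : ι → ℤ, ∑ᶠ e : Dt M.adj, z e * w e.1.1 = 0 := by
    intro w
    simp only [hz]
    rw [M.flow_add, M.flow_add, M.flow_add, f3, M.ef_sum, M.ef_sum, M.ef_sum]
    change w d.1.1 - w d.1.2 + (w d.1.2 - w d'.1.2) + (w d'.1.2 - w d'.1.1) +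
      (w d'.1.1 - w d.1.1) = 0
    ring
  obtain ⟨g, hg1, hg2⟩ := M.hcyc z hz1 hz2
  have hg1' : ∀ d, g (M.φ d) = g d := hg1
  have hne : d.1.1 ≠ d'.1.1 := M.ne_of_adj hxy
  have hdc : d ≠ c := by
    intro h
    exact h1 (congrArg (fun d : Dt M.adj => d.1.2) h)
  have hdc' : d' ≠ rev M.hsymm c := by
    intro h
    exact h2 (congrArg (fun d : Dt M.adj => d.1.2) h)
  have hvalx : ∀ e : Dt M.adj, e.1.1 = d.1.1 → z e = (if e = d then 1 else 0) -
      (if e = c then 1 else 0) := by
    intro e he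
    have e1 : z0 e = 0 := f2 e (Or.inl (Or.inl he))
    simp only [hz, e1, add_zero]
    unfold ef
    rw [M.rev_rev, M.rev_rev]
    have n1 : e ≠ rev M.hsymm d := by
      rintro rfl
      exact M.ne_of_adj d.2 he.symm
    have n2 : e ≠ rev M.hsymm d' := by
      rintro rfl
      exact h2 he
    have n3 : e ≠ d' := by
      rintro rfl
      exact hne he.symm
    have n4 : e ≠ rev M.hsymm c := by
      rintro rfl
      exact hne he.symm
    rw [if_neg n1, if_neg n2, if_neg n3, if_neg n4]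
    ring
  have hvaly : ∀ e : Dt M.adj, e.1.1 = d'.1.1 → z e = (if e = rev M.hsymm c then 1 else 0) -
      (if e = d' then 1 else 0) := by
    intro e he
    have e1 : z0 e = 0 := f2 e (Or.inl (Or.inr he))
    simp only [hz, e1, add_zero]
    unfold ef
    rw [M.rev_rev, M.rev_rev]
    have n1 : e ≠ rev M.hsymm d := by
      rintro rfl
      exact h1 he
    have n2 : e ≠ rev M.hsymm d' := by
      rintro rfl
      exact M.ne_of_adj d'.2 he.symm
    have n3 : e ≠ d := by
      rintro rfl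
      exact hne he
    have n4 : e ≠ c := by
      rintro rfl
      exact hne he
    rw [if_neg n1, if_neg n2, if_neg n3, if_neg n4]
    ring
  have h4 := M.g_around (d := d) (d' := c) hg1' hg2 hdc rfl (by
    intro e he hed hed'
    rw [hvalx e he, if_neg hed, if_neg hed']; rfl)
  have h5 := M.g_around (d := rev M.hsymm c) (d' := d') hg1' hg2 (Ne.symm hdc') rfl (by
    intro e he hed hed'
    rw [hvaly e he, if_neg hed, if_neg hed']; rfl)
  have h6 : z c = -1 := by
    rw [hvalx c rfl, if_neg (Ne.symm hdc), if_pos rfl]; rfl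
  have h7 : z d' = -1 := by
    rw [hvaly d' rfl, if_neg hdc', if_pos rfl]; rfl
  have h8 := hg2 c
  have h9 := M.g_sameCycle hg1' hφ
  rw [h6] at h4 h8
  rw [h7] at h5
  push_cast at h4 h5 h8
  linarith

end PMap

end Pool.Agent.Helper15.OC
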