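import Mathlib
import Pool.Agent.Helper15.OC.Jordan
import Pool.Agent.Helper26.OC.St2

/-!
# From plane maps to nerves
-/

set_option autoImplicit false

open Equiv Equiv.Perm Helper5.CR

namespace Pool.Agent.Helper15.OC

open Pool.Agent.Helper26.OC (Nerve)

/-- counting the cycles of a permutation with rational weights -/
theorem mul_nc_le_q {D : Type} [Fintype D] (π : Perm D) (ω : D → ℚ) (K : ℚ)
    (h : ∀ d, ∃ s : Finset D, (∀ e, e ∈ s ↔ π.SameCycle d e) ∧ K ≤ ∑ e ∈ s, ω e) :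
    K * nc π ≤ ∑ d, ω d := by
  classical
  have h1 := Finset.sum_partition (s := (Finset.univ : Finset D)) (SameCycle.setoid π) (f := ω)
  rw [h1]
  have h2 : (Finset.univ : Finset D).image (Quotient.mk (SameCycle.setoid π)) = Finset.univ := by
    ext q
    simp only [Finset.mem_image, Finset.mem_univ, true_and, iff_true]
    exact Quotient.exists_rep q
  rw [h2]
  have h3 : nc π = (Finset.univ : Finset (Quotient (SameCycle.setoid π))).card := by
    rw [Finset.card_univ, nc, Nat.card_eq_fintype_card]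
  rw [h3, mul_comm, ← nsmul_eq_mul, ← Finset.sum_const]
  refine Finset.sum_le_sum fun q _ => ?_
  obtain ⟨d, rfl⟩ := Quotient.exists_rep q
  obtain ⟨s, hs1, hs2⟩ := h d
  refine hs2.trans (le_of_eq ?_)
  apply Finset.sum_congr _ (fun _ _ => rfl)
  ext e
  rw [hs1, Finset.mem_filter]
  constructor
  · intro he
    exact ⟨Finset.mem_univ _, Quotient.sound (s := SameCycle.setoid π) (SameCycle.symm he)⟩
  · rintro ⟨-, he⟩
    exact SameCycle.symm (Quotient.exact (s := SameCycle.setoid π) he)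

/-- the cycle of an element, parametrised -/
theorem exists_cycle {D : Type} [Fintype D] (π : Perm D) (d : D) : ∃ k : ℕ, 0 < k ∧
    (π ^ k) d = d ∧ (∀ i < k, ∀ j < k, (π ^ i) d = (π ^ j) d → i = j) ∧
    ∀ e, π.SameCycle d e ↔ ∃ i < k, (π ^ i) d = e := by
  classical
  have hex : ∃ k : ℕ, 0 < k ∧ (π ^ k) d = d :=
    ⟨orderOf π, orderOf_pos π, by rw [pow_orderOf_eq_one]; rfl⟩
  obtain ⟨hk0, hk⟩ := Nat.find_spec hex
  set k := Nat.find hex with hkd
  have hmin : ∀ m, 0 < m → m < k → (π ^ m) d ≠ d := by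
    intro m hm hmk h
    exact Nat.find_min hex hmk ⟨hm, h⟩
  refine ⟨k, hk0, hk, ?_, ?_⟩
  · have key : ∀ i j, i < j → j < k → (π ^ i) d ≠ (π ^ j) d := by
      intro i j hij hj he
      apply hmin (j - i) (by omega) (by omega)
      have h1 : (π ^ j) d = (π ^ i) ((π ^ (j - i)) d) := by
        rw [← Perm.mul_apply, ← pow_add]; congr 2; omega
      rw [h1] at he
      exact ((π ^ i).injective he).symm
    intro i hi j hj h
    rcases Nat.lt_trichotomy i j with h1 | h1 | h1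
    · exact absurd h (key i j h1 hj)
    · exact h1
    · exact absurd h.symm (key j i h1 hi)
  · intro e
    constructor
    · intro h
      obtain ⟨n, -, hn⟩ := h.exists_pow_eq'
      refine ⟨n % k, Nat.mod_lt _ hk0, ?_⟩
      rw [← hn]
      have hkm : ∀ m : ℕ, (π ^ (k * m)) d = d := by
        intro m
        induction m with
        | zero => simp
        | succ m ih => rw [Nat.mul_succ, pow_add, Perm.mul_apply, hk, ih]
      conv_rhs => rw [← Nat.mod_add_div n k, pow_add, Perm.mul_apply, hkm]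
    · rintro ⟨i, -, rfl⟩
      exact ⟨i, by simp⟩

namespace PMap

variable {κ : Type} [Fintype κ] (M : PMap κ)

open Classical in
/-- the rotation on vertices -/
noncomputable def rt (b y : κ) : κ :=
  if h : M.adj b y then (M.σ ⟨(b, y), h⟩).1.2 else y

/-- window darts -/
def wn (x y : κ) : Prop :=
  ∃ h : M.adj x y, M.φ (M.φ (M.φ ⟨(x, y), h⟩)) ≠ ⟨(x, y), h⟩

theorem rt_spec {b y : κ} (h : M.adj b y) : ∃ h' : M.adj b (M.rt b y),
    M.σ ⟨(b, y), h⟩ = ⟨(b, M.rt b y), h'⟩ := by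
  have h1 : (M.σ ⟨(b, y), h⟩).1.1 = b := M.hσ _
  have h2 : M.rt b y = (M.σ ⟨(b, y), h⟩).1.2 := by unfold rt; rw [dif_pos h]
  refine ⟨?_, ?_⟩
  · rw [h2]
    have := (M.σ ⟨(b, y), h⟩).2
    rw [h1] at this
    exact this
  · exact M.dt_ext h1 h2.symm

/-- the face permutation on vertices -/
theorem φ_rt {x y z : κ} (hxy : M.adj x y) (hyz : M.adj y z) (h : M.rt y z = x) :
    M.φ ⟨(x, y), hxy⟩ = ⟨(y, z), hyz⟩ := by
  rw [M.φ_eq_iff]
  obtain ⟨h', e⟩ := M.rt_spec hyz
  rw [e]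
  exact M.dt_ext rfl h.symm

theorem rt_φ {x y z : κ} {hxy : M.adj x y} {hyz : M.adj y z}
    (h : M.φ ⟨(x, y), hxy⟩ = ⟨(y, z), hyz⟩) : M.rt y z = x := by
  rw [M.φ_eq_iff] at h
  obtain ⟨h', e⟩ := M.rt_spec hyz
  rw [e] at h
  exact (congrArg (fun d : Dt M.adj => d.1.2) h).symm

theorem φ3_iff (d : Dt M.adj) : M.φ (M.φ (M.φ (M.φ d))) = M.φ d ↔ M.φ (M.φ (M.φ d)) = d :=
  M.φ.injective.eq_iff

theorem rt_tri {x y z : κ} (h : Tri M.σ x y z) : M.rt x y = z ∧ M.rt y z = x ∧ M.rt z x = y := by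
  obtain ⟨⟨a1, b1, e1⟩, ⟨a2, b2, e2⟩, ⟨a3, b3, e3⟩⟩ := h
  have key : ∀ {p q r : κ} (a : M.adj p q) (b : M.adj p r), M.σ ⟨(p, q), a⟩ = ⟨(p, r), b⟩ →
      M.rt p q = r := by
    intro p q r a b e
    obtain ⟨h', e'⟩ := M.rt_spec a
    rw [e] at e'
    exact (congrArg (fun d : Dt M.adj => d.1.2) e').symm
  exact ⟨key a1 b1 e1, key a2 b2 e2, key a3 b3 e3⟩

/-- no cut vertex -/
def Blk : Prop := ∀ x a b, a ≠ x → b ≠ x → M.Conn (fun p => p = x) a b

variable {M}

/-- induction along a connection -/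
theorem Conn.ind {S : κ → Prop} {a b : κ} (h : M.Conn S a b) (P : κ → Prop)
    (hP : ∀ p q, ¬ S p → ¬ S q → P p → M.adj p q → P q) (ha : P a) : P b := by
  unfold PMap.Conn at h
  induction h with
  | refl => exact ha
  | tail _ h2 ih => exact hP _ _ h2.2.1 h2.2.2 ih h2.1

variable (M)

/-- The windows as sequences of darts. -/
theorem seq_dart {b : ℕ → κ} (h : ∀ i, M.adj (b i) (b (i + 1)) ∧
    M.rt (b (i + 1)) (b (i + 2)) = b i) (i m : ℕ) :
    (M.φ ^ m) ⟨(b i, b (i + 1)), (h i).1⟩ = ⟨(b (i + m), b (i + m + 1)), (h (i + m)).1⟩ := by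
  induction m with
  | zero => rfl
  | succ m ih =>
    rw [pow_succ', Perm.mul_apply, ih]
    exact M.φ_rt (h (i + m)).1 (h (i + m + 1)).1 (h (i + m)).2

variable [DecidableEq κ]

theorem exists_nerve (hcard : 5 ≤ Fintype.card κ)
    (hK4 : ∀ a b c d, M.adj a b → M.adj a c → M.adj a d → M.adj b c → M.adj b d → M.adj c d → False)
    (hC4 : ∀ a b c d, M.adj a b → M.adj b c → M.adj c d → M.adj d a → a ≠ c → b ≠ d →
      M.adj a c ∨ M.adj b d)
    (hB : M.Blk) : ∃ N : Nerve κ, N.adj = M.adj ∧ N.rot = M.rt ∧ N.win = M.wn := by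
  classical
  -- three different vertices
  have h3 : ∀ a b : κ, ∃ x, x ≠ a ∧ x ≠ b := by
    intro a b
    by_contra hc
    push Not at hc
    have : (Finset.univ : Finset κ) ⊆ {a, b} := by
      intro x _
      by_cases hx : x = a
      · simp [hx]
      · simp [hc x hx]
    have h4 := Finset.card_le_card this
    rw [Finset.card_univ] at h4
    have h5 := Finset.card_le_two (a := a) (b := b)
    omega
  have hconn : ∀ (P : κ → Prop), (∀ a b, P a → M.adj a b → P b) → ∀ a b, P a → P b := by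
    intro P hP a b ha
    obtain ⟨x, hxa, hxb⟩ := h3 a b
    exact (hB x a b hxa.symm hxb.symm).ind P (fun p q _ _ hp hpq => hP p q hp hpq) ha
  have hdel : ∀ (x : κ) (P : κ → Prop), (∀ a b, a ≠ x → b ≠ x → P a → M.adj a b → P b) →
      ∀ a b, a ≠ x → b ≠ x → P a → P b := by
    intro x P hP a b ha hb hPa
    exact (hB x a b ha hb).ind P (fun p q hp hq hPp hpq => hP p q hp hq hPp hpq) hPa
  -- small closed sets
  have hsmall : ∀ s : Finset κ, s.Nonempty → s.card ≤ 4 → (∀ a b, a ∈ s → M.adj a b → b ∈ s) →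
      False := by
    intro s hs hs4 hcl
    obtain ⟨a, ha⟩ := hs
    have : (Finset.univ : Finset κ) ⊆ s := fun b _ => hconn (fun p => p ∈ s) hcl a b ha
    have h4 := Finset.card_le_card this
    rw [Finset.card_univ] at h4
    omega
  -- the degree is at least two
  have hσne : ∀ d : Dt M.adj, M.σ d ≠ d := by
    intro d hd
    have h1 : ∀ y, M.adj d.1.1 y → y = d.1.2 := fun y hy => M.deg_one hd hy
    obtain ⟨x, hx1, hx2⟩ := h3 d.1.1 d.1.2
    have hne : d.1.1 ≠ d.1.2 := M.ne_of_adj d.2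
    have := hdel d.1.2 (fun p => p = d.1.1) (by
      rintro a b ha hb rfl hab
      exact absurd (h1 b hab) hb) d.1.1 x hne hx2 rfl
    exact hx1 this
  have hrotind : ∀ {b y : κ} (P : κ → Prop), M.adj b y → P y →
      (∀ z, M.adj b z → P z → P (M.rt b z)) → ∀ z, M.adj b z → P z := by
    intro b y P hby hP hcl z hbz
    obtain ⟨n, -, hn⟩ := (M.htrans ⟨(b, y), hby⟩ ⟨(b, z), hbz⟩ rfl).exists_pow_eq'
    have key : ∀ n : ℕ, ∃ h : M.adj b ((M.σ ^ n) ⟨(b, y), hby⟩).1.2,
        (M.σ ^ n) ⟨(b, y), hby⟩ = ⟨(b, ((M.σ ^ n) ⟨(b, y), hby⟩).1.2), h⟩ ∧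
        P ((M.σ ^ n) ⟨(b, y), hby⟩).1.2 := by
      intro n
      induction n with
      | zero => exact ⟨hby, rfl, hP⟩
      | succ n ih =>
        obtain ⟨h1, h2, h3⟩ := ih
        have h4 : (M.σ ^ (n + 1)) ⟨(b, y), hby⟩ = M.σ ((M.σ ^ n) ⟨(b, y), hby⟩) := by
          rw [pow_succ', Perm.mul_apply]
        obtain ⟨h5, h6⟩ := M.rt_spec h1
        rw [← h2] at h6
        rw [h4]
        rw [h6]
        exact ⟨h5, rfl, hcl _ h1 h3⟩
    obtain ⟨h1, h2, h3⟩ := key n
    rw [hn] at h3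
    exact h3
  have hcut : ∀ b : ℕ → κ, (∀ i, M.adj (b i) (b (i + 1)) ∧ M.rt (b (i + 1)) (b (i + 2)) = b i ∧
      M.wn (b i) (b (i + 1))) → ∀ i j, b i = b j → b (i + 1) = b (j + 1) := by
    intro b hb
    have hb' : ∀ i, M.adj (b i) (b (i + 1)) ∧ M.rt (b (i + 1)) (b (i + 2)) = b i :=
      fun i => ⟨(hb i).1, (hb i).2.1⟩
    have key : ∀ i m, b i = b (i + m) → b (i + 1) = b (i + m + 1) := by
      intro i m h
      by_contra hne
      set d : Dt M.adj := ⟨(b i, b (i + 1)), (hb i).1⟩ with hd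
      set d' : Dt M.adj := ⟨(b (i + m), b (i + m + 1)), (hb (i + m)).1⟩ with hd'
      have h1 : M.φ.SameCycle d d' := ⟨m, by
        rw [zpow_natCast]
        exact M.seq_dart hb' i m⟩
      have h2 : d ≠ d' := by
        intro h
        exact hne (congrArg (fun d : Dt M.adj => d.1.2) h)
      refine M.cut_vertex h2 h h1 (hB _ _ _ ?_ ?_)
      · exact (M.ne_of_adj d.2).symm
      · change b (i + m + 1) ≠ b i
        rw [h]
        exact (M.ne_of_adj (hb (i + m)).1).symm
    intro i j h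
    rcases le_total i j with hij | hij
    · obtain ⟨m, rfl⟩ := Nat.exists_eq_add_of_le hij
      exact key i m h
    · obtain ⟨m, rfl⟩ := Nat.exists_eq_add_of_le hij
      exact (key j m h.symm).symm
  have htri : ∀ {x y z : κ}, M.adj x y → M.adj y z → M.adj x z →
      (M.rt x y = z ∧ ¬ M.wn x y) ∨ (M.rt x z = y ∧ ¬ M.wn x z) := by
    intro x y z hxy hyz hxz
    rcases M.htri x y z hxy hyz hxz with h | h
    · left
      refine ⟨(M.rt_tri h).1, ?_⟩
      rintro ⟨h1, h2⟩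
      exact h2 (M.φ3_of_tri h h1)
    · right
      refine ⟨(M.rt_tri h).1, ?_⟩
      rintro ⟨h1, h2⟩
      exact h2 (M.φ3_of_tri h h1)
  have htriof : ∀ {x y : κ}, M.adj x y → ¬ M.wn x y →
      M.adj y (M.rt x y) ∧ M.rt y (M.rt x y) = x ∧ M.rt (M.rt x y) x = y := by
    intro x y hxy hw
    have h1 : M.φ (M.φ (M.φ ⟨(x, y), hxy⟩)) = ⟨(x, y), hxy⟩ := by
      by_contra hne
      exact hw ⟨hxy, hne⟩
    have h2 := M.tri_of_φ3 h1
    obtain ⟨e1, e2, e3⟩ := M.rt_tri h2
    change M.rt x y = _ at e1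
    rw [e1]
    refine ⟨?_, e2, e3⟩
    exact h2.2.1.1
  have hwnext : ∀ {x y z : κ}, M.adj x y → M.adj y z → M.rt y z = x → (M.wn x y ↔ M.wn y z) := by
    intro x y z hxy hyz h
    have h1 := M.φ_rt hxy hyz h
    unfold wn
    constructor
    · rintro ⟨h2, h3⟩
      refine ⟨hyz, ?_⟩
      rw [← h1, Ne, M.φ3_iff]
      exact h3
    · rintro ⟨h2, h3⟩
      refine ⟨hxy, ?_⟩
      rw [← h1, Ne, M.φ3_iff] at h3
      exact h3
  -- a window with four corners
  have hK : ∀ p q r s : κ, M.adj p q → M.adj q r → M.adj r s → M.adj s p → M.adj p r →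
      M.rt q r = p → M.rt r s = q → M.rt s p = r → M.rt p q = s → M.wn p q → M.wn r s →
      False := by
    intro p q r s hpq hqr hrs hsp hpr f1 f2 f3 f4 w1 w2
    have t1 : Tri M.σ p r q := by
      rcases M.htri p q r hpq hqr hpr with h | h
      · obtain ⟨h1, h2⟩ := w1
        exact absurd (M.φ3_of_tri h h1) h2
      · exact h
    have t2 : Tri M.σ r p s := by
      rcases M.htri r s p hrs hsp (M.hsymm _ _ hpr) with h | h
      · obtain ⟨h1, h2⟩ := w2
        exact absurd (M.φ3_of_tri h h1) h2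
      · exact h
    obtain ⟨g1, g2, g3⟩ := M.rt_tri t1
    obtain ⟨g4, g5, g6⟩ := M.rt_tri t2
    have N1 : ∀ z, M.adj q z → z = p ∨ z = r := by
      apply hrotind (b := q) (y := p) (fun z => z = p ∨ z = r) (M.hsymm _ _ hpq) (Or.inl rfl)
      rintro z - (rfl | rfl)
      · exact Or.inr g3
      · exact Or.inl f1
    have N2 : ∀ z, M.adj s z → z = p ∨ z = r := by
      apply hrotind (b := s) (y := p) (fun z => z = p ∨ z = r) hsp (Or.inl rfl)
      rintro z - (rfl | rfl)
      · exact Or.inr f3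
      · exact Or.inl g6
    have N3 : ∀ z, M.adj p z → z = q ∨ z = r ∨ z = s := by
      apply hrotind (b := p) (y := q) (fun z => z = q ∨ z = r ∨ z = s) hpq (Or.inl rfl)
      rintro z - (rfl | rfl | rfl)
      · exact Or.inr (Or.inr f4)
      · exact Or.inl g1
      · exact Or.inr (Or.inl g5)
    have N4 : ∀ z, M.adj r z → z = q ∨ z = p ∨ z = s := by
      apply hrotind (b := r) (y := q) (fun z => z = q ∨ z = p ∨ z = s) (M.hsymm _ _ hqr)
        (Or.inl rfl)
      rintro z - (rfl | rfl | rfl)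
      · exact Or.inr (Or.inl g2)
      · exact Or.inr (Or.inr g4)
      · exact Or.inl f2
    apply hsmall {p, q, r, s} ⟨p, by simp⟩ Finset.card_le_four
    intro a c ha hac
    simp only [Finset.mem_insert, Finset.mem_singleton] at ha ⊢
    rcases ha with rfl | rfl | rfl | rfl
    · have := N3 c hac; tauto
    · have := N1 c hac; tauto
    · have := N4 c hac; tauto
    · have := N2 c hac; tauto
  have hlen3 : ∀ b : ℕ → κ, (∀ i, M.adj (b i) (b (i + 1)) ∧ M.rt (b (i + 1)) (b (i + 2)) = b i ∧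
      M.wn (b i) (b (i + 1))) → ∀ i m, 0 < m → m < 4 → b (i + m) ≠ b i := by
    intro b hb i m hm0 hm5 he
    have hb' : ∀ i, M.adj (b i) (b (i + 1)) ∧ M.rt (b (i + 1)) (b (i + 2)) = b i :=
      fun i => ⟨(hb i).1, (hb i).2.1⟩
    have he' : b (i + m + 1) = b (i + 1) := hcut b hb _ _ he
    set d : Dt M.adj := ⟨(b i, b (i + 1)), (hb i).1⟩ with hd
    have hφm : (M.φ ^ m) d = d := by
      rw [M.seq_dart hb' i m]
      exact M.dt_ext he he'
    have hm : m = 1 ∨ m = 2 ∨ m = 3 := by omega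
    rcases hm with rfl | rfl | rfl
    · rw [pow_one] at hφm
      exact M.φ_ne d hφm
    · have h1 : M.φ (M.φ d) = d := hφm
      obtain ⟨h2, h4⟩ := M.φ2 h1
      apply hsmall {d.1.1, d.1.2} ⟨d.1.1, by simp⟩
      · exact (Finset.card_le_two).trans (by norm_num)
      · intro a c ha hac
        rw [Finset.mem_insert, Finset.mem_singleton] at ha
        rw [Finset.mem_insert, Finset.mem_singleton]
        rcases ha with rfl | rfl
        · right; exact h2 c hac
        · left; exact h4 c hac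
    · obtain ⟨h1, h2⟩ := (hb i).2.2
      exact h2 hφm
  have hlen : ∀ b : ℕ → κ, (∀ i, M.adj (b i) (b (i + 1)) ∧ M.rt (b (i + 1)) (b (i + 2)) = b i ∧
      M.wn (b i) (b (i + 1))) → ∀ i m, 0 < m → m < 5 → b (i + m) ≠ b i := by
    intro b hb i m hm0 hm5 he
    have hm : m < 4 ∨ m = 4 := by omega
    rcases hm with hm | rfl
    · exact hlen3 b hb i m hm0 hm he
    have he' : b (i + 4 + 1) = b (i + 1) := hcut b hb _ _ he
    have he'' : b (i + 4 + 1 + 1) = b (i + 1 + 1) := hcut b hb _ _ he'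
    have a0 := (hb i).1
    have a1 := (hb (i + 1)).1
    have a2 := (hb (i + 2)).1
    have a3 := (hb (i + 3)).1
    have r0 := (hb i).2.1
    have r1 := (hb (i + 1)).2.1
    have r2 := (hb (i + 2)).2.1
    have r3 := (hb (i + 3)).2.1
    have w0 := (hb i).2.2
    have w1 := (hb (i + 1)).2.2
    have w2 := (hb (i + 2)).2.2
    have w3 := (hb (i + 3)).2.2
    simp only [add_assoc, Nat.reduceAdd] at a1 a2 a3 r0 r1 r2 r3 w1 w2 w3 he he' he''
    rw [he] at a3 r2 r3 w3
    rw [he'] at r3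
    have n1 : b i ≠ b (i + 2) := (hlen3 b hb i 2 (by norm_num) (by norm_num)).symm
    have n2 : b (i + 1) ≠ b (i + 3) := by
      have := (hlen3 b hb (i + 1) 2 (by norm_num) (by norm_num)).symm
      simpa only [add_assoc, Nat.reduceAdd] using this
    rcases hC4 _ _ _ _ a0 a1 a2 a3 n1 n2 with h | h
    · exact hK _ _ _ _ a0 a1 a2 a3 h r0 r1 r2 r3 w0 w2
    · exact hK _ _ _ _ a1 a2 a3 a0 h r1 r2 r3 r0 w1 w3
  refine ⟨{ adj := M.adj, symm := fun {a b} h => M.hsymm a b h, irr := M.hirr, noK4 := fun {a b c d} => hK4 a b c d, noC4 := fun {a b c d} => hC4 a b c d, rot := M.rt, rot_adj := fun {b y} h => (M.rt_spec h).1, rot_inj := ?_, rot_ne := ?_, rot_ind := hrotind, win := M.wn, win_next := hwnext, tri_of := htriof, tri := htri, conn_del := hdel, conn := hconn, cut := hcut, len5 := hlen }, rfl, rfl, rfl⟩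
  · intro b y z hby hbz h
    obtain ⟨h1, e1⟩ := M.rt_spec hby
    obtain ⟨h2, e2⟩ := M.rt_spec hbz
    have : M.σ ⟨(b, y), hby⟩ = M.σ ⟨(b, z), hbz⟩ := by
      rw [e1, e2]
      exact M.dt_ext rfl h
    exact congrArg (fun d : Dt M.adj => d.1.2) (M.σ.injective this)
  · intro b y hby h
    obtain ⟨h1, e1⟩ := M.rt_spec hby
    apply hσne ⟨(b, y), hby⟩
    rw [e1]
    exact M.dt_ext rfl h

end PMap

end Pool.Agent.Helper15.OC
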