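import Mathlib
import Pool.Agent.Helper15.OC.ToNerve

/-!
# Euler's formula for the nerve of a plane map
-/

set_option autoImplicit false

open Equiv Equiv.Perm Helper5.CR

namespace Pool.Agent.Helper15.OC

open Pool.Agent.Helper26.OC (Nerve)

namespace PMap

variable {κ : Type} [Fintype κ] (M : PMap κ)

open Classical in
theorem sumD (F : κ → κ → ℚ) : ∑ e : Dt M.adj, F e.1.1 e.1.2 =
    ∑ b, ∑ w, (if M.adj b w then F b w else 0) := by
  have h1 : ∑ e : Dt M.adj, F e.1.1 e.1.2 =
      ∑ p ∈ (Finset.univ : Finset (κ × κ)).filter (fun p => M.adj p.1 p.2), F p.1 p.2 := by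
    symm
    exact Finset.sum_subtype (p := fun p : κ × κ => M.adj p.1 p.2) _ (fun x => by simp)
      (fun p : κ × κ => F p.1 p.2)
  rw [h1, Finset.sum_filter, ← Finset.univ_product_univ, Finset.sum_product]

variable [DecidableEq κ]

theorem nerve_euler (N : Nerve κ) (h1 : N.adj = M.adj) (h2 : N.rot = M.rt) (h3 : N.win = M.wn)
    (hne : Nonempty (Dt M.adj)) : N.Euler := by
  classical
  -- window sequences
  have hseq : ∀ d : Dt M.adj, M.wn d.1.1 d.1.2 → ∀ f : ℕ → κ, (∀ i, f i = ((M.φ ^ i) d).1.1) →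
      ∀ i, M.adj (f i) (f (i + 1)) ∧ M.rt (f (i + 1)) (f (i + 2)) = f i ∧
        M.wn (f i) (f (i + 1)) := by
    intro d hd f hf
    have e1 : ∀ i, f (i + 1) = ((M.φ ^ i) d).1.2 := by
      intro i
      rw [hf, pow_succ', Perm.mul_apply, M.φ_fst]
    have hw : ∀ i, M.wn ((M.φ ^ i) d).1.1 ((M.φ ^ i) d).1.2 := by
      intro i
      induction i with
      | zero => exact hd
      | succ i ih =>
        obtain ⟨a, b⟩ := ih
        refine ⟨((M.φ ^ (i + 1)) d).2, ?_⟩
        have : (⟨(((M.φ ^ (i + 1)) d).1.1, ((M.φ ^ (i + 1)) d).1.2), ((M.φ ^ (i + 1)) d).2⟩ :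
          Dt M.adj) = M.φ ((M.φ ^ i) d) := by
          rw [← Perm.mul_apply, ← pow_succ']
        rw [this, Ne, M.φ3_iff]
        exact b
    intro i
    have e2 := e1 i
    have e3 := e1 (i + 1)
    have e0 := hf i
    refine ⟨?_, ?_, ?_⟩
    · rw [e0, e2]; exact ((M.φ ^ i) d).2
    · have a1 : M.adj (f i) (f (i + 1)) := by rw [e0, e2]; exact ((M.φ ^ i) d).2
      have a2 : M.adj (f (i + 1)) (f (i + 1 + 1)) := by
        rw [hf (i + 1), e3]; exact ((M.φ ^ (i + 1)) d).2
      refine M.rt_φ (hxy := a1) (hyz := a2) ?_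
      have b1 : (⟨(f i, f (i + 1)), a1⟩ : Dt M.adj) = (M.φ ^ i) d := M.dt_ext e0 e2
      have b2 : (⟨(f (i + 1), f (i + 1 + 1)), a2⟩ : Dt M.adj) = (M.φ ^ (i + 1)) d :=
        M.dt_ext (hf (i + 1)) e3
      rw [b1, b2, pow_succ', Perm.mul_apply]
    · rw [e0, e2]; exact hw i
  have hdt : ∀ b w, M.adj b w ↔ N.adj b w := fun b w => by rw [h1]
  have hwt : ∀ b w, M.wn b w ↔ N.win b w := fun b w => by rw [h3]
  have hwin : ∀ d : Dt M.adj, M.wn d.1.1 d.1.2 → ∀ k : ℕ, 0 < k → (M.φ ^ k) d = d →
      (∀ i < k, ∀ j < k, (M.φ ^ i) d = (M.φ ^ j) d → i = j) →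
      N.IsWin k (fun i => ((M.φ ^ i) d).1.1) := by
    intro d hd k hk0 hk hinj
    set f : ℕ → κ := fun i => ((M.φ ^ i) d).1.1 with hf
    have hs := hseq d hd f (fun i => rfl)
    have hs' : ∀ i, N.adj (f i) (f (i + 1)) ∧ N.rot (f (i + 1)) (f (i + 2)) = f i ∧
        N.win (f i) (f (i + 1)) := by
      rw [h1, h2, h3]; exact hs
    have hper : ∀ i, f (i + k) = f i := by
      intro i
      change ((M.φ ^ (i + k)) d).1.1 = ((M.φ ^ i) d).1.1
      rw [pow_add, Perm.mul_apply, hk]
    refine ⟨?_, ?_, hper, ?_⟩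
    · by_contra hc
      rw [not_le] at hc
      exact N.len5 f hs' 0 k hk0 hc (hper 0)
    · intro i
      exact ⟨(hs' i).1, (hs' (i + 1)).1, (hs' i).2.1, (hs' i).2.2, (hs' (i + 1)).2.2⟩
    · intro i hi j hj hij
      apply hinj i hi j hj
      have h5 := N.cut f hs' i j hij
      apply M.dt_ext hij
      have e1 : ∀ i, f (i + 1) = ((M.φ ^ i) d).1.2 := by
        intro i
        change ((M.φ ^ (i + 1)) d).1.1 = _
        rw [pow_succ', Perm.mul_apply, M.φ_fst]
      rw [← e1, ← e1]; exact h5
  -- the first part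
  have part1 : ∀ g : κ → κ → κ → ℚ,
      (∀ k f, N.IsWin k f → 9 ≤ ∑ i ∈ Finset.range k, g (f i) (f (i + 1)) (f (i + 2))) →
      6 - (Fintype.card κ : ℚ) ≤ N.LL + ∑ b, ∑ w ∈ N.wd b, (g (N.rot b w) b w - 2) := by
    intro g hg
    set ω : Dt M.adj → ℚ := fun e => if M.wn e.1.1 e.1.2 then g (M.rt e.1.1 e.1.2) e.1.1 e.1.2
      else 3 with hω
    have hA : (9 : ℚ) * nc M.φ ≤ ∑ d, ω d := by
      apply mul_nc_le_q
      intro d
      obtain ⟨k, hk0, hk, hinj, hcyc⟩ := exists_cycle M.φ d
      refine ⟨(Finset.range k).image (fun i => (M.φ ^ i) d), ?_, ?_⟩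
      · intro e
        rw [Finset.mem_image, hcyc]
        simp only [Finset.mem_range]
      · rw [Finset.sum_image (by
          intro i hi j hj h
          rw [SetLike.mem_coe, Finset.mem_range] at hi hj
          exact hinj i hi j hj h)]
        by_cases hd : M.wn d.1.1 d.1.2
        · have hW := hwin d hd k hk0 hk hinj
          have h9 := hg k _ hW
          have hs := hseq d hd (fun i => ((M.φ ^ i) d).1.1) (fun i => rfl)
          have e2 : ∀ i, ω ((M.φ ^ (i + 1)) d) = g ((M.φ ^ i) d).1.1 ((M.φ ^ (i + 1)) d).1.1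
              ((M.φ ^ (i + 2)) d).1.1 := by
            intro i
            have e1 : ∀ i, ((M.φ ^ (i + 1)) d).1.1 = ((M.φ ^ i) d).1.2 := by
              intro i
              rw [pow_succ', Perm.mul_apply, M.φ_fst]
            have b1 := (hs i).2.1
            have b2 := (hs (i + 1)).2.2
            rw [e1 (i + 1)] at b1 b2
            simp only [hω]
            rw [if_pos b2, b1, e1 (i + 1)]
          have e3 : ∑ i ∈ Finset.range k, ω ((M.φ ^ (i + 1)) d) =
              ∑ i ∈ Finset.range k, ω ((M.φ ^ i) d) := by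
            have q1 := Finset.sum_range_succ (fun i : ℕ => ω ((M.φ ^ i) d)) k
            have q2 := Finset.sum_range_succ' (fun i : ℕ => ω ((M.φ ^ i) d)) k
            rw [q2, hk] at q1
            simp only [pow_zero, Perm.one_apply] at q1
            linarith
          rw [← e3]
          refine h9.trans (le_of_eq ?_)
          apply Finset.sum_congr rfl
          intro i _
          rw [e2]
        · have hφ3 : (M.φ ^ 3) d = d := by
            by_contra hc
            exact hd ⟨d.2, hc⟩
          have hw : ∀ i, ¬ M.wn ((M.φ ^ i) d).1.1 ((M.φ ^ i) d).1.2 := by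
            rintro i ⟨h5, h6⟩
            apply h6
            have : (⟨(((M.φ ^ i) d).1.1, ((M.φ ^ i) d).1.2), h5⟩ : Dt M.adj) = (M.φ ^ i) d := rfl
            rw [this]
            change (M.φ ^ 3) ((M.φ ^ i) d) = (M.φ ^ i) d
            rw [← Perm.mul_apply, ← pow_add, add_comm, pow_add, Perm.mul_apply, hφ3]
          have hk3 : k = 3 := by
            have n1 : k ≠ 1 := by
              rintro rfl
              rw [pow_one] at hk
              exact M.φ_ne d hk
            have n2 : k ≠ 2 := by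
              rintro rfl
              rw [show (3 : ℕ) = 1 + 2 by rfl, pow_add, Perm.mul_apply, hk, pow_one] at hφ3
              exact M.φ_ne d hφ3
            by_contra hne3
            have h7 : 3 < k := by omega
            have := hinj 0 hk0 3 h7 (by rw [hφ3]; rfl)
            omega
          have h8 : ∀ i ∈ Finset.range k, ω ((M.φ ^ i) d) = 3 := by
            intro i _
            simp only [hω]
            rw [if_neg (hw i)]
          rw [Finset.sum_congr rfl h8, Finset.sum_const, Finset.card_range, hk3]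
          norm_num
    -- Euler
    have hE := M.euler
    have hE1 : nc M.σ ≤ Fintype.card κ := by
      rw [← Finset.card_univ]
      exact nc_le_card M.σ (fun d => d.1.1) Finset.univ (fun _ => Finset.mem_univ _)
        (fun d e h => M.htrans d e h)
    have hE2 := M.card_rev
    have hE3 := M.card_pos hne
    have hφ : M.σ⁻¹ * rev M.hsymm = M.φ := rfl
    rw [hφ] at hE
    -- sums over darts
    have s1 : ∑ b, (N.G b : ℚ) = ∑ e : Dt M.adj, (1 : ℚ) := by
      rw [M.sumD (fun _ _ => 1)]
      apply Finset.sum_congr rfl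
      intro b _
      unfold Nerve.G
      rw [Finset.card_filter]
      push_cast
      rw [h1]
    have s2 : ∑ b, (N.a b : ℚ) = ∑ e : Dt M.adj, (if M.wn e.1.1 e.1.2 then (1 : ℚ) else 0) := by
      rw [M.sumD (fun b w => if M.wn b w then 1 else 0)]
      apply Finset.sum_congr rfl
      intro b _
      unfold Nerve.a
      rw [Finset.card_filter]
      push_cast
      rw [h1, h3]
      apply Finset.sum_congr rfl
      intro w _
      by_cases q1 : M.adj b w
      · by_cases q2 : M.wn b w
        · simp [q1, q2]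
        · simp [q1, q2]
      · simp [q1]
    have s3 : ∑ b, ∑ w ∈ N.wd b, (g (N.rot b w) b w - 2) =
        ∑ e : Dt M.adj, (if M.wn e.1.1 e.1.2 then (g (M.rt e.1.1 e.1.2) e.1.1 e.1.2 - 2) else 0) := by
      rw [M.sumD (fun b w => if M.wn b w then (g (M.rt b w) b w - 2) else 0)]
      apply Finset.sum_congr rfl
      intro b _
      unfold Nerve.wd
      rw [Finset.sum_filter, h1, h2, h3]
      apply Finset.sum_congr rfl
      intro w _
      by_cases q1 : M.adj b w
      · by_cases q2 : M.wn b w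
        · simp [q1, q2]
        · simp [q1, q2]
      · simp [q1]
    have s4 : ∑ e : Dt M.adj, (if M.wn e.1.1 e.1.2 then (g (M.rt e.1.1 e.1.2) e.1.1 e.1.2 - 2)
        else 0) = ∑ d, ω d - 3 * ∑ e : Dt M.adj, (1 : ℚ) +
          ∑ e : Dt M.adj, (if M.wn e.1.1 e.1.2 then (1 : ℚ) else 0) := by
      rw [Finset.mul_sum, ← Finset.sum_sub_distrib, ← Finset.sum_add_distrib]
      apply Finset.sum_congr rfl
      intro e _
      simp only [hω]
      by_cases q : M.wn e.1.1 e.1.2
      · rw [if_pos q, if_pos q, if_pos q]; ring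
      · rw [if_neg q, if_neg q, if_neg q]; ring
    have s5 : ∑ e : Dt M.adj, (1 : ℚ) = (Nat.card (Dt M.adj) : ℚ) := by
      rw [Finset.sum_const, Finset.card_univ, Nat.card_eq_fintype_card]; simp
    unfold Nerve.LL
    rw [s3, s4, Finset.sum_sub_distrib, s1, s2, s5]
    have c1 : (Nat.card (Dt M.adj) : ℚ) + 2 * 1 ≤ Fintype.card κ + nc (rev M.hsymm) + nc M.φ := by
      have : Nat.card (Dt M.adj) + 2 * 1 ≤ Fintype.card κ + nc (rev M.hsymm) + nc M.φ := by
        omega
      exact_mod_cast this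
    have c2 : 2 * (nc (rev M.hsymm) : ℚ) ≤ (Nat.card (Dt M.adj) : ℚ) := by exact_mod_cast hE2
    linarith
  refine ⟨part1, ?_⟩
  intro k f hf hall
  have hk5 := hf.five
  have hk0 : (0 : ℚ) < k := by
    have : 0 < k := by omega
    exact_mod_cast this
  have hdist : ∀ i m, 0 < m → m < k → f (i + m) ≠ f i := by
    intro i m hm hmk he
    have hmod : ∀ i q, f (i + q * k) = f i := by
      intro i q
      induction q with
      | zero => simp
      | succ q ih => rw [Nat.succ_mul, ← add_assoc, hf.per, ih]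
    have hred : ∀ i, f i = f (i % k) := by
      intro i
      conv_lhs => rw [← Nat.mod_add_div i k, mul_comm]
      rw [hmod]
    rw [hred (i + m), hred i] at he
    have h5 := hf.inj _ (Nat.mod_lt _ (by omega)) _ (Nat.mod_lt _ (by omega)) he
    have h6 : (i + m) ≡ i [MOD k] := h5
    have h7 : m ≡ 0 [MOD k] := by
      have : i + m ≡ i + 0 [MOD k] := by simpa using h6
      exact Nat.ModEq.add_left_cancel' i this
    have h8 := (Nat.modEq_zero_iff_dvd).1 h7
    have := Nat.le_of_dvd hm h8
    omega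
  have hp := part1 (fun _ _ _ => 9 / k) (by
    intro k' f' hf'
    rw [Finset.sum_const, Finset.card_range, nsmul_eq_mul]
    have hle : k ≤ k' := by
      obtain ⟨i, hi1, hi2⟩ := hall (f' 0) (f' 1) (hf'.cor 0).1 (hf'.cor 0).2.2.2.1
      have key : ∀ j, f' j = f (i + j) ∧ f' (j + 1) = f (i + j + 1) := by
        intro j
        induction j with
        | zero => exact ⟨hi1.symm, hi2.symm⟩
        | succ j ih =>
          refine ⟨ih.2, ?_⟩
          have c1 := hf'.cor j
          have c2 := hf.cor (i + j)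
          have e1 : f' (j + 1) = f (i + j + 1) := ih.2
          have a1 : N.adj (f (i + j + 1)) (f' (j + 2)) := by rw [← e1]; exact c1.2.1
          apply N.rot_inj a1 c2.2.1
          have r1 := c1.2.2.1
          have r2 := c2.2.2.1
          rw [e1] at r1
          rw [r1, r2]
          exact ih.1
      by_contra hc
      rw [not_le] at hc
      have hk'0 : 0 < k' := by have := hf'.five; omega
      apply hdist i k' hk'0 hc
      rw [← (key k').1]
      have h5 := hf'.per 0
      rw [zero_add] at h5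
      rw [h5]
      exact (key 0).1
    have hle' : (k : ℚ) ≤ k' := by exact_mod_cast hle
    rw [mul_div_assoc', le_div_iff₀ hk0]
    linarith)
  have hcnt : k ≤ ∑ b, (N.wd b).card := by
    rw [← Finset.card_sigma]
    conv_lhs => rw [← Finset.card_range k]
    apply Finset.card_le_card_of_injOn (fun i => (⟨f i, f (i + 1)⟩ : (_ : κ) × κ))
    · intro i _
      rw [SetLike.mem_coe, Finset.mem_sigma]
      refine ⟨Finset.mem_univ _, ?_⟩
      unfold Nerve.wd
      rw [Finset.mem_filter]
      exact ⟨Finset.mem_univ _, (hf.cor i).1, (hf.cor i).2.2.2.1⟩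
    · intro i hi j hj h
      rw [SetLike.mem_coe, Finset.mem_range] at hi hj
      exact hf.inj i hi j hj (congrArg (fun p : (_ : κ) × κ => p.1) h)
  have hsum : ∑ b, ∑ w ∈ N.wd b, ((9 : ℚ) / k - 2) = (∑ b, (N.wd b).card : ℕ) * ((9 : ℚ) / k - 2) := by
    push_cast
    rw [Finset.sum_mul]
    apply Finset.sum_congr rfl
    intro b _
    rw [Finset.sum_const, nsmul_eq_mul]
  rw [hsum] at hp
  have hcnt' : (k : ℚ) ≤ (∑ b, (N.wd b).card : ℕ) := by exact_mod_cast hcnt
  have hneg : (9 : ℚ) / k - 2 ≤ 0 := by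
    rw [sub_nonpos, div_le_iff₀ hk0]
    have : (5 : ℚ) ≤ k := by exact_mod_cast hk5
    linarith
  have hmul : ((∑ b, (N.wd b).card : ℕ) : ℚ) * ((9 : ℚ) / k - 2) ≤ k * ((9 : ℚ) / k - 2) :=
    mul_le_mul_of_nonpos_right hcnt' hneg
  have heq : (k : ℚ) * ((9 : ℚ) / k - 2) = 9 - 2 * k := by
    field_simp
  rw [heq] at hmul
  linarith

/-- **Plane maps without cut vertices are nerves.** -/
theorem to_nerve (hcard : 5 ≤ Fintype.card κ)
    (hK4 : ∀ a b c d, M.adj a b → M.adj a c → M.adj a d → M.adj b c → M.adj b d → M.adj c d → False)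
    (hC4 : ∀ a b c d, M.adj a b → M.adj b c → M.adj c d → M.adj d a → a ≠ c → b ≠ d →
      M.adj a c ∨ M.adj b d)
    (hB : M.Blk) : ∃ N : Nerve κ, N.adj = M.adj ∧ N.Euler := by
  classical
  obtain ⟨N, e1, e2, e3⟩ := M.exists_nerve hcard hK4 hC4 hB
  refine ⟨N, e1, M.nerve_euler N e1 e2 e3 ?_⟩
  -- there is an edge
  have : 1 < Fintype.card κ := by omega
  obtain ⟨a, b, hab⟩ := Fintype.exists_pair_of_one_lt_card this
  by_contra hne
  apply hab
  have := N.conn (fun p => p = a) (by
    rintro p q rfl hpq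
    rw [e1] at hpq
    exact absurd ⟨⟨(p, q), hpq⟩⟩ hne) a b rfl
  exact this.symm

end PMap

end Pool.Agent.Helper15.OC
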