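import Mathlib
import Pool.Agent.Helper15.OC.ToEuler
import Pool.Agent.Helper79.OC.Tab

/-!
# Blocks of facets and nerves
-/

set_option autoImplicit false

open Finset

namespace Pool.Agent.Helper15.OC

open Pool.Agent.Helper56.OC (PArr)
open Pool.Agent.Helper26.OC (Nerve)

variable {ι : Type} [DecidableEq ι] (A : PArr ι)

/-- a block in the sense of `PArr.Block` has no cut vertex -/
theorem blk_of_block {V : Finset ι} (hV : A.Block V) (M : PMap {i // i ∈ V})
    (hM : M.adj = fun a b => A.orth a.1 b.1) : M.Blk := by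
  classical
  intro x a b hax hbx
  by_contra hc
  set C : Finset {i // i ∈ V} := univ.filter (fun p => M.Conn (fun p => p = x) a p) with hC
  set V₁ : Finset ι := insert x.1 (C.image (fun p => p.1)) with hV₁
  set V₂ : Finset ι := V \ (C.image (fun p => p.1)) with hV₂
  have hCx : ∀ p ∈ C, p ≠ x := by
    intro p hp
    rw [hC, mem_filter] at hp
    exact hp.2.ind (fun q => q ≠ x) (fun p q _ hq _ _ => hq) hax
  have hmem : ∀ p : {i // i ∈ V}, p.1 ∈ C.image (fun p => p.1) ↔ p ∈ C := by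
    intro p
    rw [mem_image]
    constructor
    · rintro ⟨q, hq, he⟩
      rwa [← Subtype.ext he]
    · intro hp; exact ⟨p, hp, rfl⟩
  have haC : a ∈ C := by
    rw [hC, mem_filter]
    exact ⟨mem_univ _, Relation.ReflTransGen.refl⟩
  have hbC : b ∉ C := by
    rw [hC, mem_filter]
    exact fun h => hc h.2
  have hxC : x ∉ C := fun h => hCx x h rfl
  have hCV : C.image (fun p => p.1) ⊆ V := by
    intro i hi
    rw [mem_image] at hi
    obtain ⟨p, -, rfl⟩ := hi
    exact p.2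
  refine hV.2 V₁ V₂ ?_ ?_ ?_ ?_ ?_
  · rw [hV₁, hV₂]
    ext i
    rw [mem_union, mem_insert, mem_sdiff]
    constructor
    · rintro ((rfl | h) | h)
      · exact x.2
      · exact hCV h
      · exact h.1
    · intro h
      by_cases hi : i ∈ C.image (fun p => p.1)
      · exact Or.inl (Or.inr hi)
      · exact Or.inr ⟨h, hi⟩
  · have : V₁ ∩ V₂ ⊆ {x.1} := by
      intro i hi
      rw [hV₁, hV₂, mem_inter, mem_insert, mem_sdiff] at hi
      rw [mem_singleton]
      rcases hi.1 with h | h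
      · exact h
      · exact absurd h hi.2.2
    exact (card_le_card this).trans (by rw [card_singleton])
  · refine ⟨a.1, ?_⟩
    rw [mem_sdiff, hV₁, hV₂, mem_insert, mem_sdiff]
    exact ⟨Or.inr ((hmem a).2 haC), fun h => h.2 ((hmem a).2 haC)⟩
  · refine ⟨b.1, ?_⟩
    rw [mem_sdiff, hV₁, hV₂, mem_insert, mem_sdiff, hmem]
    refine ⟨⟨b.2, hbC⟩, ?_⟩
    rintro (h | h)
    · exact hbx (Subtype.ext h)
    · exact hbC h
  · intro i hi j hj hor
    rw [mem_sdiff, hV₁, hV₂, mem_insert, mem_sdiff] at hi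
    rw [mem_sdiff, hV₁, hV₂, mem_insert, mem_sdiff] at hj
    obtain ⟨hi1, hi2⟩ := hi
    obtain ⟨⟨hjV, hjC⟩, hj2⟩ := hj
    have hjx : j ≠ x.1 := fun h => hj2 (Or.inl h)
    have hiC : i ∈ C.image (fun p => p.1) := by
      rcases hi1 with rfl | h
      · by_contra hn
        exact hi2 ⟨x.2, hn⟩
      · exact h
    obtain ⟨p, hp, rfl⟩ := mem_image.1 hiC
    have hq : (⟨j, hjV⟩ : {i // i ∈ V}) ∈ C := by
      have hp' := hp
      rw [hC, mem_filter] at hp' ⊢
      refine ⟨mem_univ _, Relation.ReflTransGen.tail hp'.2 ⟨?_, hCx p hp, ?_⟩⟩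
      · rw [hM]; exact hor
      · exact fun h => hjx (congrArg Subtype.val h)
    exact hjC ((hmem ⟨j, hjV⟩).2 hq)

/-- a block with at least five elements and a plane map gives a nerve -/
theorem block_nerve {V : Finset ι} (hV : A.Block V) (h5 : 5 ≤ V.card)
    (hK4 : ∀ a ∈ V, ∀ b ∈ V, ∀ c ∈ V, ∀ d ∈ V, A.orth a b → A.orth a c → A.orth a d →
      A.orth b c → A.orth b d → A.orth c d → False)
    (hC4 : ∀ a ∈ V, ∀ b ∈ V, ∀ c ∈ V, ∀ d ∈ V, A.orth a b → A.orth b c → A.orth c d →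
      A.orth d a → a ≠ c → b ≠ d → A.orth a c ∨ A.orth b d)
    (M : PMap {i // i ∈ V}) (hM : M.adj = fun a b => A.orth a.1 b.1) :
    ∃ N : Nerve {i // i ∈ V}, (N.adj = fun a b => A.orth a.1 b.1) ∧ N.Euler := by
  obtain ⟨N, h1, h2⟩ := M.to_nerve (by rw [Fintype.card_coe]; exact h5)
    (by
      rw [hM]
      intro a b c d h1 h2 h3 h4 h5 h6
      exact hK4 a a.2 b b.2 c c.2 d d.2 h1 h2 h3 h4 h5 h6)
    (by
      rw [hM]
      intro a b c d h1 h2 h3 h4 h5 h6
      exact hC4 a a.2 b b.2 c c.2 d d.2 h1 h2 h3 h4 (fun h => h5 (Subtype.ext h))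
        (fun h => h6 (Subtype.ext h)))
    (blk_of_block A hV M hM)
  exact ⟨N, h1.trans hM, h2⟩

end Pool.Agent.Helper15.OC
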