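import Mathlib
import Pool.Agent.Helper15.OC.PM

/-!
# Closed families: every edge has exactly two common neighbours
-/

set_option autoImplicit false

open Equiv Equiv.Perm Helper5.CR

namespace Pool.Agent.Helper15.OC

section

variable {κ : Type} [Fintype κ] [DecidableEq κ] (adj : κ → κ → Prop)
  (hsymm : ∀ x y, adj x y → adj y x) (hirr : ∀ x, ¬ adj x x)
  (noK4 : ∀ x y z u, adj x y → adj x z → adj x u → adj y z → adj y u → adj z u → False)
  (noC4 : ∀ x y z u, adj x y → adj y z → adj z u → adj u x → x ≠ z → y ≠ u →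
    adj x z ∨ adj y u)
  (h2 : ∀ x y, adj x y → ∃ u u', u ≠ u' ∧ ∀ t, (adj t x ∧ adj t y) ↔ (t = u ∨ t = u'))

include hsymm hirr noK4 noC4 h2

open Classical in
/-- degrees are at least five -/
theorem closed_deg {x y : κ} (hxy : adj x y) : 5 ≤ (Finset.univ.filter (adj x)).card := by
  -- `y`, its two neighbours in the link, and the next ones
  obtain ⟨a, b, hab, hT⟩ := h2 x y hxy
  have ha := (hT a).2 (Or.inl rfl)
  have hb := (hT b).2 (Or.inr rfl)
  have hxa := hsymm _ _ ha.1
  have hxb := hsymm _ _ hb.1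
  have hnab : ¬ adj a b := fun h => noK4 x y a b hxy hxa hxb (hsymm _ _ ha.2) (hsymm _ _ hb.2) h
  -- the other neighbour of `a` in the link
  obtain ⟨a1, a2, ha12, hTa⟩ := h2 x a hxa
  obtain ⟨c, hc, hcy⟩ : ∃ c, (adj c x ∧ adj c a) ∧ c ≠ y := by
    by_cases h : a1 = y
    · exact ⟨a2, (hTa a2).2 (Or.inr rfl), fun h' => ha12 (h.trans h'.symm)⟩
    · exact ⟨a1, (hTa a1).2 (Or.inl rfl), h⟩
  obtain ⟨b1, b2, hb12, hTb⟩ := h2 x b hxb
  obtain ⟨d, hd, hdy⟩ : ∃ d, (adj d x ∧ adj d b) ∧ d ≠ y := by
    by_cases h : b1 = y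
    · exact ⟨b2, (hTb b2).2 (Or.inr rfl), fun h' => hb12 (h.trans h'.symm)⟩
    · exact ⟨b1, (hTb b1).2 (Or.inl rfl), h⟩
  have hcb : c ≠ b := fun h => hnab (hsymm _ _ (h ▸ hc.2))
  have hda : d ≠ a := fun h => hnab (h ▸ hd.2)
  have hca : c ≠ a := fun h => hirr _ (h ▸ hc.2)
  have hdb : d ≠ b := fun h => hirr _ (h ▸ hd.2)
  have hya : y ≠ a := fun h => hirr _ (h ▸ ha.2)
  have hyb : y ≠ b := fun h => hirr _ (h ▸ hb.2)
  have hncy : ¬ adj c y := by
    intro h
    rcases (hT c).1 ⟨hc.1, h⟩ with h' | h'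
    · exact hca h'
    · exact hcb h'
  have hcd : c ≠ d := by
    intro h
    -- the cycle `y a c b`
    rcases noC4 y a c b (hsymm _ _ ha.2) (hsymm _ _ hc.2) (h ▸ hd.2) hb.2 hcy.symm hab with h' | h'
    · exact hncy (hsymm _ _ h')
    · exact hnab h'
  have hsub : ({y, a, b, c, d} : Finset κ) ⊆ Finset.univ.filter (adj x) := by
    intro t ht
    rw [Finset.mem_filter]
    refine ⟨Finset.mem_univ _, ?_⟩
    simp only [Finset.mem_insert, Finset.mem_singleton] at ht
    rcases ht with rfl | rfl | rfl | rfl | rfl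
    · exact hxy
    · exact hxa
    · exact hxb
    · exact hsymm _ _ hc.1
    · exact hsymm _ _ hd.1
  have hcard : ({y, a, b, c, d} : Finset κ).card = 5 := by
    rw [Finset.card_insert_of_notMem, Finset.card_insert_of_notMem, Finset.card_insert_of_notMem,
      Finset.card_insert_of_notMem, Finset.card_singleton]
    · simp [hcd]
    · simp [hcb.symm, hdb.symm]
    · simp [hab, hca.symm, hda.symm]
    · simp [hya, hyb, hcy.symm, hdy.symm]
  rw [← hcard]
  exact Finset.card_le_card hsub

open Classical in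
/-- a closed family has at most `3 n - 6` edges -/
theorem closed_count
    (hM : ∀ x y z, adj x y → adj z x → adj z y →
      ∃ M : PMap {u // u ≠ z}, M.adj = fun a b => adj a.1 b.1) (hne : ∃ x y, adj x y) :
    (Finset.univ.filter (fun e : κ × κ => adj e.1 e.2)).card + 12 ≤
      6 * (Finset.univ.filter (fun x => ∃ y, adj x y)).card := by
  -- degrees
  set deg : κ → ℕ := fun x => (Finset.univ.filter (adj x)).card with hdeg
  set S := Finset.univ.filter (fun x => ∃ y, adj x y) with hS
  set P := Finset.univ.filter (fun e : κ × κ => adj e.1 e.2) with hP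
  obtain ⟨x0, y0, h0⟩ := hne
  have hSne : S.Nonempty := ⟨x0, by rw [hS, Finset.mem_filter]; exact ⟨Finset.mem_univ _, y0, h0⟩⟩
  obtain ⟨z, hzS, hmin⟩ := Finset.exists_min_image S deg hSne
  obtain ⟨-, x, hzx⟩ := Finset.mem_filter.1 hzS
  have hg5 : 5 ≤ deg z := closed_deg adj hsymm hirr noK4 noC4 h2 hzx
  set g := deg z with hg
  -- the number of darts
  have hPsum : P.card = ∑ x ∈ S, deg x := by
    have h3 : P.card = ∑ x ∈ S, (P.filter fun e => e.1 = x).card := by
      refine Finset.card_eq_sum_card_fiberwise fun e he => ?_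
      rw [SetLike.mem_coe, hP, Finset.mem_filter] at he
      rw [SetLike.mem_coe, hS, Finset.mem_filter]
      exact ⟨Finset.mem_univ _, e.2, he.2⟩
    rw [h3]
    refine Finset.sum_congr rfl fun x _ => ?_
    refine Finset.card_bij (fun e _ => e.2) ?_ ?_ ?_
    · intro e he
      rw [Finset.mem_filter, hP, Finset.mem_filter] at he
      rw [Finset.mem_filter]
      refine ⟨Finset.mem_univ _, ?_⟩
      rw [← he.2]; exact he.1.2
    · intro e he e' he' h
      rw [Finset.mem_filter] at he he'
      exact Prod.ext (he.2.trans he'.2.symm) h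
    · intro y hy
      rw [Finset.mem_filter] at hy
      refine ⟨(x, y), ?_, rfl⟩
      rw [Finset.mem_filter, hP, Finset.mem_filter]
      exact ⟨⟨Finset.mem_univ _, hy.2⟩, rfl⟩
  have hPge : g * S.card ≤ P.card := by
    rw [hPsum, mul_comm, ← smul_eq_mul, ← Finset.sum_const]
    exact Finset.sum_le_sum fun x hx => hmin x hx
  have hSge : g + 1 ≤ S.card := by
    have h3 : insert z (Finset.univ.filter (adj z)) ⊆ S := by
      intro t ht
      rw [Finset.mem_insert, Finset.mem_filter] at ht
      rcases ht with rfl | ⟨-, ht⟩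
      · exact hzS
      · rw [hS, Finset.mem_filter]
        exact ⟨Finset.mem_univ _, z, hsymm _ _ ht⟩
    have h4 := Finset.card_le_card h3
    rw [Finset.card_insert_of_notMem (by rw [Finset.mem_filter]; exact fun h => hirr z h.2)] at h4
    exact h4
  -- a triangle at `z`
  obtain ⟨y, y', -, hyT⟩ := h2 z x hzx
  obtain ⟨hyz, hyx⟩ := (hyT y).2 (Or.inl rfl)
  obtain ⟨M, hMadj⟩ := hM x y z (hsymm _ _ hyx) hzx (hsymm _ _ hyz)
  -- the darts of the map
  have hMa : ∀ a b, M.adj a b ↔ adj a.1 b.1 := fun a b => by rw [hMadj]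
  set P' := P.filter (fun e => e.1 ≠ z ∧ e.2 ≠ z) with hP'
  have hP'card : P'.card + 2 * g = P.card := by
    have e1 : (P.filter (fun e => e.1 = z)).card = g := by
      refine Finset.card_bij (fun e _ => e.2) ?_ ?_ ?_
      · intro e he
        rw [Finset.mem_filter, hP, Finset.mem_filter] at he
        rw [Finset.mem_filter]
        refine ⟨Finset.mem_univ _, ?_⟩
        rw [← he.2]; exact he.1.2
      · intro e he e' he' h
        rw [Finset.mem_filter] at he he'
        exact Prod.ext (he.2.trans he'.2.symm) h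
      · intro y hy
        rw [Finset.mem_filter] at hy
        refine ⟨(z, y), ?_, rfl⟩
        rw [Finset.mem_filter, hP, Finset.mem_filter]
        exact ⟨⟨Finset.mem_univ _, hy.2⟩, rfl⟩
    have e2 : (P.filter (fun e => e.2 = z)).card = g := by
      rw [← e1]
      refine Finset.card_bij (fun e _ => (e.2, e.1)) ?_ ?_ ?_
      · intro e he
        rw [Finset.mem_filter, hP, Finset.mem_filter] at he ⊢
        exact ⟨⟨Finset.mem_univ _, hsymm _ _ he.1.2⟩, he.2⟩
      · intro e _ e' _ h
        exact Prod.ext (congrArg Prod.snd h) (congrArg Prod.fst h)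
      · intro e he
        rw [Finset.mem_filter, hP, Finset.mem_filter] at he
        refine ⟨(e.2, e.1), ?_, rfl⟩
        rw [Finset.mem_filter, hP, Finset.mem_filter]
        exact ⟨⟨Finset.mem_univ _, hsymm _ _ he.1.2⟩, he.2⟩
    have e3 : (P.filter (fun e => ¬ (e.1 ≠ z ∧ e.2 ≠ z))).card = g + g := by
      have : P.filter (fun e => ¬ (e.1 ≠ z ∧ e.2 ≠ z)) =
          P.filter (fun e => e.1 = z) ∪ P.filter (fun e => e.2 = z) := by
        ext e
        simp only [Finset.mem_filter, Finset.mem_union]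
        tauto
      rw [this, Finset.card_union_of_disjoint, e1, e2]
      rw [Finset.disjoint_filter]
      intro e he h h'
      rw [hP, Finset.mem_filter] at he
      apply hirr z
      have := he.2
      rw [h, h'] at this
      exact this
    have e4 := Finset.card_filter_add_card_filter_not (s := P) (fun e => e.1 ≠ z ∧ e.2 ≠ z)
    rw [e3, ← hP'] at e4
    omega
  have hD' : Nat.card (Dt M.adj) = P'.card := by
    rw [Nat.card_eq_fintype_card, ← Finset.card_univ]
    refine Finset.card_bij (fun d _ => (d.1.1.1, d.1.2.1)) ?_ ?_ ?_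
    · intro d _
      rw [hP', Finset.mem_filter, hP, Finset.mem_filter]
      exact ⟨⟨Finset.mem_univ _, (hMa _ _).1 d.2⟩, d.1.1.2, d.1.2.2⟩
    · intro d _ d' _ h
      refine M.dt_ext ?_ ?_
      · exact Subtype.ext (congrArg Prod.fst h)
      · exact Subtype.ext (congrArg Prod.snd h)
    · intro e he
      rw [hP', Finset.mem_filter, hP, Finset.mem_filter] at he
      exact ⟨⟨(⟨e.1, he.2.1⟩, ⟨e.2, he.2.2⟩), (hMa _ _).2 he.1.2⟩, Finset.mem_univ _, rfl⟩
  -- ordered triangles
  set O := Finset.univ.filter (fun t : κ × κ × κ => t.1 ≠ z ∧ t.2.1 ≠ z ∧ t.2.2 ≠ z ∧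
    adj t.1 t.2.1 ∧ adj t.2.2 t.1 ∧ adj t.2.2 t.2.1) with hO
  set L := P'.filter (fun e => adj z e.1 ∧ adj z e.2) with hL
  have hTc : ∀ x y, adj x y → (Finset.univ.filter fun t => adj t x ∧ adj t y).card = 2 := by
    intro x y hxy
    obtain ⟨u, u', huu, hT⟩ := h2 x y hxy
    have : Finset.univ.filter (fun t => adj t x ∧ adj t y) = {u, u'} := by
      ext t
      simp only [Finset.mem_filter, Finset.mem_univ, true_and, Finset.mem_insert,
        Finset.mem_singleton]
      exact hT t
    rw [this, Finset.card_pair huu]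
  have hLcard : L.card = 2 * g := by
    have h3 : L.card = ∑ x ∈ Finset.univ.filter (adj z), (L.filter fun e => e.1 = x).card := by
      refine Finset.card_eq_sum_card_fiberwise fun e he => ?_
      rw [SetLike.mem_coe, hL, Finset.mem_filter] at he
      rw [SetLike.mem_coe, Finset.mem_filter]
      exact ⟨Finset.mem_univ _, he.2.1⟩
    rw [h3]
    have h4 : ∀ x ∈ Finset.univ.filter (adj z), (L.filter fun e => e.1 = x).card = 2 := by
      intro x hx
      rw [Finset.mem_filter] at hx
      rw [← hTc z x hx.2]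
      refine Finset.card_bij (fun e _ => e.2) ?_ ?_ ?_
      · intro e he
        rw [Finset.mem_filter, hL, Finset.mem_filter, hP', Finset.mem_filter, hP,
          Finset.mem_filter] at he
        rw [Finset.mem_filter]
        refine ⟨Finset.mem_univ _, hsymm _ _ he.1.2.2, ?_⟩
        rw [← he.2]; exact hsymm _ _ he.1.1.1.2
      · intro e he e' he' h
        rw [Finset.mem_filter] at he he'
        exact Prod.ext (he.2.trans he'.2.symm) h
      · intro y hy
        rw [Finset.mem_filter] at hy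
        refine ⟨(x, y), ?_, rfl⟩
        rw [Finset.mem_filter, hL, Finset.mem_filter, hP', Finset.mem_filter, hP,
          Finset.mem_filter]
        exact ⟨⟨⟨⟨Finset.mem_univ _, hsymm _ _ hy.2.2⟩, fun h => hirr z (h ▸ hx.2),
          fun h => hirr z (h ▸ hy.2.1)⟩, hx.2, hsymm _ _ hy.2.1⟩, rfl⟩
    rw [Finset.sum_congr rfl h4, Finset.sum_const, smul_eq_mul, mul_comm]
  have hOcard : O.card + 2 * g = 2 * P'.card := by
    have h3 : O.card = ∑ e ∈ P', (O.filter fun t => (t.1, t.2.1) = e).card := by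
      refine Finset.card_eq_sum_card_fiberwise fun t ht => ?_
      rw [SetLike.mem_coe, hO, Finset.mem_filter] at ht
      rw [SetLike.mem_coe, hP', Finset.mem_filter, hP, Finset.mem_filter]
      exact ⟨⟨Finset.mem_univ _, ht.2.2.2.2.1⟩, ht.2.1, ht.2.2.1⟩
    have h4 : ∀ e ∈ P', (O.filter fun t => (t.1, t.2.1) = e).card +
        (if adj z e.1 ∧ adj z e.2 then 1 else 0) = 2 := by
      intro e he
      rw [hP', Finset.mem_filter, hP, Finset.mem_filter] at he
      rw [← hTc e.1 e.2 he.1.2]
      have h5 := Finset.card_filter_add_card_filter_not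
        (s := Finset.univ.filter fun t => adj t e.1 ∧ adj t e.2) (fun t => t ≠ z)
      rw [← h5]
      congr 1
      · refine Finset.card_bij (fun t _ => t.2.2) ?_ ?_ ?_
        · intro t ht
          rw [Finset.mem_filter, hO, Finset.mem_filter] at ht
          obtain ⟨⟨-, -, -, h6, -, h7, h8⟩, h9⟩ := ht
          rw [Finset.mem_filter, Finset.mem_filter]
          subst h9
          exact ⟨⟨Finset.mem_univ _, h7, h8⟩, h6⟩
        · intro t ht t' ht' h
          rw [Finset.mem_filter] at ht ht'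
          have h9 := ht.2.trans ht'.2.symm
          exact Prod.ext (Prod.ext_iff.1 h9).1 (Prod.ext (Prod.ext_iff.1 h9).2 h)
        · intro t ht
          rw [Finset.mem_filter, Finset.mem_filter] at ht
          refine ⟨(e.1, e.2, t), ?_, rfl⟩
          rw [Finset.mem_filter, hO, Finset.mem_filter]
          exact ⟨⟨Finset.mem_univ _, he.2.1, he.2.2, ht.2, he.1.2, ht.1.2.1, ht.1.2.2⟩, rfl⟩
      · split_ifs with h6
        · symm
          rw [Finset.card_eq_one]
          refine ⟨z, ?_⟩
          ext t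
          rw [Finset.mem_filter, Finset.mem_filter, Finset.mem_singleton, not_not]
          constructor
          · exact fun h => h.2
          · rintro rfl
            exact ⟨⟨Finset.mem_univ _, h6⟩, rfl⟩
        · symm
          rw [Finset.card_eq_zero, Finset.eq_empty_iff_forall_notMem]
          intro t ht
          rw [Finset.mem_filter, Finset.mem_filter, not_not] at ht
          obtain ⟨⟨-, h7⟩, rfl⟩ := ht
          exact h6 h7
    have h5 : ∑ e ∈ P', ((O.filter fun t => (t.1, t.2.1) = e).card +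
        (if adj z e.1 ∧ adj z e.2 then 1 else 0)) = 2 * P'.card := by
      rw [Finset.sum_congr rfl h4, Finset.sum_const, smul_eq_mul, mul_comm]
    rw [Finset.sum_add_distrib, ← h3, ← Finset.card_filter, ← hL, hLcard] at h5
    exact h5
  -- vertices of the map have degree at least three
  have hdeg3 : ∀ (x a b : {u // u ≠ z}), M.adj x a → ¬ ∀ y, M.adj x y → y = a ∨ y = b := by
    intro x a b hxa hall
    have h3 : 5 ≤ (Finset.univ.filter (adj x.1)).card :=
      closed_deg adj hsymm hirr noK4 noC4 h2 ((hMa _ _).1 hxa)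
    have h4 : Finset.univ.filter (adj x.1) ⊆ {z, a.1, b.1} := by
      intro t ht
      rw [Finset.mem_filter] at ht
      rw [Finset.mem_insert, Finset.mem_insert, Finset.mem_singleton]
      by_cases htz : t = z
      · left; exact htz
      · right
        rcases hall ⟨t, htz⟩ ((hMa _ _).2 ht.2) with h | h
        · left; rw [← h]
        · right; rw [← h]
    have h5 := Finset.card_le_card h4
    have h6 : ({z, a.1, b.1} : Finset κ).card ≤ 3 := Finset.card_le_three
    omega
  have hφ2 : ∀ d, M.φ (M.φ d) ≠ d := by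
    intro d h
    have h3 := (M.φ2 h).1
    exact hdeg3 d.1.1 d.1.2 d.1.2 d.2 fun y hy => Or.inl (h3 y hy)
  have hφ4 : ∀ d, M.φ (M.φ (M.φ (M.φ d))) ≠ d := by
    intro d h
    obtain ⟨x, a, b, h3, h4⟩ := M.φ4 (fun x y z' u hxy hyz hzu hux hxz hyu => by
      rw [hMa] at hxy hyz hzu hux ⊢
      rw [hMa]
      exact noC4 _ _ _ _ hxy hyz hzu hux (fun h => hxz (Subtype.ext h))
        (fun h => hyu (Subtype.ext h))) h
    exact hdeg3 x a b h3 h4
  -- triangular faces
  set T := (Finset.univ : Finset (Dt M.adj)).filter (fun d => M.φ (M.φ (M.φ d)) = d) with hT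
  have hTcard : 2 * T.card ≤ O.card := by
    let f1 : Dt M.adj → κ × κ × κ := fun d => (d.1.1.1, d.1.2.1, (M.φ d).1.2.1)
    let f2 : Dt M.adj → κ × κ × κ := fun d => (d.1.2.1, d.1.1.1, (M.φ d).1.2.1)
    have htri : ∀ d ∈ T, Tri M.σ d.1.1 d.1.2 (M.φ d).1.2 := fun d hd =>
      M.tri_of_φ3 (Finset.mem_filter.1 hd).2
    have hadj : ∀ d ∈ T, adj (M.φ d).1.2.1 d.1.1.1 ∧ adj (M.φ d).1.2.1 d.1.2.1 := by
      intro d hd
      obtain ⟨⟨-, h3, -⟩, ⟨h4, -, -⟩, -⟩ := htri d hd
      exact ⟨hsymm _ _ ((hMa _ _).1 h3), hsymm _ _ ((hMa _ _).1 h4)⟩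
    have i1 : (T.image f1).card = T.card := Finset.card_image_of_injOn (by
      intro d _ d' _ h
      exact M.dt_ext (Subtype.ext (congrArg (fun t => t.1) h))
        (Subtype.ext (congrArg (fun t => t.2.1) h)))
    have i2 : (T.image f2).card = T.card := Finset.card_image_of_injOn (by
      intro d _ d' _ h
      exact M.dt_ext (Subtype.ext (congrArg (fun t => t.2.1) h))
        (Subtype.ext (congrArg (fun t => t.1) h)))
    have hdisj : Disjoint (T.image f1) (T.image f2) := by
      rw [Finset.disjoint_left]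
      intro t ht1 ht2
      obtain ⟨d, hd, rfl⟩ := Finset.mem_image.1 ht1
      obtain ⟨d', hd', h3⟩ := Finset.mem_image.1 ht2
      have e1 : d'.1.2 = d.1.1 := Subtype.ext (congrArg (fun t => t.1) h3)
      have e2 : d'.1.1 = d.1.2 := Subtype.ext (congrArg (fun t => t.2.1) h3)
      have e3 : (M.φ d').1.2 = (M.φ d).1.2 := Subtype.ext (congrArg (fun t => t.2.2) h3)
      have t1 := htri d hd
      have t2 := htri d' hd'
      rw [e1, e2, e3] at t2
      -- both orientations: degree two
      obtain ⟨⟨a1, a2, a3⟩, -, -⟩ := t1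
      obtain ⟨-, ⟨b1, b2, b3⟩, -⟩ := t2
      refine hdeg3 d.1.1 d.1.2 (M.φ d).1.2 a1 fun y hy => ?_
      exact M.deg_two (d := ⟨(d.1.1, d.1.2), a1⟩) (e := ⟨(d.1.1, (M.φ d).1.2), a2⟩) a3 b3 hy
    have hsub : T.image f1 ∪ T.image f2 ⊆ O := by
      intro t ht
      rw [hO, Finset.mem_filter]
      refine ⟨Finset.mem_univ _, ?_⟩
      rcases Finset.mem_union.1 ht with ht | ht
      · obtain ⟨d, hd, rfl⟩ := Finset.mem_image.1 ht
        exact ⟨d.1.1.2, d.1.2.2, (M.φ d).1.2.2, (hMa _ _).1 d.2, (hadj d hd).1, (hadj d hd).2⟩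
      · obtain ⟨d, hd, rfl⟩ := Finset.mem_image.1 ht
        exact ⟨d.1.2.2, d.1.1.2, (M.φ d).1.2.2, hsymm _ _ ((hMa _ _).1 d.2), (hadj d hd).2,
          (hadj d hd).1⟩
    have := Finset.card_le_card hsub
    rw [Finset.card_union_of_disjoint hdisj, i1, i2] at this
    omega
  -- the number of faces
  have hfaces := M.card_faces hφ2 hφ4
  have hTc' : Nat.card {d : Dt M.adj // M.φ (M.φ (M.φ d)) = d} = T.card := by
    rw [Nat.card_eq_fintype_card, Fintype.card_subtype]
  rw [hTc'] at hfaces
  have hrev := M.card_rev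
  have hσ : nc M.σ + 1 ≤ S.card := by
    have h5 : nc M.σ ≤ (S.erase z).card := by
      refine nc_le_card M.σ (fun d => d.1.1.1) _ (fun d => ?_)
        (fun d e h => M.htrans d e (Subtype.ext h))
      rw [Finset.mem_erase, hS, Finset.mem_filter]
      exact ⟨d.1.1.2, Finset.mem_univ _, d.1.2.1, (hMa _ _).1 d.2⟩
    rw [Finset.card_erase_of_mem hzS] at h5
    have h6 : 0 < S.card := Finset.card_pos.2 ⟨z, hzS⟩
    omega
  have hcomp : 1 ≤ ncomp M.σ (rev M.hsymm) := by
    have hxz : x ≠ z := fun h => hirr z (h ▸ hzx)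
    have hyz' : y ≠ z := fun h => hirr z (h ▸ hyz)
    exact M.card_pos ⟨⟨(⟨y, hyz'⟩, ⟨x, hxz⟩), (hMa _ _).2 hyx⟩⟩
  have heul := M.euler
  have hφn : nc (M.σ⁻¹ * rev M.hsymm) = nc M.φ := rfl
  rw [hφn] at heul
  -- conclusion
  rw [hD'] at hfaces hrev heul
  clear hM hmin hTc hdeg3 hφ2 hφ4
  generalize nc M.φ = a1 at *
  generalize nc (rev M.hsymm) = a2 at *
  generalize nc M.σ = a3 at *
  generalize ncomp M.σ (rev M.hsymm) = a4 at *
  generalize T.card = t at *
  generalize O.card = o at *
  generalize hp' : P'.card = p' at *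
  generalize hp : P.card = p at *
  generalize hs : S.card = s at *
  have k1 : 5 * p + 90 ≤ 30 * s + 6 * g := by omega
  rcases Nat.lt_or_ge g 6 with h6 | h6
  · have : g = 5 := by omega
    omega
  · exfalso
    obtain ⟨c, hc⟩ := Nat.exists_eq_add_of_le h6
    obtain ⟨e, he⟩ := Nat.exists_eq_add_of_le hSge
    rw [he, hc] at hPge k1
    have e1 : (6 + c) * (6 + c + 1 + e) = 6 * (7 + c + e) + c * (7 + c + e) := by ring
    rw [e1] at hPge
    have e2 : c * 7 ≤ c * (7 + c + e) := Nat.mul_le_mul_left c (by omega)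
    generalize c * (7 + c + e) = m at *
    omega

end

end Pool.Agent.Helper15.OC
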