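import Mathlib
import Pool.Agent.Helper15.OC.NMap

/-!
# Circles and their vectors
-/

set_option autoImplicit false

open scoped Real

namespace Pool.Agent.Helper15.OC

/-- a circle in the plane -/
@[ext]
structure Circ where
  /-- centre -/
  c : ℂ
  /-- radius -/
  r : ℝ
  hr : 0 < r

namespace Circ

/-- the circle as a set -/
def sph (x : Circ) : Set ℂ := {w | ‖w - x.c‖ = x.r}

/-- the inside (`true`) and the outside (`false`) of a circle -/
def side (x : Circ) (b : Bool) : Set ℂ :=
  if b then {w | ‖w - x.c‖ < x.r} else {w | x.r < ‖w - x.c‖}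

/-- orthogonal circles -/
def Orth (x y : Circ) : Prop := ‖x.c - y.c‖ ^ 2 = x.r ^ 2 + y.r ^ 2

/-- disjoint circles -/
def Disj (x y : Circ) : Prop := Disjoint x.sph y.sph

/-- the vector of a circle -/
noncomputable def vec (x : Circ) : E4 :=
  ((x.r⁻¹ : ℝ) • x.c, x.r⁻¹, (‖x.c‖ ^ 2 - x.r ^ 2) / x.r)

/-- the outer normal of the side `b` of the circle -/
noncomputable def nrm (x : Circ) (b : Bool) : E4 := if b then -x.vec else x.vec

end Circ

/-- the null vector of a point -/
noncomputable def nul (w : ℂ) : E4 := (w, 1, ‖w‖ ^ 2)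

theorem normsq_eq (w : ℂ) : ‖w‖ ^ 2 = w.re ^ 2 + w.im ^ 2 := by
  rw [← Complex.normSq_eq_norm_sq, Complex.normSq_apply]; ring

theorem B_nul_nul (w w' : ℂ) : B (nul w) (nul w') = -‖w - w'‖ ^ 2 / 2 := by
  rw [B_apply]
  simp only [nul, normsq_eq, Complex.sub_re, Complex.sub_im]
  ring

namespace Circ

theorem B_vec_nul (x : Circ) (w : ℂ) :
    B x.vec (nul w) = -(‖w - x.c‖ ^ 2 - x.r ^ 2) / (2 * x.r) := by
  have hr := x.hr.ne'
  rw [B_apply]
  simp only [nul, vec, normsq_eq, Complex.sub_re, Complex.sub_im, Complex.smul_re,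
    Complex.smul_im, smul_eq_mul]
  field_simp
  ring

theorem B_vec_vec (x y : Circ) :
    B x.vec y.vec = (x.r ^ 2 + y.r ^ 2 - ‖x.c - y.c‖ ^ 2) / (2 * x.r * y.r) := by
  have hr := x.hr.ne'
  have hr' := y.hr.ne'
  rw [B_apply]
  simp only [vec, normsq_eq, Complex.sub_re, Complex.sub_im, Complex.smul_re,
    Complex.smul_im, smul_eq_mul]
  field_simp
  ring

theorem B_vec_self (x : Circ) : B x.vec x.vec = 1 := by
  rw [B_vec_vec, sub_self, norm_zero]
  have hr := x.hr.ne'
  field_simp
  ring

theorem B_nrm_self (x : Circ) (b : Bool) : B (x.nrm b) (x.nrm b) = 1 := by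
  cases b <;> simp [nrm, B_vec_self]

theorem nrm_not (x : Circ) (b : Bool) : x.nrm (!b) = - x.nrm b := by
  cases b <;> simp [nrm]

theorem mem_side_iff (x : Circ) (b : Bool) (w : ℂ) : w ∈ x.side b ↔ B (x.nrm b) (nul w) < 0 := by
  have hr := x.hr
  have h0 := norm_nonneg (w - x.c)
  have h2 : (0 : ℝ) < 2 * x.r := by linarith
  cases b
  · simp only [side, nrm, Bool.false_eq_true, if_false, Set.mem_ofPred_eq, B_vec_nul]
    rw [div_neg_iff]
    constructor
    · intro h
      right
      exact ⟨by nlinarith, h2⟩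
    · rintro (⟨-, h⟩ | ⟨h, -⟩)
      · linarith
      · by_contra hc
        rw [not_lt] at hc
        nlinarith
  · simp only [side, nrm, if_true, Set.mem_ofPred_eq, map_neg, LinearMap.neg_apply, B_vec_nul]
    rw [neg_lt_zero, div_pos_iff]
    constructor
    · intro h
      left
      exact ⟨by nlinarith, h2⟩
    · rintro (⟨h, -⟩ | ⟨-, h⟩)
      · by_contra hc
        rw [not_lt] at hc
        nlinarith
      · linarith

theorem mem_sph_iff (x : Circ) (w : ℂ) : w ∈ x.sph ↔ B x.vec (nul w) = 0 := by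
  have hr := x.hr
  have h0 := norm_nonneg (w - x.c)
  rw [B_vec_nul, div_eq_zero_iff]
  simp only [sph, Set.mem_ofPred_eq]
  constructor
  · intro h
    left
    rw [h]; ring
  · rintro (h | h)
    · have h1 : (‖w - x.c‖ - x.r) * (‖w - x.c‖ + x.r) = 0 := by linarith
      rcases mul_eq_zero.1 h1 with h2 | h2
      · linarith
      · linarith
    · linarith

theorem mem_sph_iff' (x : Circ) (b : Bool) (w : ℂ) : w ∈ x.sph ↔ B (x.nrm b) (nul w) = 0 := by
  rw [mem_sph_iff]
  cases b
  · simp [nrm]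
  · simp [nrm]

theorem orth_iff (x y : Circ) : Orth x y ↔ B x.vec y.vec = 0 := by
  have hr := x.hr
  have hr' := y.hr
  rw [B_vec_vec, div_eq_zero_iff]
  unfold Orth
  constructor
  · intro h; left; linarith
  · rintro (h | h)
    · linarith
    · exfalso
      have : 0 < 2 * x.r * y.r := by positivity
      linarith

theorem Orth.symm {x y : Circ} (h : Orth x y) : Orth y x := by
  rw [orth_iff, B_comm, ← orth_iff]; exact h

theorem Orth.nrm {x y : Circ} (h : Orth x y) (a b : Bool) : B (x.nrm a) (y.nrm b) = 0 := by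
  rw [orth_iff] at h
  cases a <;> cases b <;> simp [Circ.nrm, h]

theorem side_compl (x : Circ) (b : Bool) (w : ℂ) (h : w ∉ x.sph) :
    w ∈ x.side b ∨ w ∈ x.side (!b) := by
  rw [mem_sph_iff' x b] at h
  rw [mem_side_iff, mem_side_iff, nrm_not]
  rcases lt_or_gt_of_ne h with h1 | h1
  · left; exact h1
  · right
    simp only [map_neg, LinearMap.neg_apply]
    linarith

theorem not_both (x : Circ) (b : Bool) (w : ℂ) (h : w ∈ x.side b) (h' : w ∈ x.side (!b)) :
    False := by
  rw [mem_side_iff] at h h'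
  rw [nrm_not] at h'
  simp only [map_neg, LinearMap.neg_apply] at h'
  linarith

theorem side_sph (x : Circ) (b : Bool) (w : ℂ) (h : w ∈ x.side b) (h' : w ∈ x.sph) : False := by
  rw [mem_side_iff] at h
  rw [mem_sph_iff' x b] at h'
  linarith

/-- the three kinds of disjoint circles -/
theorem disj_cases {x y : Circ} (h : Disj x y) :
    (x.r + y.r < ‖x.c - y.c‖) ∨ (‖x.c - y.c‖ + x.r < y.r) ∨ (‖x.c - y.c‖ + y.r < x.r) := by
  by_contra hcon
  push Not at hcon
  obtain ⟨h1, h2, h3⟩ := hcon
  have hx := x.hr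
  have hy := y.hr
  set d := ‖x.c - y.c‖ with hd
  have hd0 : 0 ≤ d := norm_nonneg _
  rcases hd0.eq_or_lt with h0 | h0
  · -- concentric
    rw [← h0] at h1 h2 h3
    have hc : x.c = y.c := by
      rw [← sub_eq_zero, ← norm_eq_zero, ← hd, h0]
    have hrr : x.r = y.r := by linarith
    have m1 : x.c + x.r ∈ x.sph := by simp [sph, abs_of_pos hx]
    have m2 : x.c + x.r ∈ y.sph := by simp [sph, hc, hrr, abs_of_pos hy]
    exact Set.disjoint_left.1 h m1 m2
  · -- intersection point
    have hd2 : (d : ℂ) ≠ 0 := by exact_mod_cast h0.ne'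
    set a : ℝ := (d ^ 2 + x.r ^ 2 - y.r ^ 2) / (2 * d) with ha
    have hk : 0 ≤ x.r ^ 2 - a ^ 2 := by
      have e : x.r ^ 2 - a ^ 2 = ((x.r + y.r - d) * (d + x.r - y.r) * (d + y.r - x.r) *
          (x.r + y.r + d)) / (4 * d ^ 2) := by
        rw [ha]; field_simp; ring
      rw [e]
      refine div_nonneg (mul_nonneg (mul_nonneg (mul_nonneg ?_ ?_) ?_) ?_) (by positivity) <;>
        linarith
    set b : ℝ := Real.sqrt (x.r ^ 2 - a ^ 2) with hb
    have hb2 : b ^ 2 = x.r ^ 2 - a ^ 2 := Real.sq_sqrt hk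
    set e : ℂ := (y.c - x.c) / d with he
    have hen : ‖e‖ = 1 := by
      rw [he, norm_div, Complex.norm_real, Real.norm_of_nonneg hd0, norm_sub_rev, ← hd]
      exact div_self h0.ne'
    have hed : (d : ℂ) * e = y.c - x.c := by rw [he]; field_simp
    have m1 : x.c + e * ((a : ℂ) + (b : ℂ) * Complex.I) ∈ x.sph := by
      change ‖x.c + e * ((a : ℂ) + (b : ℂ) * Complex.I) - x.c‖ = x.r
      rw [add_sub_cancel_left, norm_mul, hen, one_mul]
      have h4 : ‖(a : ℂ) + b * Complex.I‖ ^ 2 = x.r ^ 2 := by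
        rw [normsq_eq]; simp; linarith
      have h5 := norm_nonneg ((a : ℂ) + b * Complex.I)
      nlinarith
    have m2 : x.c + e * ((a : ℂ) + (b : ℂ) * Complex.I) ∈ y.sph := by
      change ‖x.c + e * ((a : ℂ) + (b : ℂ) * Complex.I) - y.c‖ = y.r
      have h6 : x.c + e * ((a : ℂ) + (b : ℂ) * Complex.I) - y.c = e * (((a - d : ℝ) : ℂ) + (b : ℂ) * Complex.I) := by
        have : y.c = x.c + d * e := by rw [hed]; ring
        rw [this]; push_cast; ring
      rw [h6, norm_mul, hen, one_mul]
      have h4 : ‖((a - d : ℝ) : ℂ) + b * Complex.I‖ ^ 2 = y.r ^ 2 := by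
        rw [normsq_eq]
        simp
        have h7 : 2 * d * a = d ^ 2 + x.r ^ 2 - y.r ^ 2 := by rw [ha]; field_simp
        nlinarith
      have h5 := norm_nonneg (((a - d : ℝ) : ℂ) + b * Complex.I)
      have hy := y.hr
      nlinarith
    exact Set.disjoint_left.1 h m1 m2

theorem mem_in {x : Circ} {w : ℂ} : w ∈ x.side true ↔ ‖w - x.c‖ < x.r := by simp [side]

theorem mem_out {x : Circ} {w : ℂ} : w ∈ x.side false ↔ x.r < ‖w - x.c‖ := by simp [side]

theorem exists_out_out (x y : Circ) : ∃ w, w ∈ x.side false ∧ w ∈ y.side false := by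
  have hx := x.hr
  have hy := y.hr
  set d := ‖x.c - y.c‖ with hd
  have hd0 : 0 ≤ d := norm_nonneg _
  refine ⟨y.c + ((d + x.r + y.r + 1 : ℝ) : ℂ), ?_, ?_⟩
  · rw [mem_out]
    have h1 : ‖((d + x.r + y.r + 1 : ℝ) : ℂ)‖ ≤ ‖y.c + ((d + x.r + y.r + 1 : ℝ) : ℂ) - x.c‖ +
        ‖x.c - y.c‖ := by
      have e : ((d + x.r + y.r + 1 : ℝ) : ℂ) =
        (y.c + ((d + x.r + y.r + 1 : ℝ) : ℂ) - x.c) + (x.c - y.c) := by ring
      calc ‖((d + x.r + y.r + 1 : ℝ) : ℂ)‖ =
          ‖(y.c + ((d + x.r + y.r + 1 : ℝ) : ℂ) - x.c) + (x.c - y.c)‖ := by rw [← e]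
        _ ≤ _ := norm_add_le _ _
    rw [Complex.norm_real, Real.norm_of_nonneg (by linarith), ← hd] at h1
    linarith
  · rw [mem_out, add_sub_cancel_left, Complex.norm_real, Real.norm_of_nonneg (by linarith)]
    linarith

/-- the bad pair of two disjoint circles -/
theorem bad_pair {x y : Circ} (h : Disj x y) : ∃ a b : Bool,
    (∀ a' b', (x.side a' ∩ y.side b' = ∅) ↔ (a' = a ∧ b' = b)) ∧
    x.sph ⊆ y.side (!b) ∧ y.sph ⊆ x.side (!a) ∧ B (x.nrm (!a)) (y.nrm (!b)) < -1 := by
  have hx := x.hr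
  have hy := y.hr
  set d := ‖x.c - y.c‖ with hd
  have hd' : ‖y.c - x.c‖ = d := norm_sub_rev _ _
  have hd0 : 0 ≤ d := norm_nonneg _
  have tri1 : ∀ w : ℂ, d ≤ ‖w - x.c‖ + ‖w - y.c‖ := by
    intro w
    have e : x.c - y.c = (w - y.c) - (w - x.c) := by ring
    rw [hd, e, add_comm]
    exact norm_sub_le _ _
  have tri2 : ∀ w : ℂ, ‖w - y.c‖ ≤ ‖w - x.c‖ + d := by
    intro w
    have e : w - y.c = (w - x.c) + (x.c - y.c) := by ring
    rw [e, hd]
    exact norm_add_le _ _
  have tri3 : ∀ w : ℂ, ‖w - x.c‖ ≤ ‖w - y.c‖ + d := by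
    intro w
    have e : w - x.c = (w - y.c) - (x.c - y.c) := by ring
    rw [e, hd]
    exact norm_sub_le _ _
  obtain ⟨wo, hwo1, hwo2⟩ := exists_out_out x y
  have hvec : B x.vec y.vec = (x.r ^ 2 + y.r ^ 2 - d ^ 2) / (2 * x.r * y.r) := B_vec_vec x y
  have hpos : 0 < 2 * x.r * y.r := by positivity
  rcases disj_cases h with h1 | h1 | h1
  · refine ⟨true, true, ?_, ?_, ?_, ?_⟩
    · intro a' b'
      constructor
      · intro he
        rw [Set.eq_empty_iff_forall_notMem] at he
        rcases a' with _ | _ <;> rcases b' with _ | _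
        · exact absurd ⟨hwo1, hwo2⟩ (he wo)
        · refine absurd (⟨?_, ?_⟩ : y.c ∈ x.side false ∩ y.side true) (he y.c)
          · rw [mem_out, hd']; linarith
          · rw [mem_in, sub_self, norm_zero]; exact hy
        · refine absurd (⟨?_, ?_⟩ : x.c ∈ x.side true ∩ y.side false) (he x.c)
          · rw [mem_in, sub_self, norm_zero]; exact hx
          · rw [mem_out, ← hd]; linarith
        · exact ⟨rfl, rfl⟩
      · rintro ⟨rfl, rfl⟩
        rw [Set.eq_empty_iff_forall_notMem]
        rintro w ⟨hw1, hw2⟩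
        rw [mem_in] at hw1 hw2
        have := tri1 w
        linarith
    · intro w hw
      have hw' : ‖w - x.c‖ = x.r := hw
      change w ∈ y.side false
      rw [mem_out]
      have := tri1 w
      linarith
    · intro w hw
      have hw' : ‖w - y.c‖ = y.r := hw
      change w ∈ x.side false
      rw [mem_out]
      have := tri1 w
      linarith
    · change B x.vec y.vec < -1
      rw [hvec, div_lt_iff₀ hpos]
      nlinarith
  · refine ⟨true, false, ?_, ?_, ?_, ?_⟩
    · intro a' b'
      constructor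
      · intro he
        rw [Set.eq_empty_iff_forall_notMem] at he
        rcases a' with _ | _ <;> rcases b' with _ | _
        · exact absurd ⟨hwo1, hwo2⟩ (he wo)
        · set ρ : ℝ := (d + x.r + y.r) / 2 with hρ
          have e1 : ‖y.c + (ρ : ℂ) - y.c‖ = ρ := by
            rw [add_sub_cancel_left, Complex.norm_real, Real.norm_of_nonneg (by linarith)]
          refine absurd (⟨?_, ?_⟩ : (y.c + (ρ : ℂ)) ∈ x.side false ∩ y.side true) (he _)
          · rw [mem_out]
            have := tri2 (y.c + (ρ : ℂ))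
            rw [e1] at this
            linarith
          · rw [mem_in, e1]; linarith
        · exact ⟨rfl, rfl⟩
        · refine absurd (⟨?_, ?_⟩ : x.c ∈ x.side true ∩ y.side true) (he x.c)
          · rw [mem_in, sub_self, norm_zero]; exact hx
          · rw [mem_in, ← hd]; linarith
      · rintro ⟨rfl, rfl⟩
        rw [Set.eq_empty_iff_forall_notMem]
        rintro w ⟨hw1, hw2⟩
        rw [mem_in] at hw1
        rw [mem_out] at hw2
        have := tri2 w
        linarith
    · intro w hw
      have hw' : ‖w - x.c‖ = x.r := hw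
      change w ∈ y.side true
      rw [mem_in]
      have := tri2 w
      linarith
    · intro w hw
      have hw' : ‖w - y.c‖ = y.r := hw
      change w ∈ x.side false
      rw [mem_out]
      have := tri2 w
      linarith
    · change B x.vec (-y.vec) < -1
      rw [map_neg, hvec, neg_lt_neg_iff, lt_div_iff₀ hpos]
      nlinarith
  · refine ⟨false, true, ?_, ?_, ?_, ?_⟩
    · intro a' b'
      constructor
      · intro he
        rw [Set.eq_empty_iff_forall_notMem] at he
        rcases a' with _ | _ <;> rcases b' with _ | _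
        · exact absurd ⟨hwo1, hwo2⟩ (he wo)
        · exact ⟨rfl, rfl⟩
        · set ρ : ℝ := (d + x.r + y.r) / 2 with hρ
          have e1 : ‖x.c + (ρ : ℂ) - x.c‖ = ρ := by
            rw [add_sub_cancel_left, Complex.norm_real, Real.norm_of_nonneg (by linarith)]
          refine absurd (⟨?_, ?_⟩ : (x.c + (ρ : ℂ)) ∈ x.side true ∩ y.side false) (he _)
          · rw [mem_in, e1]; linarith
          · rw [mem_out]
            have := tri3 (x.c + (ρ : ℂ))
            rw [e1] at this
            linarith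
        · refine absurd (⟨?_, ?_⟩ : y.c ∈ x.side true ∩ y.side true) (he y.c)
          · rw [mem_in, hd']; linarith
          · rw [mem_in, sub_self, norm_zero]; exact hy
      · rintro ⟨rfl, rfl⟩
        rw [Set.eq_empty_iff_forall_notMem]
        rintro w ⟨hw1, hw2⟩
        rw [mem_out] at hw1
        rw [mem_in] at hw2
        have := tri3 w
        linarith
    · intro w hw
      have hw' : ‖w - x.c‖ = x.r := hw
      change w ∈ y.side false
      rw [mem_out]
      have := tri3 w
      linarith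
    · intro w hw
      have hw' : ‖w - y.c‖ = y.r := hw
      change w ∈ x.side true
      rw [mem_in]
      have := tri3 w
      linarith
    · change B (-x.vec) y.vec < -1
      rw [map_neg, LinearMap.neg_apply, hvec, neg_lt_neg_iff, lt_div_iff₀ hpos]
      nlinarith

/-- sides of orthogonal circles are compatible -/
theorem orth_compat {x y : Circ} (h : Orth x y) (a b : Bool) : (x.side a ∩ y.side b).Nonempty := by
  have hx := x.hr
  have hy := y.hr
  unfold Orth at h
  set d := ‖x.c - y.c‖ with hd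
  have hd' : ‖y.c - x.c‖ = d := norm_sub_rev _ _
  have hd0 : 0 ≤ d := norm_nonneg _
  have hdx : x.r < d := by nlinarith
  have hdy : y.r < d := by nlinarith
  have hdxy : d < x.r + y.r := by nlinarith
  rcases a with _ | _ <;> rcases b with _ | _
  · obtain ⟨w, h1, h2⟩ := exists_out_out x y
    exact ⟨w, h1, h2⟩
  · refine ⟨y.c, ?_, ?_⟩
    · rw [mem_out, hd']; exact hdx
    · rw [mem_in, sub_self, norm_zero]; exact hy
  · refine ⟨x.c, ?_, ?_⟩
    · rw [mem_in, sub_self, norm_zero]; exact hx
    · rw [mem_out, ← hd]; exact hdy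
  · have hdc : (d : ℂ) ≠ 0 := by
      have : d ≠ 0 := by linarith
      exact_mod_cast this
    have hd1 : 0 < d := by linarith
    set ρ : ℝ := (d + x.r - y.r) / 2 with hρ
    refine ⟨x.c + (ρ / d : ℝ) * (y.c - x.c), ?_, ?_⟩
    · rw [mem_in, add_sub_cancel_left, norm_mul, Complex.norm_real, hd',
        Real.norm_of_nonneg (div_nonneg (by linarith) hd0), div_mul_cancel₀ _ hd1.ne']
      linarith
    · rw [mem_in]
      have e : x.c + (ρ / d : ℝ) * (y.c - x.c) - y.c = ((1 - ρ / d : ℝ) : ℂ) * (x.c - y.c) := by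
        push_cast; ring
      have e2 : 0 ≤ 1 - ρ / d := by
        rw [sub_nonneg, div_le_one hd1]; linarith
      rw [e, norm_mul, Complex.norm_real, ← hd, Real.norm_of_nonneg e2, sub_mul, one_mul,
        div_mul_cancel₀ _ hd1.ne']
      linarith

end Circ

end Pool.Agent.Helper15.OC
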