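import Mathlib
import Pool.Agent.Helper15.OC.Circ

/-!
# Families of mutually facing circles
-/

set_option autoImplicit false

open scoped Real

namespace Pool.Agent.Helper15.OC

theorem nul_ne (w : ℂ) : nul w ≠ 0 := by
  intro h
  have := congrArg (fun a : E4 => a.2.1) h
  simp [nul] at this

/-- sign of a timelike vector at a point -/
theorem timelike_nul (a : E4) (w : ℂ) :
    2 * a.2.1 * B a (nul w) = B a a - ‖(a.2.1 : ℂ) * w - a.1‖ ^ 2 := by
  rw [B_apply, B_apply, normsq_eq]
  simp only [nul, normsq_eq, Complex.sub_re, Complex.sub_im, Complex.re_ofReal_mul,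
    Complex.im_ofReal_mul]
  ring

/-- reversed Cauchy-Schwarz inequality: timelike vectors are never orthogonal -/
theorem timelike_ne {a b : E4} (ha : B a a < 0) (hb : B b b < 0) : B a b ≠ 0 := by
  intro h
  rw [B_apply] at ha hb h
  set x := a.1.re
  set y := a.1.im
  set k := a.2.1
  set l := a.2.2
  set x' := b.1.re
  set y' := b.1.im
  set k' := b.2.1
  set l' := b.2.2
  have h1 : x * x + y * y < k * l := by linarith
  have h2 : x' * x' + y' * y' < k' * l' := by linarith
  have h3 : x * x' + y * y' = (k * l' + l * k') / 2 := by linarith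
  have h4 : (x * x' + y * y') ^ 2 ≤ (x * x + y * y) * (x' * x' + y' * y') := by
    nlinarith [sq_nonneg (x * y' - y * x')]
  have h5 : (x * x + y * y) * (x' * x' + y' * y') < (k * l) * (k' * l') := by
    have p1 : 0 ≤ x * x + y * y := add_nonneg (mul_self_nonneg _) (mul_self_nonneg _)
    have p2 : 0 ≤ x' * x' + y' * y' := add_nonneg (mul_self_nonneg _) (mul_self_nonneg _)
    have p3 : 0 < k * l := lt_of_le_of_lt p1 h1
    calc (x * x + y * y) * (x' * x' + y' * y') ≤ (k * l) * (x' * x' + y' * y') :=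
          mul_le_mul_of_nonneg_right h1.le p2
      _ < (k * l) * (k' * l') := mul_lt_mul_of_pos_left h2 p3
  have h6 : (k * l) * (k' * l') ≤ ((k * l' + l * k') / 2) ^ 2 := by
    nlinarith [sq_nonneg (k * l' - l * k')]
  rw [h3] at h4
  linarith

theorem finrank_E4 : Module.finrank ℝ E4 = 4 := by
  rw [Module.finrank_prod, Module.finrank_prod, Complex.finrank_real_complex,
    Module.finrank_self]

section decomp

variable {a b : E4} {w1 w2 : ℂ}

theorem g_neg (hne : w1 ≠ w2) : B (nul w1) (nul w2) < 0 := by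
  rw [B_nul_nul]
  have h1 : 0 < ‖w1 - w2‖ := norm_pos_iff.2 (sub_ne_zero.2 hne)
  have : 0 < ‖w1 - w2‖ ^ 2 := by positivity
  linarith

theorem B_nul_self (w : ℂ) : B (nul w) (nul w) = 0 := by
  rw [B_nul_nul]; simp

/-- a vector orthogonal to two orthogonal circles is a combination of the two intersection points -/
theorem decomp (ha : B a a = 1) (hb : B b b = 1) (hab : B a b = 0)
    (ha1 : B a (nul w1) = 0) (ha2 : B a (nul w2) = 0) (hb1 : B b (nul w1) = 0)
    (hb2 : B b (nul w2) = 0) (hne : w1 ≠ w2) {v : E4} (hva : B v a = 0) (hvb : B v b = 0) (u : E4) :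
    B v u = (B v (nul w2) * B (nul w1) u + B v (nul w1) * B (nul w2) u) /
      B (nul w1) (nul w2) := by
  have hg := (g_neg hne).ne
  set g := B (nul w1) (nul w2) with hgdef
  have hg' : B (nul w2) (nul w1) = g := by rw [B_comm]
  have hba : B b a = 0 := by rw [B_comm]; exact hab
  have h1a : B (nul w1) a = 0 := by rw [B_comm]; exact ha1
  have h2a : B (nul w2) a = 0 := by rw [B_comm]; exact ha2
  have h1b : B (nul w1) b = 0 := by rw [B_comm]; exact hb1
  have h2b : B (nul w2) b = 0 := by rw [B_comm]; exact hb2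
  have hli : LinearIndependent ℝ ![a, b, nul w1, nul w2] := by
    rw [Fintype.linearIndependent_iff]
    intro c hc
    rw [Fin.sum_univ_four] at hc
    simp only [Matrix.cons_val_zero, Matrix.cons_val_one, Matrix.cons_val] at hc
    have e1 := congrArg (fun z => B z a) hc
    have e2 := congrArg (fun z => B z b) hc
    have e3 := congrArg (fun z => B z (nul w1)) hc
    have e4 := congrArg (fun z => B z (nul w2)) hc
    simp only [map_add, map_smul, LinearMap.add_apply, LinearMap.smul_apply, smul_eq_mul,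
      map_zero, LinearMap.zero_apply, ha, hb, hab, hba, h1a, h2a, h1b, h2b, ha1, ha2, hb1, hb2,
      B_nul_self, hg', ← hgdef, mul_zero, mul_one, add_zero, zero_add] at e1 e2 e3 e4
    have e3' : c 3 = 0 := by
      rcases mul_eq_zero.1 e3 with h | h
      · exact h
      · exact absurd h hg
    have e4' : c 2 = 0 := by
      rcases mul_eq_zero.1 e4 with h | h
      · exact h
      · exact absurd h hg
    intro i
    fin_cases i
    · exact e1
    · exact e2
    · exact e4'
    · exact e3'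
  have hspan := hli.span_eq_top_of_card_eq_finrank' (by rw [finrank_E4]; rfl)
  set v' : E4 := v - (B v (nul w2) / g) • nul w1 - (B v (nul w1) / g) • nul w2 with hv'
  have hz : LinearMap.ker (B v') = ⊤ := by
    rw [eq_top_iff, ← hspan, Submodule.span_le]
    rintro _ ⟨i, rfl⟩
    rw [SetLike.mem_coe, LinearMap.mem_ker, hv']
    simp only [map_sub, map_smul, LinearMap.sub_apply, LinearMap.smul_apply, smul_eq_mul]
    fin_cases i
    · simp [hva, h1a, h2a]
    · simp [hvb, h1b, h2b]
    · simp [B_nul_self, hg']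
      field_simp
      ring
    · simp [B_nul_self, ← hgdef]
      field_simp
      ring
  have h5 : B v' u = 0 := by
    have : u ∈ LinearMap.ker (B v') := by rw [hz]; trivial
    exact this
  rw [hv'] at h5
  simp only [map_sub, map_smul, LinearMap.sub_apply, LinearMap.smul_apply, smul_eq_mul] at h5
  field_simp
  field_simp at h5
  linarith

end decomp

/-- A family of mutually facing planes. -/
structure Fam (κ : Type) where
  /-- normals -/
  v : κ → E4
  /-- adjacency -/
  adj : κ → κ → Prop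
  hsymm : ∀ x y, adj x y → adj y x
  h1 : ∀ x, B (v x) (v x) = 1
  h0 : ∀ x y, adj x y → B (v x) (v y) = 0
  hneg : ∀ x y, x ≠ y → ¬ adj x y → B (v x) (v y) < -1
  hsep : ∀ x y, x ≠ y → ¬ adj x y → ∀ w, B (v x) (nul w) = 0 → B (v y) (nul w) < 0
  hend : ∀ x y, adj x y → ∃ w1 w2 : ℂ, w1 ≠ w2 ∧ B (v x) (nul w1) = 0 ∧ B (v x) (nul w2) = 0 ∧
    B (v y) (nul w1) = 0 ∧ B (v y) (nul w2) = 0
  hpt : ∀ x, ∃ w, B (v x) (nul w) = 0

namespace Fam

variable {κ : Type} (F : Fam κ)

theorem adj_ne {x y : κ} (h : F.adj x y) : x ≠ y := by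
  rintro rfl
  have h1 := F.h1 x
  have h2 := F.h0 x x h
  linarith

theorem hle {x y : κ} (h : x ≠ y) : B (F.v x) (F.v y) ≤ 0 := by
  by_cases ha : F.adj x y
  · exact (F.h0 x y ha).le
  · linarith [F.hneg x y h ha]

section ends

variable {x y : κ} (hxy : F.adj x y) {w1 w2 : ℂ} (hne : w1 ≠ w2)
  (hx1 : B (F.v x) (nul w1) = 0) (hx2 : B (F.v x) (nul w2) = 0)
  (hy1 : B (F.v y) (nul w1) = 0) (hy2 : B (F.v y) (nul w2) = 0)

include hxy hne hx1 hx2 hy1 hy2

/-- a common neighbour cuts off exactly one end -/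
theorem cut_one {u : κ} (hux : F.adj u x) (huy : F.adj u y) :
    B (F.v u) (nul w1) * B (F.v u) (nul w2) < 0 := by
  have h := decomp (F.h1 x) (F.h1 y) (F.h0 x y hxy) hx1 hx2 hy1 hy2 hne
    (F.h0 u x hux) (F.h0 u y huy) (F.v u)
  have hg := g_neg hne
  rw [F.h1 u, B_comm (nul w1) (F.v u), B_comm (nul w2) (F.v u), eq_div_iff hg.ne] at h
  linarith

/-- different common neighbours cut off different ends -/
theorem cut_diff {u u' : κ} (hux : F.adj u x) (huy : F.adj u y) (hux' : F.adj u' x)
    (huy' : F.adj u' y) (huu : u ≠ u') (hc : 0 < B (F.v u) (nul w1))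
    (hc' : 0 < B (F.v u') (nul w1)) : False := by
  have h := decomp (F.h1 x) (F.h1 y) (F.h0 x y hxy) hx1 hx2 hy1 hy2 hne
    (F.h0 u x hux) (F.h0 u y huy) (F.v u')
  have hg := g_neg hne
  have h1 := F.cut_one hxy hne hx1 hx2 hy1 hy2 hux huy
  have h2 := F.cut_one hxy hne hx1 hx2 hy1 hy2 hux' huy'
  have h3 : B (F.v u) (nul w2) < 0 := by
    by_contra hn; rw [not_lt] at hn; nlinarith
  have h4 : B (F.v u') (nul w2) < 0 := by
    by_contra hn; rw [not_lt] at hn; nlinarith
  rw [B_comm (nul w1) (F.v u'), B_comm (nul w2) (F.v u'), eq_div_iff hg.ne] at h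
  have h5 := F.hle huu
  have h6 := mul_nonneg_of_nonpos_of_nonpos h5 hg.le
  nlinarith [mul_pos hc (neg_pos.2 h4), mul_pos hc' (neg_pos.2 h3)]

/-- no `K_4` -/
theorem noK4 {u u' : κ} (hux : F.adj u x) (huy : F.adj u y) (hux' : F.adj u' x)
    (huy' : F.adj u' y) (huu : F.adj u u') : False := by
  have h := decomp (F.h1 x) (F.h1 y) (F.h0 x y hxy) hx1 hx2 hy1 hy2 hne
    (F.h0 u x hux) (F.h0 u y huy) (F.v u')
  have hg := g_neg hne
  have h1 := F.cut_one hxy hne hx1 hx2 hy1 hy2 hux huy
  have h2 := F.cut_one hxy hne hx1 hx2 hy1 hy2 hux' huy'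
  rw [F.h0 u u' huu, B_comm (nul w1) (F.v u'), B_comm (nul w2) (F.v u'), eq_div_iff hg.ne,
    zero_mul] at h
  set p := B (F.v u) (nul w1)
  set q := B (F.v u) (nul w2)
  set p' := B (F.v u') (nul w1)
  set q' := B (F.v u') (nul w2)
  -- `q p' + p q' = 0`, `p q < 0`, `p' q' < 0`
  have h3 : 0 < (p * q) * (p' * q') := mul_pos_of_neg_of_neg h1 h2
  have h4 : p * q' = -(q * p') := by linarith
  have h5 : (p * q) * (p' * q') = (p * q') * (q * p') := by ring
  rw [h5, h4] at h3
  nlinarith [sq_nonneg (q * p')]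

end ends

/-- no four pairwise adjacent members -/
theorem noK4' {x y z u : κ} (hxy : F.adj x y) (hxz : F.adj x z) (hxu : F.adj x u)
    (hyz : F.adj y z) (hyu : F.adj y u) (hzu : F.adj z u) : False := by
  obtain ⟨w1, w2, hne, a1, a2, b1, b2⟩ := F.hend x y hxy
  exact F.noK4 hxy hne a1 a2 b1 b2 (F.hsymm _ _ hxz) (F.hsymm _ _ hyz) (F.hsymm _ _ hxu)
    (F.hsymm _ _ hyu) hzu

/-- no induced four-cycle -/
theorem noC4 {x y z u : κ} (hxy : F.adj x y) (hyz : F.adj y z) (hzu : F.adj z u)
    (hux : F.adj u x) (hxz : x ≠ z) (hyu : y ≠ u) (hnxz : ¬ F.adj x z) (hnyu : ¬ F.adj y u) :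
    False := by
  have e1 := F.hneg x z hxz hnxz
  have e2 := F.hneg y u hyu hnyu
  set g := B (F.v x) (F.v z) with hg
  set g' := B (F.v y) (F.v u) with hg'
  have c1 : B (F.v z) (F.v x) = g := B_comm _ _
  have c2 : B (F.v u) (F.v y) = g' := B_comm _ _
  have c3 := F.h0 x y hxy
  have c4 := F.h0 z y (F.hsymm _ _ hyz)
  have c5 := F.h0 z u hzu
  have c6 := F.h0 x u (F.hsymm _ _ hux)
  refine timelike_ne (a := F.v z - g • F.v x) (b := F.v u - g' • F.v y) ?_ ?_ ?_
  · simp only [map_sub, map_smul, LinearMap.sub_apply, LinearMap.smul_apply, smul_eq_mul, F.h1,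
      c1, ← hg]
    nlinarith
  · simp only [map_sub, map_smul, LinearMap.sub_apply, LinearMap.smul_apply, smul_eq_mul, F.h1,
      c2, ← hg']
    nlinarith
  · simp only [map_sub, map_smul, LinearMap.sub_apply, LinearMap.smul_apply, smul_eq_mul, c3,
      c4, c5, c6]
    ring

/-- the two vectors orthogonal to a circle point and below a facing circle -/
theorem below_of_nonadj {x u : κ} (hxu : x ≠ u) (hn : ¬ F.adj x u) {p0 : E4} {w1 w2 : ℂ} {a b : ℝ}
    (ha : 0 ≤ a) (hb : 0 ≤ b) (hab : 0 < a + b) (hp0 : p0 = a • nul w1 + b • nul w2)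
    (hx : B (F.v x) p0 = 0) : B (F.v u) p0 < 0 := by
  have e1 := F.hneg x u hxu hn
  set g := B (F.v x) (F.v u) with hg
  have c1 : B (F.v u) (F.v x) = g := B_comm _ _
  set a' : E4 := F.v u - g • F.v x with ha'
  have htl : B a' a' < 0 := by
    simp only [ha', map_sub, map_smul, LinearMap.sub_apply, LinearMap.smul_apply, smul_eq_mul,
      F.h1, c1, ← hg]
    nlinarith
  -- the vector is future directed
  obtain ⟨w, hw⟩ := F.hpt x
  have hwu := F.hsep x u hxu hn w hw
  have h1 := timelike_nul a' w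
  have h2 : B a' (nul w) < 0 := by
    simp only [ha', map_sub, map_smul, LinearMap.sub_apply, LinearMap.smul_apply, smul_eq_mul, hw]
    linarith
  have hk : 0 < a'.2.1 := by
    by_contra hk
    rw [not_lt] at hk
    have h3 : 0 ≤ 2 * a'.2.1 * B a' (nul w) :=
      mul_nonneg_of_nonpos_of_nonpos (by linarith) h2.le
    have h4 := sq_nonneg ‖(a'.2.1 : ℂ) * w - a'.1‖
    linarith
  have hall : ∀ w, B a' (nul w) < 0 := by
    intro w
    have h3 := timelike_nul a' w
    have h4 := sq_nonneg ‖(a'.2.1 : ℂ) * w - a'.1‖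
    by_contra hn
    rw [not_lt] at hn
    have : 0 ≤ 2 * a'.2.1 * B a' (nul w) := mul_nonneg (by linarith) hn
    linarith
  have h5 : B a' p0 = B (F.v u) p0 := by
    simp only [ha', map_sub, map_smul, LinearMap.sub_apply, LinearMap.smul_apply, smul_eq_mul, hx]
    ring
  rw [← h5, hp0, map_add, map_smul, map_smul, smul_eq_mul, smul_eq_mul]
  have h6 := hall w1
  have h7 := hall w2
  rcases ha.eq_or_lt with h8 | h8
  · have hb' : 0 < b := by linarith
    rw [← h8, zero_mul, zero_add]
    exact mul_neg_of_pos_of_neg hb' h7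
  · have := mul_neg_of_pos_of_neg h8 h6
    have := mul_nonpos_of_nonneg_of_nonpos hb h7.le
    linarith

/-- perturbation: strict inequalities -/
theorem exists_eps [Finite κ] {S : κ → Prop} {p0 d : E4} (h : ∀ u, S u → B (F.v u) p0 < 0) :
    ∃ ε : ℝ, 0 < ε ∧ ∀ u, S u → B (F.v u) (p0 - ε • d) < 0 := by
  classical
  cases nonempty_fintype κ
  have h1 : ∀ u, ∃ ε : ℝ, 0 < ε ∧ ∀ t, 0 ≤ t → t ≤ ε → S u → B (F.v u) (p0 - t • d) < 0 := by
    intro u
    by_cases hu : S u
    · have h2 := h u hu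
      set m := |B (F.v u) d| + 1 with hm
      have hm0 : 0 < m := by positivity
      refine ⟨-(B (F.v u) p0) / (2 * m), by apply div_pos <;> linarith, fun t ht1 ht2 _ => ?_⟩
      rw [map_sub, map_smul, smul_eq_mul]
      have h3 : -(t * B (F.v u) d) ≤ t * m := by
        have h4 := neg_abs_le (B (F.v u) d)
        nlinarith
      have h4 : t * m ≤ -(B (F.v u) p0) / 2 := by
        rw [le_div_iff₀ (by positivity)] at ht2
        linarith
      linarith
    · exact ⟨1, one_pos, fun _ _ _ hS => absurd hS hu⟩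
  choose e he1 he2 using h1
  rcases isEmpty_or_nonempty κ with hκ | hκ
  · exact ⟨1, one_pos, fun u => (hκ.false u).elim⟩
  · obtain ⟨u0, -, hmin⟩ := Finset.exists_min_image (Finset.univ : Finset κ) e
      ⟨Classical.arbitrary κ, Finset.mem_univ _⟩
    exact ⟨e u0, he1 u0, fun u hu => he2 u (e u0) (he1 u0).le (hmin u (Finset.mem_univ u)) hu⟩

/-- a free end gives a plane map of the whole family -/
theorem pmap_of_free [Fintype κ] {x y : κ} (hxy : F.adj x y) {w : ℂ}
    (hx : B (F.v x) (nul w) = 0) (hy : B (F.v y) (nul w) = 0)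
    (hfree : ∀ u, u ≠ x → u ≠ y → B (F.v u) (nul w) < 0) :
    ∃ M : PMap κ, M.adj = F.adj := by
  classical
  obtain ⟨ε, hε, hall⟩ := F.exists_eps (S := fun u => u ≠ x ∧ u ≠ y) (p0 := nul w)
    (d := F.v x + F.v y) (fun u hu => hfree u hu.1 hu.2)
  set p : E4 := nul w - ε • (F.v x + F.v y) with hp
  have hyx : B (F.v y) (F.v x) = 0 := by rw [B_comm]; exact F.h0 x y hxy
  have hvp : ∀ u, B (F.v u) p < 0 := by
    intro u
    by_cases h1 : u = x
    · subst h1
      rw [hp]
      simp only [map_sub, map_add, map_smul, smul_eq_mul, hx, F.h1, F.h0 u y hxy]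
      linarith
    by_cases h2 : u = y
    · subst h2
      rw [hp]
      simp only [map_sub, map_add, map_smul, smul_eq_mul, hy, F.h1, hyx]
      linarith
    exact hall u ⟨h1, h2⟩
  have hop : B (nul w) p = 0 := by
    rw [hp]
    simp only [map_sub, map_add, map_smul, smul_eq_mul, B_nul_self, B_comm (nul w) (F.v x),
      B_comm (nul w) (F.v y), hx, hy]
    ring
  have hp0 : p ≠ 0 := by
    intro h
    have := hvp x
    rw [h, map_zero] at this
    exact lt_irrefl _ this
  obtain ⟨pr, hpr⟩ := exists_chart (nul w) p (nul_ne w) hp0 hop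
  let V : VData κ := { v := F.v, adj := F.adj, o := nul w, p := p, pr := pr, hsymm := F.hsymm,
                       h1 := F.h1, h0 := F.h0, hneg := fun x y h => F.hle h,
                       hvo := fun u => by
                        by_cases h1 : u = x
                        · rw [h1, hx]
                        by_cases h2 : u = y
                        · rw [h2, hy]
                        exact (hfree u h1 h2).le
                       hvp := hvp, hop := hop, hpr := hpr }
  obtain ⟨M, hM⟩ := V.exists_pmap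
  exact ⟨M, hM⟩

/-- a common neighbour of two adjacent members gives a plane map of the family without it -/
theorem pmap_of_vertex [Fintype κ] [DecidableEq κ] {x y z : κ} (hxy : F.adj x y) (hzx : F.adj z x)
    (hzy : F.adj z y) : ∃ M : PMap {u // u ≠ z}, M.adj = fun a b => F.adj a.1 b.1 := by
  classical
  obtain ⟨w1, w2, hne, hx1, hx2, hy1, hy2⟩ := F.hend x y hxy
  have hg := g_neg hne
  have hcut := F.cut_one hxy hne hx1 hx2 hy1 hy2 hzx hzy
  set r := B (F.v z) (nul w1) with hr
  set r' := B (F.v z) (nul w2) with hr'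
  have hr0 : r ≠ 0 := by rintro h; rw [h, zero_mul] at hcut; exact lt_irrefl _ hcut
  have hr0' : r' ≠ 0 := by rintro h; rw [h, mul_zero] at hcut; exact lt_irrefl _ hcut
  set p0 : E4 := |r'| • nul w1 + |r| • nul w2 with hp0
  have hzp : B (F.v z) p0 = 0 := by
    rw [hp0]
    simp only [map_add, map_smul, smul_eq_mul, ← hr, ← hr']
    rcases lt_or_gt_of_ne hr0 with h | h
    · have h' : 0 < r' := by
        by_contra hn; rw [not_lt] at hn; nlinarith
      rw [abs_of_neg h, abs_of_pos h']; ring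
    · have h' : r' < 0 := by
        by_contra hn; rw [not_lt] at hn; nlinarith
      rw [abs_of_pos h, abs_of_neg h']; ring
  have hxp : B (F.v x) p0 = 0 := by
    rw [hp0]
    simp only [map_add, map_smul, smul_eq_mul, hx1, hx2, mul_zero, add_zero]
  have hyp : B (F.v y) p0 = 0 := by
    rw [hp0]
    simp only [map_add, map_smul, smul_eq_mul, hy1, hy2, mul_zero, add_zero]
  have ha : 0 ≤ |r'| := abs_nonneg _
  have hb : 0 ≤ |r| := abs_nonneg _
  have hab : 0 < |r'| + |r| := by
    have := abs_pos.2 hr0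
    have := abs_pos.2 hr0'
    linarith
  have hlow : ∀ u, u ≠ x → u ≠ y → u ≠ z → B (F.v u) p0 < 0 := by
    intro u h1 h2 h3
    by_cases e1 : F.adj x u
    · by_cases e2 : F.adj y u
      · by_cases e3 : F.adj z u
        · exact (F.noK4' hxy (F.hsymm _ _ hzx) e1 (F.hsymm _ _ hzy) e2 e3).elim
        · exact F.below_of_nonadj h3.symm e3 ha hb hab hp0 hzp
      · exact F.below_of_nonadj h2.symm e2 ha hb hab hp0 hyp
    · exact F.below_of_nonadj h1.symm e1 ha hb hab hp0 hxp
  obtain ⟨ε, hε, hall⟩ := F.exists_eps (S := fun u => u ≠ x ∧ u ≠ y ∧ u ≠ z) (p0 := p0)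
    (d := F.v x + F.v y) (fun u hu => hlow u hu.1 hu.2.1 hu.2.2)
  set p : E4 := p0 - ε • (F.v x + F.v y) with hp
  have hyx : B (F.v y) (F.v x) = 0 := by rw [B_comm]; exact F.h0 x y hxy
  have hvp : ∀ u, u ≠ z → B (F.v u) p < 0 := by
    intro u hu
    by_cases h1 : u = x
    · subst h1
      rw [hp]
      simp only [map_sub, map_add, map_smul, smul_eq_mul, hxp, F.h1, F.h0 u y hxy]
      linarith
    by_cases h2 : u = y
    · subst h2
      rw [hp]
      simp only [map_sub, map_add, map_smul, smul_eq_mul, hyp, F.h1, hyx]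
      linarith
    exact hall u ⟨h1, h2, hu⟩
  have hop : B (F.v z) p = 0 := by
    rw [hp]
    simp only [map_sub, map_add, map_smul, smul_eq_mul, hzp, F.h0 z x hzx, F.h0 z y hzy]
    ring
  have hpne : p ≠ 0 := by
    intro h
    have := hvp x (F.adj_ne (F.hsymm _ _ hzx))
    rw [h, map_zero] at this
    exact lt_irrefl _ this
  have hzne : F.v z ≠ 0 := by
    intro h
    have := F.h1 z
    rw [h, map_zero] at this
    simp at this
  obtain ⟨pr, hpr⟩ := exists_chart (F.v z) p hzne hpne hop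
  let V : VData {u // u ≠ z} :=
    { v := fun u => F.v u.1, adj := fun a b => F.adj a.1 b.1, o := F.v z, p := p, pr := pr,
      hsymm := fun a b h => F.hsymm _ _ h, h1 := fun a => F.h1 _, h0 := fun a b h => F.h0 _ _ h,
      hneg := fun a b h => F.hle (fun h' => h (Subtype.ext h')),
      hvo := fun u => F.hle u.2, hvp := fun u => hvp u.1 u.2, hop := hop, hpr := hpr }
  obtain ⟨M, hM⟩ := V.exists_pmap
  exact ⟨M, hM⟩

/-- dichotomy: a free end, or every edge has exactly two common neighbours -/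
theorem free_or_closed : (∃ x y w, F.adj x y ∧ B (F.v x) (nul w) = 0 ∧ B (F.v y) (nul w) = 0 ∧
    ∀ u, u ≠ x → u ≠ y → B (F.v u) (nul w) < 0) ∨
    ∀ x y, F.adj x y → ∃ u u', u ≠ u' ∧ ∀ t, (F.adj t x ∧ F.adj t y) ↔ (t = u ∨ t = u') := by
  by_cases hfr : ∃ x y w, F.adj x y ∧ B (F.v x) (nul w) = 0 ∧ B (F.v y) (nul w) = 0 ∧
    ∀ u, u ≠ x → u ≠ y → B (F.v u) (nul w) < 0
  · exact Or.inl hfr
  right
  intro x y hxy
  obtain ⟨w1, w2, hne, hx1, hx2, hy1, hy2⟩ := F.hend x y hxy
  -- the member which cuts off an end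
  have key : ∀ w, B (F.v x) (nul w) = 0 → B (F.v y) (nul w) = 0 →
      ∃ u, F.adj u x ∧ F.adj u y ∧ 0 ≤ B (F.v u) (nul w) := by
    intro w h1 h2
    by_contra hcon
    push Not at hcon
    apply hfr
    refine ⟨x, y, w, hxy, h1, h2, fun u hux huy => ?_⟩
    by_cases e1 : F.adj u x
    · by_cases e2 : F.adj u y
      · exact hcon u e1 e2
      · exact F.hsep y u huy.symm (fun h => e2 (F.hsymm _ _ h)) w h2
    · exact F.hsep x u hux.symm (fun h => e1 (F.hsymm _ _ h)) w h1
  obtain ⟨u, hux, huy, hu⟩ := key w1 hx1 hy1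
  obtain ⟨u', hux', huy', hu'⟩ := key w2 hx2 hy2
  have c1 := F.cut_one hxy hne hx1 hx2 hy1 hy2 hux huy
  have c2 := F.cut_one hxy hne hx1 hx2 hy1 hy2 hux' huy'
  have hu1 : 0 < B (F.v u) (nul w1) := by
    refine lt_of_le_of_ne hu fun h => ?_
    rw [← h, zero_mul] at c1; exact lt_irrefl _ c1
  have hu2 : 0 < B (F.v u') (nul w2) := by
    refine lt_of_le_of_ne hu' fun h => ?_
    rw [← h, mul_zero] at c2; exact lt_irrefl _ c2
  refine ⟨u, u', ?_, fun t => ⟨fun ht => ?_, ?_⟩⟩
  · rintro rfl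
    nlinarith
  · have c3 := F.cut_one hxy hne hx1 hx2 hy1 hy2 ht.1 ht.2
    by_contra hcon
    push Not at hcon
    rcases lt_or_ge 0 (B (F.v t) (nul w1)) with h | h
    · exact F.cut_diff hxy hne hx1 hx2 hy1 hy2 ht.1 ht.2 hux huy hcon.1 h hu1
    · have h' : 0 < B (F.v t) (nul w2) := by
        by_contra hn; rw [not_lt] at hn
        have := mul_nonneg_of_nonpos_of_nonpos h hn
        linarith
      exact F.cut_diff hxy hne.symm hx2 hx1 hy2 hy1 ht.1 ht.2 hux' huy' hcon.2 h' hu2
  · rintro (rfl | rfl)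
    · exact ⟨hux, huy⟩
    · exact ⟨hux', huy'⟩

end Fam

end Pool.Agent.Helper15.OC
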