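import Mathlib
import Pool.Agent.Helper15.OC.Closed
import Pool.Agent.Helper15.OC.Fam
import Pool.Agent.Helper56.OC.M_PTS
import Pool.Agent.Helper56.OC.M_GOOD
import Pool.Agent.Helper56.OC.Frame3

/-!
# The facets of a cell are a family of mutually facing circles
-/

set_option autoImplicit false

open scoped Real

namespace Pool.Agent.Helper15.OC

open Pool.Agent.Helper56.OC (PArr)

section

variable {ι : Type} (A : Pool.Agent.Helper56.OC.Fam ι)

/-- the circle with index `i` -/
def circ (i : ι) : Circ := ⟨A.c i, A.r i, A.pos i⟩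

theorem circ_orth {i j : ι} : Circ.Orth (circ A i) (circ A j) ↔ A.orth i j := Iff.rfl

theorem circ_sph {i : ι} {x : ℂ} : x ∈ (circ A i).sph ↔ x ∈ A.sph i := by
  unfold Pool.Agent.Helper56.OC.Fam.sph
  rw [mem_sphere_iff_norm]
  rfl

theorem circ_side_true {i : ι} {x : ℂ} : x ∈ (circ A i).side true ↔ A.g i x < 0 := by
  rw [Circ.mem_in]
  unfold Pool.Agent.Helper56.OC.Fam.g
  have h := A.pos i
  have h0 := norm_nonneg (x - A.c i)
  change ‖x - A.c i‖ < A.r i ↔ _
  constructor
  · intro h'; nlinarith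
  · intro h'; nlinarith

theorem circ_side_false {i : ι} {x : ℂ} : x ∈ (circ A i).side false ↔ 0 < A.g i x := by
  rw [Circ.mem_out]
  unfold Pool.Agent.Helper56.OC.Fam.g
  have h := A.pos i
  have h0 := norm_nonneg (x - A.c i)
  change A.r i < ‖x - A.c i‖ ↔ _
  constructor
  · intro h'; nlinarith
  · intro h'; nlinarith

theorem circ_side {i : ι} {x : ℂ} (b : Bool) :
    x ∈ (circ A i).side b ↔ A.g i x ≠ 0 ∧ (A.g i x < 0 ↔ b = true) := by
  cases b
  · rw [circ_side_false]
    constructor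
    · intro h; exact ⟨h.ne', ⟨fun h' => absurd h' (not_lt.2 h.le), fun h' => absurd h' (by simp)⟩⟩
    · rintro ⟨h, h'⟩
      rcases lt_or_gt_of_ne h with h1 | h1
      · exact absurd (h'.1 h1) (by simp)
      · exact h1
  · rw [circ_side_true]
    constructor
    · intro h; exact ⟨h.ne, ⟨fun _ => rfl, fun _ => h⟩⟩
    · rintro ⟨-, h⟩; exact h.2 rfl

/-- the circle `j` lies on the side `side i j` of `i` -/
theorem sph_side {i j : ι} (hij : i ≠ j) (h : ¬ A.orth i j) {x : ℂ} (hx : x ∈ (circ A j).sph) :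
    x ∈ (circ A i).side (A.side i j) := by
  rw [circ_side]
  exact A.side_spec hij h ((circ_sph A).1 hx)

theorem exists_sph (i : ι) : ∃ x, x ∈ (circ A i).sph := by
  refine ⟨A.c i + A.r i, ?_⟩
  rw [circ_sph]
  unfold Pool.Agent.Helper56.OC.Fam.sph
  rw [mem_sphere_iff_norm]
  simp [abs_of_pos (A.pos i)]

/-- disjoint circles face each other -/
theorem B_lt {i j : ι} (hij : i ≠ j) (h : ¬ A.orth i j) :
    B ((circ A i).nrm (A.side i j)) ((circ A j).nrm (A.side j i)) < -1 := by
  have hd : Circ.Disj (circ A i) (circ A j) := by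
    have := (A.pw i j hij).resolve_right h
    unfold Circ.Disj
    rw [Set.disjoint_left] at this ⊢
    intro x hx hx'
    exact this ((circ_sph A).1 hx) ((circ_sph A).1 hx')
  obtain ⟨a, b, -, h1, h2, h3⟩ := Circ.bad_pair hd
  obtain ⟨x, hx⟩ := exists_sph A i
  obtain ⟨y, hy⟩ := exists_sph A j
  have e1 : A.side j i = !b := by
    by_contra hne
    have : A.side j i = b := by
      cases hs : A.side j i <;> cases b <;> simp_all
    have s1 := sph_side A (Ne.symm hij) (fun h' => h (A.orth_symm h')) hx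
    rw [this] at s1
    exact Circ.not_both _ _ _ s1 (h1 hx)
  have e2 : A.side i j = !a := by
    by_contra hne
    have : A.side i j = a := by
      cases hs : A.side i j <;> cases a <;> simp_all
    have s1 := sph_side A hij h hy
    rw [this] at s1
    exact Circ.not_both _ _ _ s1 (h2 hy)
  rw [e1, e2]
  exact h3

end

section

variable {ι : Type} [Fintype ι] [DecidableEq ι] (A : Pool.Agent.Helper56.OC.Fam ι)

/-- the facets of a cell -/
noncomputable def facFam (s : Finset ι) : Fam {i // i ∈ A.toPArr.fac s} where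
  v := fun i => (circ A i.1).nrm (PArr.sg s i.1)
  adj := fun i j => A.orth i.1 j.1
  hsymm := fun _ _ h => A.orth_symm h
  h1 := fun i => Circ.B_nrm_self _ _
  h0 := fun i j h => Circ.Orth.nrm ((circ_orth A).2 h) _ _
  hneg := by
    rintro ⟨i, hi⟩ ⟨j, hj⟩ hne hor
    have hij : i ≠ j := fun h => hne (Subtype.ext h)
    rw [PArr.mem_fac] at hi hj
    have e1 : PArr.sg s j = A.side j i := hi j (Finset.mem_univ j) (Ne.symm hij) hor
    have e2 : PArr.sg s i = A.side i j := hj i (Finset.mem_univ i) hij (fun h => hor (A.orth_symm h))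
    simp only
    rw [e1, e2]
    exact B_lt A hij hor
  hsep := by
    rintro ⟨i, hi⟩ ⟨j, hj⟩ hne hor w hw
    have hij : i ≠ j := fun h => hne (Subtype.ext h)
    rw [PArr.mem_fac] at hi hj
    have e1 : PArr.sg s j = A.side j i := hi j (Finset.mem_univ j) (Ne.symm hij) hor
    simp only at hw ⊢
    rw [← Circ.mem_side_iff, e1]
    rw [← Circ.mem_sph_iff'] at hw
    exact sph_side A (Ne.symm hij) (fun h => hor (A.orth_symm h)) hw
  hend := by
    rintro ⟨i, hi⟩ ⟨j, hj⟩ hor
    obtain ⟨p, q, hpq, he⟩ := (Pool.Agent.Helper56.OC.m_PTS ι A).2.1 i j hor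
    have hp : p ∈ A.sph i ∩ A.sph j := by rw [he]; simp
    have hq : q ∈ A.sph i ∩ A.sph j := by rw [he]; simp
    refine ⟨p, q, hpq, ?_, ?_, ?_, ?_⟩
    · rw [← Circ.mem_sph_iff', circ_sph]; exact hp.1
    · rw [← Circ.mem_sph_iff', circ_sph]; exact hq.1
    · rw [← Circ.mem_sph_iff', circ_sph]; exact hp.2
    · rw [← Circ.mem_sph_iff', circ_sph]; exact hq.2
  hpt := by
    rintro ⟨i, hi⟩
    obtain ⟨x, hx⟩ := exists_sph A i
    exact ⟨x, by rw [← Circ.mem_sph_iff']; exact hx⟩

/-- no four pairwise orthogonal circles -/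
theorem noK4 : A.toPArr.NoK4 := by
  intro K hK
  by_contra hc
  push Not at hc
  obtain ⟨T, hT, hT4⟩ := Finset.exists_subset_card_eq (show 4 ≤ K.card by omega)
  obtain ⟨i, j, k, l, hij, hik, hil, hjk, hjl, hkl, rfl⟩ := Finset.card_eq_four.1 hT4
  have o : ∀ x ∈ ({i, j, k, l} : Finset ι), ∀ y ∈ ({i, j, k, l} : Finset ι), x ≠ y → A.orth x y :=
    fun x hx y hy hxy => hK x (hT hx) y (hT hy) hxy
  exact (Pool.Agent.Helper56.OC.m_GOOD ι A).1 i j k l (o i (by simp) j (by simp) hij)
    (o i (by simp) k (by simp) hik) (o i (by simp) l (by simp) hil)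
    (o j (by simp) k (by simp) hjk) (o j (by simp) l (by simp) hjl)
    (o k (by simp) l (by simp) hkl)

end

end Pool.Agent.Helper15.OC
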