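import Mathlib
import Pool.Agent.Helper56.OC.Fin

/-!
# At most three circles
-/

set_option autoImplicit false

open Finset

namespace Pool.Agent.Helper56.OC

namespace PArr

variable {ι : Type} [DecidableEq ι] [Fintype ι] (A : PArr ι)

theorem frame_three (h4 : A.NoK4) (hn : Fintype.card ι = 3) (q : Finset ι → ℕ)
    (χ : ι → Finset ι → Finset ι → ℚ)
    (H1 : ∀ o ∈ A.cellsF univ, ∀ s ∈ A.cellsF univ, s ≠ o →
      (q s : ℚ) ≤ A.val χ (A.fac s) (A.near o s))
    (H2 : ∀ s ∈ A.cellsF univ, (A.fac s).card = 3 → (q s : ℚ) ≤ A.val χ (A.fac s) ∅ + 2)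
    (H3 : ∀ s ∈ A.cellsF univ, (A.fac s).card ≤ 2 → q s = 0) :
    (∑ s ∈ A.cellsF univ, (q s : ℚ)) ≤ 2 := by
  classical
  by_cases hroot : ∃ o ∈ A.cellsF univ, (A.fac o).card = 3
  · obtain ⟨o, ho, h3⟩ := hroot
    have key := A.frameQ h4 (fun s => (q s : ℚ) + (if s = o then -2 else 0)) χ (o := o) ?_
    · rw [sum_add_distrib, sum_ite_eq', if_pos ho, hn] at key
      push_cast at key
      linarith
    · intro s hs
      by_cases hso : s = o
      · subst hso
        have := H2 s hs h3
        unfold val at this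
        rw [A.near_self, if_pos rfl]
        linarith
      · rw [if_neg hso]
        have := H1 o ho s hs hso
        unfold val at this
        linarith
  · push Not at hroot
    have h0 : ∀ s ∈ A.cellsF univ, (q s : ℚ) = 0 := by
      intro s hs
      have h1 : (A.fac s).card ≤ 3 := by
        rw [← hn, ← card_univ]
        exact card_le_card (subset_univ _)
      have h2 := hroot s hs
      rw [H3 s hs (by omega)]; rfl
    rw [sum_congr rfl h0, sum_const_zero]
    norm_num

end PArr

open Fam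

variable {ι : Type} [Fintype ι] [DecidableEq ι] (A : Fam ι)

theorem three_of_glued {c : Finset ι → Finset ι → ℚ} (h : Glued A c) (hn : Fintype.card ι = 3)
    (h4 : A.toPArr.NoK4) : A.quads.Finite ∧ A.quads.ncard ≤ 2 := by
  obtain ⟨hfin, hle⟩ := quads_le A
  refine ⟨hfin, ?_⟩
  have hstarP : ∀ s x y z, A.toPArr.IsP3 (A.toPArr.fac s) x y z →
      ∀ i ∈ A.toPArr.fac s, i ≠ y → A.orth i y := by
    intro s x y z hP i hi hiy
    rw [hP.2.2.2.2] at hi
    simp only [mem_insert, mem_singleton] at hi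
    rcases hi with rfl | rfl | rfl
    · exact A.orth_symm hP.1
    · exact absurd rfl hiy
    · exact A.orth_symm hP.2.1
  have hyP : ∀ s x y z, A.toPArr.IsP3 (A.toPArr.fac s) x y z → y ∈ A.toPArr.fac s := by
    intro s x y z hP
    rw [hP.2.2.2.2]; simp
  have key := A.toPArr.frame_three h4 hn (qs A) (fun _ => c) ?_ ?_ ?_
  · have h1 : ((A.quads.ncard : ℕ) : ℚ) ≤ ∑ s ∈ A.toPArr.cellsF univ, (qs A s : ℚ) := by
      exact_mod_cast hle
    have h2 : ((A.quads.ncard : ℕ) : ℚ) ≤ 2 := by linarith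
    exact_mod_cast h2
  · intro o ho s hs hso
    obtain ⟨-, FF, hc, h1, h2⟩ := qset_fam A s
    rw [← hc]
    apply h.g1 s hs _ _ (A.toPArr.near_nonempty ho hs hso) (A.toPArr.near_clq ho) FF ⟨h1, h2⟩
    intro i hi
    exact (A.toPArr.mem_near.1 hi).1
  · intro s hs h3
    by_cases hP : ∃ x y z, A.toPArr.IsP3 (A.toPArr.fac s) x y z
    · obtain ⟨x, y, z, hP⟩ := hP
      have h1 := (qs_le_one A (hyP s x y z hP) (hstarP s x y z hP)).1
      have h2 := h.g4 s hs x y z hP
      have h3 : (qs A s : ℚ) ≤ 1 := by exact_mod_cast h1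
      linarith
    · rw [qs_three A h3 hP]
      have := h.g3 s hs h3 hP
      push_cast
      linarith
  · intro s _ hc
    exact qs_zero_two A s hc

theorem small_fam (hn : Fintype.card ι ≤ 2) : A.quads = ∅ := by
  obtain ⟨hfin, hle⟩ := quads_le A
  have h0 : ∀ s ∈ A.toPArr.cellsF univ, qs A s = 0 := by
    intro s _
    apply qs_zero_two
    exact (card_le_card (subset_univ _)).trans (by rw [card_univ]; exact hn)
  rw [sum_congr rfl h0, sum_const_zero, Nat.le_zero, Set.ncard_eq_zero hfin] at hle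
  exact hle

/-- at most two circles: no quadrangular face -/
theorem quad_small (S : Finset Circ) (hS : IsArrangement S) (hn : S.card ≤ 2) :
    quadFaces S = ∅ := by
  classical
  obtain ⟨A, hA⟩ := m_TR S hS
  rw [hA]
  exact small_fam A (by rw [Fintype.card_coe]; exact hn)

/-- three circles: at most two quadrangular faces -/
theorem quad_three (hgl : ∀ (ι : Type) [Fintype ι] [DecidableEq ι] (A : Fam ι),
      ∃ c : Finset ι → Finset ι → ℚ, Glued A c)
    (hk4 : ∀ (ι : Type) [Fintype ι] [DecidableEq ι] (A : Fam ι), A.toPArr.NoK4)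
    (S : Finset Circ) (hS : IsArrangement S) (hn : S.card = 3) :
    (quadFaces S).Finite ∧ (quadFaces S).ncard ≤ 2 := by
  classical
  obtain ⟨A, hA⟩ := m_TR S hS
  obtain ⟨c, hc⟩ := hgl _ A
  rw [hA]
  exact three_of_glued A hc (by rw [Fintype.card_coe]; exact hn) (hk4 _ A)

end Pool.Agent.Helper56.OC
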