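import Mathlib
import Pool.Agent.Helper15.OC.Blk

/-!
# Rotated and reflected windows
-/

set_option autoImplicit false

open Finset

namespace Pool.Agent.Helper56.OC

namespace Win

variable {ι : Type} (Ω : Win ι)

theorem kpos (F : Ω.W) : 0 < Ω.k F := by have := Ω.k5 F; omega

theorem per_mul (F : Ω.W) (i m : ℤ) : Ω.b F (i + m * Ω.k F) = Ω.b F i := by
  induction m using Int.induction_on with
  | zero => simp
  | succ n ih =>
    have : i + ((n : ℤ) + 1) * Ω.k F = (i + (n : ℤ) * Ω.k F) + Ω.k F := by ring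
    rw [this, Ω.per, ih]
  | pred n ih =>
    have h := Ω.per F (i + (-(n : ℤ) - 1) * Ω.k F)
    rw [← h, ← ih]
    congr 1
    ring

theorem eq_iff (F : Ω.W) (i j : ℤ) : Ω.b F i = Ω.b F j ↔ (Ω.k F : ℤ) ∣ i - j := by
  refine ⟨Ω.inj F i j, ?_⟩
  rintro ⟨m, hm⟩
  have : i = j + m * Ω.k F := by linarith [mul_comm (Ω.k F : ℤ) m]
  rw [this, Ω.per_mul]

theorem mem_ws {F : Ω.W} {x : ι} : F ∈ Ω.ws x ↔ Ω.on F x := by
  classical
  unfold ws; rw [mem_filter]; simp

theorem mem_es {F : Ω.W} {x y : ι} : F ∈ Ω.es x y ↔ Ω.sd F x y := by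
  classical
  unfold es; rw [mem_filter]; simp

theorem sd_comm {F : Ω.W} {x y : ι} : Ω.sd F x y ↔ Ω.sd F y x := by
  unfold sd
  constructor
  · rintro ⟨i, h | h⟩
    · exact ⟨i, Or.inr h⟩
    · exact ⟨i, Or.inl h⟩
  · rintro ⟨i, h | h⟩
    · exact ⟨i, Or.inr h⟩
    · exact ⟨i, Or.inl h⟩

theorem es_comm (x y : ι) : Ω.es x y = Ω.es y x := by
  ext F; rw [mem_es, mem_es, sd_comm]

theorem on_of_sd {F : Ω.W} {x y : ι} (h : Ω.sd F x y) : Ω.on F x ∧ Ω.on F y := by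
  obtain ⟨i, ⟨h1, h2⟩ | ⟨h1, h2⟩⟩ := h
  · exact ⟨⟨i, h1⟩, ⟨i + 1, h2⟩⟩
  · exact ⟨⟨i + 1, h2⟩, ⟨i, h1⟩⟩

theorem es_sub (x y : ι) : Ω.es x y ⊆ Ω.ws x := by
  intro F hF
  rw [mem_ws]
  exact (Ω.on_of_sd ((Ω.mem_es).1 hF)).1

theorem mem_vs {F : Ω.W} {x : ι} : x ∈ Ω.vs F ↔ Ω.on F x := by
  classical
  unfold vs on
  rw [mem_image]
  constructor
  · rintro ⟨i, -, h⟩; exact ⟨i, h⟩
  · rintro ⟨i, h⟩
    have hk : (0 : ℤ) < Ω.k F := by exact_mod_cast Ω.kpos F
    refine ⟨(i % Ω.k F).toNat, ?_, ?_⟩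
    · rw [mem_range]
      have := Int.emod_lt_of_pos i hk
      have h0 := Int.emod_nonneg i hk.ne'
      omega
    · have h0 := Int.emod_nonneg i hk.ne'
      rw [Int.toNat_of_nonneg h0, ← h, Ω.eq_iff]
      exact ⟨-(i / Ω.k F), by have := Int.emod_add_mul_ediv i (Ω.k F); linarith⟩

namespace View

variable {Ω} {F : Ω.W} {c : ℤ → ι} (h : Ω.View F c)

theorem base (F : Ω.W) : Ω.View F (Ω.b F) := ⟨0, Or.inl (fun i => by rw [zero_add])⟩

include h

theorem shift (s : ℤ) : Ω.View F (fun i => c (i + s)) := by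
  obtain ⟨r, h | h⟩ := h
  · exact ⟨r + s, Or.inl (fun i => by simp only [h]; congr 1; ring)⟩
  · exact ⟨r - s, Or.inr (fun i => by simp only [h]; congr 1; ring)⟩

theorem flip : Ω.View F (fun i => c (-i)) := by
  obtain ⟨r, h | h⟩ := h
  · exact ⟨r, Or.inr (fun i => by simp only [h]; congr 1)⟩
  · exact ⟨r, Or.inl (fun i => by simp only [h]; congr 1; ring)⟩

/-- reflection at `s` -/
theorem flip' (s : ℤ) : Ω.View F (fun i => c (s - i)) := by
  have := (h.shift s).flip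
  convert this using 2 with i
  congr 1
  ring

theorem eq_iff (i j : ℤ) : c i = c j ↔ (Ω.k F : ℤ) ∣ i - j := by
  obtain ⟨r, h | h⟩ := h
  · rw [h, h, Ω.eq_iff]; congr! 1; ring
  · rw [h, h, Ω.eq_iff, show r - i - (r - j) = -(i - j) by ring, dvd_neg]

theorem per (i : ℤ) : c (i + Ω.k F) = c i := (h.eq_iff _ _).2 ⟨1, by ring⟩

/-- different positions less than `k` apart -/
theorem ne {i j : ℤ} (h1 : i < j) (h2 : j < i + Ω.k F) : c i ≠ c j := by
  intro he
  have h3 := (h.eq_iff i j).1 he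
  rw [show i - j = -(j - i) by ring, dvd_neg] at h3
  have := Int.le_of_dvd (by linarith) h3
  linarith

theorem on (i : ℤ) : Ω.on F (c i) := by
  obtain ⟨r, h | h⟩ := h
  · exact ⟨_, (h i).symm⟩
  · exact ⟨_, (h i).symm⟩

theorem on_iff {x : ι} : Ω.on F x ↔ ∃ i, c i = x := by
  constructor
  · rintro ⟨j, rfl⟩
    obtain ⟨r, h | h⟩ := h
    · exact ⟨j - r, by rw [h]; congr 1; ring⟩
    · exact ⟨r - j, by rw [h]; congr 1; ring⟩
  · rintro ⟨i, rfl⟩; exact h.on i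

/-- a vertex of the window is `c i` with `0 ≤ i < k` -/
theorem exists_lt {x : ι} (hx : Ω.on F x) (s : ℤ) : ∃ i, s ≤ i ∧ i < s + Ω.k F ∧ c i = x := by
  obtain ⟨j, rfl⟩ := (h.on_iff).1 hx
  have hk : (0 : ℤ) < Ω.k F := by exact_mod_cast Ω.kpos F
  refine ⟨s + (j - s) % Ω.k F, ?_, ?_, ?_⟩
  · have := Int.emod_nonneg (j - s) hk.ne'; linarith
  · have := Int.emod_lt_of_pos (j - s) hk; linarith
  · rw [h.eq_iff]
    exact ⟨-((j - s) / Ω.k F), by have := Int.emod_add_mul_ediv (j - s) (Ω.k F); linarith⟩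

theorem mem_ws (i : ℤ) : F ∈ Ω.ws (c i) := (Ω.mem_ws).2 (h.on i)

theorem mem_vs (i : ℤ) : c i ∈ Ω.vs F := (Ω.mem_vs).2 (h.on i)

theorem sd_iff {i : ℤ} {y : ι} : Ω.sd F (c i) y ↔ y = c (i - 1) ∨ y = c (i + 1) := by
  have key : ∀ (d : ℤ → ι), (∃ r : ℤ, ∀ i, d i = Ω.b F (r + i)) → ∀ i,
      Ω.sd F (d i) y ↔ y = d (i - 1) ∨ y = d (i + 1) := by
    rintro d ⟨r, hr⟩ i
    unfold sd
    constructor
    · rintro ⟨j, ⟨h1, h2⟩ | ⟨h1, h2⟩⟩
      · right
        rw [hr, Ω.eq_iff] at h1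
        rw [← h2, hr, Ω.eq_iff]
        obtain ⟨m, hm⟩ := h1
        exact ⟨m, by linarith⟩
      · left
        rw [hr, Ω.eq_iff] at h2
        rw [← h1, hr, Ω.eq_iff]
        obtain ⟨m, hm⟩ := h2
        exact ⟨m, by linarith⟩
    · rintro (rfl | rfl)
      · refine ⟨r + (i - 1), Or.inr ⟨(hr _).symm, ?_⟩⟩
        rw [hr]; congr 1; ring
      · refine ⟨r + i, Or.inl ⟨(hr _).symm, ?_⟩⟩
        rw [hr]; congr 1; ring
  obtain ⟨r, h | h⟩ := h
  · exact key c ⟨r, h⟩ i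
  · have h2 := key (fun i => c (-i)) ⟨r, fun i => by rw [h]; congr 1; ring⟩ (-i)
    simp only [neg_neg] at h2
    rw [h2, show -(-i - 1) = i + 1 by ring, show -(-i + 1) = i - 1 by ring, or_comm]

theorem sd (i : ℤ) : Ω.sd F (c i) (c (i + 1)) := (h.sd_iff).2 (Or.inr rfl)

theorem sd' (i : ℤ) : Ω.sd F (c i) (c (i - 1)) := (h.sd_iff).2 (Or.inl rfl)

theorem mem_es (i : ℤ) : F ∈ Ω.es (c i) (c (i + 1)) := (Ω.mem_es).2 (h.sd i)

theorem vs_eq [DecidableEq ι] : Ω.vs F = (range (Ω.k F)).image (fun i : ℕ => c i) := by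
  ext x
  rw [Win.mem_vs, mem_image]
  constructor
  · intro hx
    obtain ⟨i, h1, h2, h3⟩ := h.exists_lt hx 0
    refine ⟨i.toNat, ?_, ?_⟩
    · rw [mem_range]; omega
    · rw [Int.toNat_of_nonneg h1]; exact h3
  · rintro ⟨i, -, rfl⟩; exact h.on i

/-- sums over the vertices of a window -/
theorem sum_vs {M : Type} [AddCommMonoid M] (f : ι → M) :
    ∑ v ∈ Ω.vs F, f v = ∑ i ∈ range (Ω.k F), f (c i) := by
  classical
  rw [h.vs_eq, sum_image]
  intro i hi j hj hij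
  rw [SetLike.mem_coe, mem_range] at hi hj
  by_contra hne
  rcases Nat.lt_or_gt_of_ne hne with h1 | h1
  · exact h.ne (i := i) (j := j) (by exact_mod_cast h1) (by omega) hij
  · exact h.ne (i := j) (j := i) (by exact_mod_cast h1) (by omega) hij.symm

theorem card_vs : (Ω.vs F).card = Ω.k F := by
  have := h.sum_vs (fun _ => 1)
  simpa using this

end View

/-- sums of periodic functions -/
theorem sum_shift {k : ℕ} {f : ℤ → ℕ} (hf : ∀ i, f (i + k) = f i) (s : ℤ) :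
    ∑ i ∈ range k, f (i + s) = ∑ i ∈ range k, f i := by
  have step : ∀ g : ℤ → ℕ, (∀ i, g (i + k) = g i) →
      ∑ i ∈ range k, g (i + 1) = ∑ i ∈ range k, g i := by
    intro g hg
    have h1 := sum_range_succ (fun i : ℕ => g i) k
    have h2 := sum_range_succ' (fun i : ℕ => g i) k
    rw [h2] at h1
    have h3 : g (k : ℤ) = g 0 := by have := hg 0; rwa [zero_add] at this
    simp only [Nat.cast_zero, h3] at h1
    have := Nat.add_right_cancel h1
    simpa using this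
  induction s using Int.induction_on with
  | zero => simp
  | succ n ih =>
    rw [← ih]
    have := step (fun i => f (i + n)) (fun i => by
      have := hf (i + n)
      rw [← this]; congr 1; ring)
    rw [← this]
    apply sum_congr rfl
    intro i _
    congr 1; ring
  | pred n ih =>
    rw [← ih]
    have := step (fun i => f (i + (-(n : ℤ) - 1))) (fun i => by
      have := hf (i + (-(n : ℤ) - 1))
      rw [← this]; congr 1; ring)
    rw [← this]
    apply sum_congr rfl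
    intro i _
    congr 1; ring

theorem sum_flip {k : ℕ} {f : ℤ → ℕ} (hf : ∀ i, f (i + k) = f i) (s : ℤ) :
    ∑ i ∈ range k, f (s - i) = ∑ i ∈ range k, f i := by
  rw [← sum_range_reflect]
  rw [← sum_shift hf (s - k + 1)]
  apply sum_congr rfl
  intro i hi
  rw [mem_range] at hi
  congr 1
  have : ((k - 1 - i : ℕ) : ℤ) = (k : ℤ) - 1 - i := by omega
  rw [this]; ring

open Classical in
/-- the number of near sides -/
theorem View.eT_eq {Ω : Win ι} {F : Ω.W} {c : ℤ → ι} (h : Ω.View F c) (T : Finset ι) :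
    Ω.eT T F = ∑ i ∈ range (Ω.k F), (if c i ∈ T ∧ c ((i : ℤ) + 1) ∈ T then 1 else 0) := by
  have h0 : Ω.eT T F = ∑ i ∈ range (Ω.k F), (if Ω.b F i ∈ T ∧ Ω.b F ((i : ℤ) + 1) ∈ T then 1
      else 0) := by
    unfold eT; rw [card_filter]
  rw [h0]
  set f : ℤ → ℕ := fun i => if Ω.b F i ∈ T ∧ Ω.b F (i + 1) ∈ T then 1 else 0 with hfd
  have hf : ∀ i, f (i + Ω.k F) = f i := by
    intro i
    simp only [hfd]
    rw [Ω.per, show i + (Ω.k F : ℤ) + 1 = i + 1 + Ω.k F by ring, Ω.per]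
  obtain ⟨s, h | h⟩ := h
  · have h1 := sum_shift hf s
    change ∑ i ∈ range (Ω.k F), f i = _
    rw [← h1]
    apply sum_congr rfl
    intro i _
    simp only [hfd, h]
    rw [show (i : ℤ) + s = s + i by ring, show s + (i : ℤ) + 1 = s + ((i : ℤ) + 1) by ring]
  · have h1 := sum_flip hf (s - 1)
    change ∑ i ∈ range (Ω.k F), f i = _
    rw [← h1]
    apply sum_congr rfl
    intro i _
    simp only [hfd, h]
    rw [show s - 1 - (i : ℤ) = s - ((i : ℤ) + 1) by ring,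
      show s - ((i : ℤ) + 1) + 1 = s - (i : ℤ) by ring]
    congr 1
    rw [and_comm]

end Win

namespace Blk

variable {ι : Type} [DecidableEq ι] {A : PArr ι} {V : Finset ι} (B : Blk A V)

section

variable {B} {F : B.W} {c : ℤ → ι} (h : B.View F c)

include h

theorem vmem (i : ℤ) : c i ∈ V := by
  obtain ⟨j, hj⟩ := h.on i
  rw [← hj]; exact B.mem F j

theorem vadj (i : ℤ) : A.orth (c i) (c (i + 1)) := by
  have : ∀ x y, B.sd F x y → A.orth x y := by
    rintro x y ⟨j, ⟨h1, h2⟩ | ⟨h1, h2⟩⟩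
    · rw [← h1, ← h2]; exact B.adj F j
    · rw [← h1, ← h2]; exact A.symm (B.adj F j)
  exact this _ _ (h.sd i)

theorem vadj' (i : ℤ) : A.orth (c i) (c (i - 1)) := by
  have := vadj h (i - 1)
  rw [sub_add_cancel] at this
  exact A.symm this

end

theorem SF_eq {B : Blk A V} {F : B.W} {c : ℤ → ι} (h : B.View F c) (T : Finset ι) :
    B.SF T F = ∑ i ∈ range (B.k F), B.w T F (c i) := h.sum_vs _

theorem sd_orth {F : B.W} {x y : ι} (h : B.sd F x y) : A.orth x y := by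
  obtain ⟨j, ⟨h1, h2⟩ | ⟨h1, h2⟩⟩ := h
  · rw [← h1, ← h2]; exact B.adj F j
  · rw [← h1, ← h2]; exact A.symm (B.adj F j)

theorem on_mem {F : B.W} {x : ι} (h : B.on F x) : x ∈ V := by
  obtain ⟨i, rfl⟩ := h; exact B.mem F i

theorem mem_lk' {V : Finset ι} {i j : ι} : j ∈ A.lk V i ↔ j ∈ V ∧ A.orth i j := by
  classical
  unfold PArr.lk; rw [mem_filter]

theorem sd_mem {F : B.W} {x y : ι} (h : B.sd F x y) : y ∈ A.lk V x :=
  mem_lk'.2 ⟨B.on_mem (B.on_of_sd h).2, B.sd_orth h⟩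

/-- a view which starts at a given vertex -/
theorem exists_view {F : B.W} {x : ι} (h : B.on F x) : ∃ c, B.View F c ∧ c 0 = x := by
  obtain ⟨i, rfl⟩ := h
  refine ⟨fun j => B.b F (j + i), (Win.View.base F).shift i, by simp⟩

end Blk

end Pool.Agent.Helper56.OC
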